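import Pool.Agent.U403.Max.Zero
import Pool.Agent.R320.VQ.TailN
import Pool.Agent.Y743.NC.Block
import Pool.Agent.R320.JL.Fin

/-! # From heights to zeros: the count -/

set_option autoImplicit false

namespace Pool.Agent.U403.Max

open Filter Topology MeasureTheory Set
open Pool.Agent.R320.JL (YY YY_meas SS_gL varB palmF split_sum)
open Pool.Agent.Y743.NC (dev dev_nonneg dev_int ff)
open Pool.Agent.Y743.LR (yv)
open Pool.Agent.R320.CL (SS)
open SG (NZ ord)
open SP (RHs)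

noncomputable section

lemma GoodZ_mono {R n : ℕ} {ε ε' : ℝ} (hR : 1 ≤ R) (h : ε ≤ ε') (hg : GoodZ R ε n) : GoodZ R ε' n := by
  have hl : 0 ≤ Real.log R := Real.log_nonneg (by exact_mod_cast hR)
  obtain ⟨g1, ⟨b, h1, h2, h3⟩, ⟨c, h4, h5, h6⟩⟩ := hg
  have k1 : (1 / Real.pi + ε) * Real.log R ≤ (1 / Real.pi + ε') * Real.log R :=
    mul_le_mul_of_nonneg_right (by linarith) hl
  have k2 : (1 / Real.pi - ε') * Real.log R ≤ (1 / Real.pi - ε) * Real.log R :=
    mul_le_mul_of_nonneg_right (by linarith) hl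
  exact ⟨fun b hb hb2 => (g1 b hb hb2).trans k1, ⟨b, h1, h2, k2.trans h3⟩, ⟨c, h4, h5, k2.trans h6⟩⟩

open Classical in
theorem blkB (hRH : RHs) (ε : ℝ) (hε : 0 < ε) (η : ℝ) (hη : 0 < η) : ∀ᶠ R : ℕ in atTop, ∀ᶠ T : ℝ in atTop,
    ∀ A B' : ℝ, T + 1 ≤ A → A + 1 ≤ B' → B' ≤ 2 * T →
    ‖∑ n ∈ Finset.Ioc (NZ A) (NZ B'), (if GoodZ R ε n then (0 : ℂ) else 1)‖ ≤ η * (T * Real.log T) := by
  have hpi := Real.pi_pos
  have hpi3 := Real.pi_gt_three
  obtain ⟨ε1, he⟩ : ∃ ε1 : ℝ, ε1 = min (ε / 6) (1 / 10) := ⟨_, rfl⟩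
  have he0 : 0 < ε1 := by rw [he]; positivity
  have he6 : 6 * ε1 ≤ ε := by
    have : ε1 ≤ ε / 6 := by rw [he]; exact min_le_left _ _
    linarith
  have he10 : ε1 ≤ 1 / 10 := by rw [he]; exact min_le_right _ _
  obtain ⟨C, T0, hC, hT0, hv⟩ := varB 1 le_rfl
  -- the window
  obtain ⟨M, hM1, hM⟩ : ∃ M : ℕ, 1 ≤ M ∧ C + Real.log (1 + M) ≤ (η * M) ^ 2 := by
    have h1 : ∀ᶠ x : ℝ in atTop, C + Real.log (1 + x) ≤ (η * x) ^ 2 := by
      filter_upwards [eventually_ge_atTop 1, eventually_ge_atTop (2 * C / η ^ 2), eventually_ge_atTop (2 / η ^ 2)] with x h1 h2 h3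
      rw [div_le_iff₀ (by positivity)] at h2 h3
      have h4 : Real.log (1 + x) ≤ x := by
        have := Real.log_le_sub_one_of_pos (show 0 < 1 + x by linarith)
        linarith
      have h5 : 2 * C ≤ x * (x * η ^ 2) := by
        calc 2 * C ≤ x * η ^ 2 := h2
          _ ≤ x * (x * η ^ 2) := le_mul_of_one_le_left (by positivity) h1
      have h6 : 2 * x ≤ x * (x * η ^ 2) := by nlinarith
      have h7 : (η * x) ^ 2 = x * (x * η ^ 2) := by ring
      rw [h7]
      linarith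
    obtain ⟨N, hN1, hN2⟩ := ((tendsto_natCast_atTop_atTop.eventually h1).and (eventually_ge_atTop 1)).exists
    exact ⟨N, hN2, hN1⟩
  have hM0 : (0 : ℝ) < M := by exact_mod_cast hM1
  have hM1' : (1 : ℝ) ≤ M := by exact_mod_cast hM1
  have hlM : 0 ≤ Real.log (1 + M) := Real.log_nonneg (by linarith)
  obtain ⟨s, hsd⟩ : ∃ s : ℝ, s = Real.sqrt (C + Real.log (1 + M)) := ⟨_, rfl⟩
  have hs : 0 < s := by rw [hsd]; exact Real.sqrt_pos.2 (by linarith)
  have hs2 : s ^ 2 = C + Real.log (1 + M) := by rw [hsd, Real.sq_sqrt (by linarith)]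
  have hsM : s ≤ η * M := by
    rw [hsd]
    exact Real.sqrt_le_iff.2 ⟨by positivity, hM⟩
  have hlogr : Tendsto (fun r : ℕ => Real.log (r : ℝ)) atTop atTop :=
    Real.tendsto_log_atTop.comp tendsto_natCast_atTop_atTop
  have ev1 : ∀ᶠ x : ℝ in atTop, 4 * Real.log x + M + 10 ≤ x := by
    have h2 := Real.isLittleO_log_id_atTop.bound (c := 1 / 8) (by positivity)
    filter_upwards [h2, eventually_ge_atTop 1, eventually_ge_atTop (2 * ((M : ℝ) + 10))] with x hx h1 h3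
    rw [id, Real.norm_of_nonneg (Real.log_nonneg h1), Real.norm_of_nonneg (by linarith)] at hx
    linarith
  obtain ⟨r0, hr0⟩ := eventually_atTop.1 ((comb hRH ε1 he0 M hM1 η hη).and
    ((hlogr.eventually_ge_atTop (((M : ℝ) + 2) / ε1)).and ((tendsto_natCast_atTop_atTop.eventually ev1).and
      (eventually_ge_atTop 1))))
  filter_upwards [eventually_ge_atTop (2 * r0)] with R hR
  obtain ⟨r, hr⟩ : ∃ r : ℕ, r = R / 2 := ⟨_, rfl⟩
  have hrr : r0 ≤ r := by omega
  have hR1 : 2 * r ≤ R := by omega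
  have hR2 : R ≤ 2 * r + 1 := by omega
  obtain ⟨c1, c2, c3, c4⟩ := hr0 r hrr
  obtain ⟨q, hq⟩ : ∃ q : ℝ, q = Real.log r := ⟨_, rfl⟩
  rw [← hq] at c2 c3
  rw [div_le_iff₀ he0] at c2
  have hr1 : (1 : ℝ) ≤ r := by exact_mod_cast c4
  have hRr : (r : ℝ) ≤ R := by exact_mod_cast (by omega : r ≤ R)
  have hR3 : (R : ℝ) ≤ 3 * r := by exact_mod_cast (by omega : R ≤ 3 * r)
  have n4 : q ≤ Real.log R := by rw [hq]; exact Real.log_le_log (by linarith) hRr
  have hRq : Real.log R ≤ q + 2 := by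
    have h1 : Real.log R ≤ Real.log (3 * r) := Real.log_le_log (by linarith) hR3
    rw [Real.log_mul (by norm_num) (by linarith), ← hq] at h1
    have h2 : Real.log 3 ≤ 2 := by
      have := Real.log_le_sub_one_of_pos (show (0 : ℝ) < 3 by norm_num)
      linarith
    linarith
  have hq0 : 0 ≤ q := by rw [hq]; exact Real.log_nonneg hr1
  have n5 : (1 / Real.pi - 6 * ε1) * Real.log R ≤ (1 / Real.pi - 5 * ε1) * q := by
    have hpi1 : 1 / Real.pi ≤ 1 / 3 := one_div_le_one_div_of_le (by norm_num) hpi3.le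
    rcases le_total 0 (1 / Real.pi - 6 * ε1) with h | h
    · have h1 := mul_le_mul_of_nonneg_left hRq h
      nlinarith
    · have h1 := mul_le_mul_of_nonpos_left n4 h
      nlinarith
  filter_upwards [c1, eventually_ge_atTop (max T0 100), eventually_ge_atTop (4 / η),
    Real.tendsto_log_atTop.eventually_ge_atTop (64 * r), Real.tendsto_log_atTop.eventually_ge_atTop (2 * Real.pi * M),
    Real.tendsto_log_atTop.eventually_ge_atTop ((M : ℝ) * Real.log M)] with T t1 t2 t3 t4 t5 t6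
  intro A B' hA hAB hB
  have hTT0 : T0 ≤ T := (le_max_left _ _).trans t2
  have hT100 : 100 ≤ T := (le_max_right _ _).trans t2
  have hT0' : 0 < T := by linarith
  obtain ⟨L, hL⟩ : ∃ L : ℝ, L = Real.log T := ⟨_, rfl⟩
  have hL0 : 0 < L := by rw [hL]; exact Real.log_pos (by linarith)
  obtain ⟨ℓ, hℓ⟩ : ∃ ℓ : ℝ, ℓ = M * (2 * Real.pi / Real.log T) := ⟨_, rfl⟩
  have hℓ0 : 0 < ℓ := by rw [hℓ, ← hL]; positivity
  have hℓ1 : ℓ ≤ 1 := by
    have : ℓ = 2 * Real.pi * M / L := by rw [hℓ, hL]; ring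
    rw [this, div_le_one hL0, hL]
    exact t5
  obtain ⟨W, hW⟩ : ∃ W : Set ℝ, W = toMeasurable (PT T) {t | ¬ Good T r M ε1 t} := ⟨_, rfl⟩
  have hWm : MeasurableSet W := by rw [hW]; exact measurableSet_toMeasurable _ _
  have hWs : {t | ¬ Good T r M ε1 t} ⊆ W := by rw [hW]; exact subset_toMeasurable _ _
  have hWv : volume.real (W ∩ Icc T (2 * T)) ≤ η * T := by
    have h1 : (PT T).real W ≤ η := by
      have : (PT T).real W = (PT T).real {t | ¬ Good T r M ε1 t} := by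
        rw [hW]
        unfold Measure.real
        rw [measure_toMeasurable]
      rw [this]
      exact t1
    rw [PT_real hT0' hWm, div_le_iff₀ hT0'] at h1
    refine le_trans ?_ h1
    have h2 : W ∩ Icc T (2 * T) ⊆ (W ∩ Ioc T (2 * T)) ∪ {T} := by
      rintro x ⟨k1, k2⟩
      rcases eq_or_lt_of_le k2.1 with h | h
      · right
        exact h.symm
      · left
        exact ⟨k1, h, k2.2⟩
    refine (measureReal_mono h2 ?_).trans ((measureReal_union_le _ _).trans ?_)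
    · refine (measure_union_lt_top ?_ ?_).ne
      · refine lt_of_le_of_lt (measure_mono inter_subset_right) ?_
        rw [Real.volume_Ioc]; exact ENNReal.ofReal_lt_top
      · simp
    · have : volume.real ({T} : Set ℝ) = 0 := by simp [Measure.real]
      rw [this, add_zero]
  have key := palmF (T := T) (M := M) (s := s) (δ := 0) (A := A) (B' := B') (by linarith) hM0 hs le_rfl (by norm_num)
    (by rw [← hℓ]; linarith) (by rw [← hℓ]; linarith) hB
    (fun n => if GoodZ R ε n then (0 : ℂ) else 1) (fun n => by split_ifs <;> simp) (fun _ => 0)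
    measurable_const (fun _ => by simp) W hWm (fun n hn hA1 hB1 t ht1 ht2 htW => by
      have h1 : Good T r M ε1 t := by
        by_contra h
        exact htW (hWs h)
      have h2 : GoodZ R (6 * ε1) n := one_good hT100 he0 he10 hR1 hR2 hq hn (by linarith) (by linarith)
        (by linarith) c3 t4 n4 n5 ht1 ht2 h1
      have h3 := GoodZ_mono (by omega) he6 h2
      simp only [if_pos h3, sub_zero, norm_zero, le_refl])
  rw [← hℓ] at key
  simp only [intervalIntegral.integral_zero, mul_zero, sub_zero, zero_mul, zero_add, add_zero] at key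
  rw [norm_mul, Complex.norm_real, Real.norm_eq_abs, abs_of_pos hℓ0] at key
  obtain ⟨Sb, hSb⟩ : ∃ Sb : ℝ, Sb = ‖∑ n ∈ Finset.Ioc (NZ A) (NZ B'), (if GoodZ R ε n then (0 : ℂ) else 1)‖ := ⟨_, rfl⟩
  rw [← hSb] at key ⊢
  have hv1 := hv T hTT0 M hM0 (by rw [one_mul]; exact t6)
  have hv2 : 1 / s * ∫ t in Icc T (2 * T), dev T M t ≤ s * T := by
    calc 1 / s * ∫ t in Icc T (2 * T), dev T M t ≤ 1 / s * (T * (C + Real.log (1 + M))) :=
          mul_le_mul_of_nonneg_left hv1 (by positivity)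
      _ = s * T := by rw [← hs2]; field_simp
  have h5 : ℓ * Sb ≤ M * (2 * (η * T) + 4 * ℓ) + 3 * (s * T) := by
    refine key.trans ?_
    have : (M : ℝ) * (2 * volume.real (W ∩ Icc T (2 * T)) + 4 * ℓ) ≤ M * (2 * (η * T) + 4 * ℓ) := by gcongr
    linarith
  have h6 : M * (2 * (η * T) + 4 * ℓ) + 3 * (s * T) ≤ M * (6 * η * T) := by
    rw [div_le_iff₀ hη] at t3
    have a1 : s * T ≤ η * M * T := mul_le_mul_of_nonneg_right hsM hT0'.le
    have a2 : 4 * ℓ ≤ η * T := by linarith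
    have a3 : (M : ℝ) * (4 * ℓ) ≤ M * (η * T) := mul_le_mul_of_nonneg_left a2 hM0.le
    nlinarith
  have h7 : (M : ℝ) * (2 * Real.pi / L * Sb) ≤ M * (6 * η * T) := by
    have e : (M : ℝ) * (2 * Real.pi / L * Sb) = ℓ * Sb := by rw [hℓ, hL]; ring
    rw [e]
    exact h5.trans h6
  have h8 := le_of_mul_le_mul_left h7 hM0
  have hSb0 : 0 ≤ Sb := by rw [hSb]; exact norm_nonneg _
  have h9 : 6 / L * Sb ≤ 6 * η * T := by
    refine le_trans ?_ h8
    apply mul_le_mul_of_nonneg_right _ hSb0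
    apply div_le_div_of_nonneg_right _ hL0.le
    linarith
  rw [div_mul_eq_mul_div, div_le_iff₀ hL0] at h9
  rw [← hL]
  linarith

/-- blocks cover all zeros -/
theorem assemble (ε : ℝ) (hε : 0 < ε) : ∃ ε' : ℝ, 0 < ε' ∧ ∀ g : ℕ → ℂ, (∀ n, ‖g n‖ ≤ 1) →
    (∀ᶠ T : ℝ in atTop, ∀ A B' : ℝ, T + 1 ≤ A → A + 1 ≤ B' → B' ≤ 2 * T →
      ‖∑ n ∈ Finset.Ioc (NZ A) (NZ B'), g n‖ ≤ ε' * (T * Real.log T)) →
    ∀ᶠ N : ℕ in atTop, ‖∑ n ∈ Finset.Icc 1 N, g n‖ ≤ ε * N := by
  obtain ⟨C2, hC2, N1, hN1, hNx⟩ := Pool.Agent.R320.VQ.N_x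
  obtain ⟨C3, T3, hC3, hT3, hup⟩ := LG.GapAux.NZ_up
  obtain ⟨C4, hC4, hunit⟩ := Pool.Agent.Y743.NC.unit_count
  obtain ⟨K, hK⟩ : ∃ K : ℕ, (2 / 3 : ℝ) ^ K < ε / (4 * (C3 * C2)) :=
    exists_pow_lt_of_lt_one (by positivity) (by norm_num)
  obtain ⟨ρ, hρ⟩ : ∃ ρ : ℝ, ρ = (2 / 3 : ℝ) ^ K := ⟨_, rfl⟩
  rw [← hρ] at hK
  have hρ0 : 0 < ρ := by rw [hρ]; positivity
  have hρ1 : ρ ≤ 1 := by rw [hρ]; exact pow_le_one₀ (by norm_num) (by norm_num)
  obtain ⟨ε', hε'⟩ : ∃ ε' : ℝ, ε' = ε / (4 * (K + 1) * C2) := ⟨_, rfl⟩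
  have hε'0 : 0 < ε' := by rw [hε']; positivity
  refine ⟨ε', hε'0, fun g hgn hblock => ?_⟩
  obtain ⟨TB, hTB⟩ := eventually_atTop.1 hblock
  have ev2 : ∀ᶠ y : ℝ in atTop, Real.log y + 20 ≤ y / 15 ∧ 2 * T3 ≤ y ∧ 3 ≤ y ∧ TB ≤ 3 / 5 * y := by
    have h2 := Real.isLittleO_log_id_atTop.bound (c := 1 / 30) (by positivity)
    filter_upwards [h2, eventually_ge_atTop 600, eventually_ge_atTop (2 * T3), eventually_ge_atTop (5 / 3 * TB)] with x hx hx1 hx2 hx3
    rw [id, Real.norm_of_nonneg (Real.log_nonneg (by linarith)), Real.norm_of_nonneg (by linarith)] at hx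
    exact ⟨by linarith, hx2, by linarith, by linarith⟩
  obtain ⟨y0, hy0⟩ := ev2.exists_forall_of_atTop
  have ev3 : ∀ᶠ x : ℝ in atTop, y0 ≤ ρ * x := by
    filter_upwards [eventually_ge_atTop (y0 / ρ)] with x hx
    rw [div_le_iff₀ hρ0] at hx
    linarith
  have ev4 : ∀ᶠ x : ℝ in atTop, C4 * Real.log x ≤ ε / (4 * C2) * (x * Real.log x) := by
    filter_upwards [eventually_ge_atTop (max 1 (C4 / (ε / (4 * C2))))] with x hx
    have hx1 : 1 ≤ x := (le_max_left _ _).trans hx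
    have hx2 : C4 / (ε / (4 * C2)) ≤ x := (le_max_right _ _).trans hx
    rw [div_le_iff₀ (by positivity)] at hx2
    have hl := Real.log_nonneg hx1
    calc C4 * Real.log x ≤ (x * (ε / (4 * C2))) * Real.log x := mul_le_mul_of_nonneg_right hx2 hl
      _ = _ := by ring
  have ev := SG.ord_tendsto.eventually (ev3.and (ev4.and (eventually_ge_atTop 10)))
  filter_upwards [ev, eventually_ge_atTop N1, eventually_ge_atTop 1] with N hN hNN1 hN1'
  have hNr : (1 : ℝ) ≤ N := by exact_mod_cast hN1'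
  have hNx1 := hNx N hNN1
  obtain ⟨hxN, hNx'⟩ := hNx1
  obtain ⟨g2, ⟨g3, g4⟩⟩ := hN
  obtain ⟨x, hx⟩ : ∃ x : ℝ, x = ord N := ⟨_, rfl⟩
  rw [← hx] at hxN hNx' g2 g3 g4
  have hcard : ∀ S : Finset ℕ, ‖∑ n ∈ S, g n‖ ≤ S.card := by
    intro S
    refine (norm_sum_le _ _).trans ((Finset.sum_le_sum fun n _ => hgn n).trans (le_of_eq ?_))
    rw [Finset.sum_const, nsmul_eq_mul, mul_one]
  have hlx : 0 < Real.log x := Real.log_pos (by linarith)
  have hx0 : 0 < x := by linarith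
  -- the index range
  have hNZ : N ≤ NZ x := by rw [hx]; exact SG.le_NZ_ord hN1'
  have e1 : ∑ n ∈ Finset.Icc 1 N, g n = ∑ n ∈ Finset.Icc 1 (NZ x), g n - ∑ n ∈ Finset.Ioc N (NZ x), g n := by
    have e2 : Finset.Icc 1 (NZ x) = Finset.Icc 1 N ∪ Finset.Ioc N (NZ x) := by
      ext n
      simp only [Finset.mem_union, Finset.mem_Icc, Finset.mem_Ioc]
      omega
    rw [e2, Finset.sum_union, add_sub_cancel_right]
    rw [Finset.disjoint_left]
    intro n h4 h5
    rw [Finset.mem_Icc] at h4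
    rw [Finset.mem_Ioc] at h5
    omega
  have hend : ‖∑ n ∈ Finset.Ioc N (NZ x), g n‖ ≤ ε / 4 * N := by
    refine (hcard _).trans ?_
    rw [Nat.card_Ioc]
    have a1 : NZ (x - 1) < N := by
      by_contra hcon
      push Not at hcon
      have := (SG.ord_le_iff hN1' _).mpr hcon
      linarith
    have a2 := hunit (x - 1) (by linarith)
    rw [sub_add_cancel] at a2
    have a3 : ((NZ x - N : ℕ) : ℝ) ≤ C4 * Real.log x := by
      rw [Nat.cast_sub hNZ]
      have a4 : (NZ (x - 1) : ℝ) ≤ N := by exact_mod_cast a1.le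
      have a5 : Real.log (x - 1) ≤ Real.log x := Real.log_le_log (by linarith) (by linarith)
      have a6 : C4 * Real.log (x - 1) ≤ C4 * Real.log x := mul_le_mul_of_nonneg_left a5 hC4.le
      linarith
    calc ((NZ x - N : ℕ) : ℝ) ≤ C4 * Real.log x := a3
      _ ≤ ε / (4 * C2) * (x * Real.log x) := g3
      _ ≤ ε / (4 * C2) * (C2 * N) := by gcongr
      _ = _ := by field_simp
  -- the low part
  have hρx := hy0 (ρ * x) g2
  have hlow : ‖∑ n ∈ Finset.Icc 1 (NZ (ρ * x)), g n‖ ≤ ε / 4 * N := by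
    refine (hcard _).trans ?_
    rw [Nat.card_Icc, Nat.add_sub_cancel]
    have a1 := hup (ρ * x / 2) (by linarith [hρx.2.1])
    have e2 : 2 * (ρ * x / 2) = ρ * x := by ring
    rw [e2] at a1
    have a2 : ρ * x / 2 * Real.log (ρ * x / 2) ≤ ρ * (x * Real.log x) := by
      have b1 : Real.log (ρ * x / 2) ≤ Real.log x := Real.log_le_log (by positivity) (by nlinarith)
      calc ρ * x / 2 * Real.log (ρ * x / 2) ≤ ρ * x / 2 * Real.log x := by gcongr
        _ ≤ ρ * x * Real.log x := by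
          apply mul_le_mul_of_nonneg_right _ hlx.le
          have : 0 < ρ * x := by positivity
          linarith
        _ = _ := by ring
    calc (NZ (ρ * x) : ℝ) ≤ C3 * (ρ * (x * Real.log x)) := by
          refine a1.trans ?_
          exact mul_le_mul_of_nonneg_left a2 hC3.le
      _ ≤ C3 * (ρ * (C2 * N)) := by gcongr
      _ = (C3 * C2) * ρ * N := by ring
      _ ≤ (C3 * C2) * (ε / (4 * (C3 * C2))) * N := by gcongr
      _ = _ := by field_simp
  -- the blocks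
  have hblk : ∀ j ∈ Finset.range K, ‖∑ n ∈ Finset.Ioc (NZ (2 / 3 * ((2 / 3) ^ j * x)))
      (NZ ((2 / 3) ^ j * x)), g n‖ ≤ ε' * (x * Real.log x) := by
    intro j hj
    rw [Finset.mem_range] at hj
    obtain ⟨y, hy⟩ : ∃ y : ℝ, y = (2 / 3) ^ j * x := ⟨_, rfl⟩
    rw [← hy]
    have hρy : ρ * x ≤ y := by
      rw [hy, hρ]
      apply mul_le_mul_of_nonneg_right _ hx0.le
      exact pow_le_pow_of_le_one (by norm_num) (by norm_num) hj.le
    have hyx : y ≤ x := by
      rw [hy]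
      have : (2 / 3 : ℝ) ^ j ≤ 1 := pow_le_one₀ (by norm_num) (by norm_num)
      nlinarith
    obtain ⟨k1, k2, k3, k4⟩ := hy0 y (g2.trans hρy)
    have hly : 0 ≤ Real.log y := Real.log_nonneg (by linarith)
    have hT1 : 1 ≤ 3 / 5 * y := by linarith
    have hlogT : Real.log (3 / 5 * y) ≤ Real.log y := Real.log_le_log (by linarith) (by linarith)
    have h4 := hTB (3 / 5 * y) k4 (2 / 3 * y) y (by linarith) (by linarith) (by linarith)
    refine h4.trans ?_
    have h5 : 3 / 5 * y * Real.log (3 / 5 * y) ≤ x * Real.log x := by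
      apply mul_le_mul (by linarith) (hlogT.trans (Real.log_le_log (by linarith) hyx))
        (Real.log_nonneg hT1) hx0.le
    gcongr
  have hblks : ‖∑ k ∈ Finset.range K, ∑ n ∈ Finset.Ioc (NZ (2 / 3 * ((2 / 3) ^ k * x)))
      (NZ ((2 / 3) ^ k * x)), g n‖ ≤ ε / 4 * N := by
    refine (norm_sum_le _ _).trans ((Finset.sum_le_sum hblk).trans ?_)
    rw [Finset.sum_const, Finset.card_range, nsmul_eq_mul, hε']
    have hKK : (K : ℝ) * (ε / (4 * (K + 1) * C2) * (x * Real.log x)) ≤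
        (K + 1) * (ε / (4 * (K + 1) * C2) * (C2 * N)) := by
      apply mul_le_mul (by linarith) _ (by positivity) (by positivity)
      gcongr
    refine hKK.trans (le_of_eq ?_)
    field_simp
  have e2 := split_sum g x hx0.le K
  rw [← hρ] at e2
  rw [e1, e2]
  refine (norm_sub_le _ _).trans ?_
  have h6 := norm_add_le (∑ n ∈ Finset.Icc 1 (NZ (ρ * x)), g n)
    (∑ k ∈ Finset.range K, ∑ n ∈ Finset.Ioc (NZ (2 / 3 * ((2 / 3) ^ k * x))) (NZ ((2 / 3) ^ k * x)), g n)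
  have h7 : 0 ≤ ε * N := by positivity
  linarith

open Classical in
/-- **almost all zeros are good** -/
theorem maxdev (hRH : RHs) (ε : ℝ) (hε : 0 < ε) (η : ℝ) (hη : 0 < η) : ∀ᶠ R : ℕ in atTop, ∀ᶠ N : ℕ in atTop,
    (((Finset.Icc 1 N).filter fun n => ¬ GoodZ R ε n).card : ℝ) ≤ η * N := by
  obtain ⟨η', hη', has⟩ := assemble η hη
  filter_upwards [blkB hRH ε hε η' hη'] with R hR
  filter_upwards [has (fun n => if GoodZ R ε n then (0 : ℂ) else 1) (fun n => by split_ifs <;> simp) hR] with N hN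
  refine le_trans (le_of_eq ?_) hN
  have e : ∑ n ∈ Finset.Icc 1 N, (if GoodZ R ε n then (0 : ℂ) else 1) =
      ((((Finset.Icc 1 N).filter fun n => ¬ GoodZ R ε n).card : ℝ) : ℂ) := by
    rw [Finset.card_filter]
    push_cast
    refine Finset.sum_congr rfl fun n _ => ?_
    by_cases h : GoodZ R ε n
    · simp [h]
    · simp [h]
  rw [e, Complex.norm_real, Real.norm_of_nonneg (Nat.cast_nonneg _)]

end

end Pool.Agent.U403.Max
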