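import Pool.Agent.U403.Max.Low

/-! # Uniform upper bounds for the prime field -/

set_option autoImplicit false

open Filter Topology MeasureTheory Set
open Pool.Agent.Y743.CL
open Pool.Agent.R320.JL

namespace Pool.Agent.U403.Max

noncomputable section

lemma fact_le (k : ℕ) (hk : 1 ≤ k) : (k.factorial : ℝ) ≤ Real.exp 1 * k * (k / Real.exp 1) ^ k := by
  induction k, hk using Nat.le_induction with
  | base => simp
  | succ k hk ih =>
    have hk0 : (0 : ℝ) < k := by exact_mod_cast hk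
    have he := Real.exp_pos 1
    have h1 : (k : ℝ) ^ (k + 1) * Real.exp 1 ≤ ((k : ℝ) + 1) ^ (k + 1) := by
      have h2 := Real.add_one_le_exp (-(1 / ((k : ℝ) + 1)))
      have h3 : -(1 / ((k : ℝ) + 1)) + 1 = k / (k + 1) := by field_simp; ring
      rw [h3] at h2
      have h4 := pow_le_pow_left₀ (by positivity) h2 (k + 1)
      rw [← Real.exp_nat_mul] at h4
      have h5 : ((k + 1 : ℕ) : ℝ) * -(1 / ((k : ℝ) + 1)) = -1 := by push_cast; field_simp
      rw [h5, div_pow, Real.exp_neg, div_le_iff₀ (by positivity), inv_mul_eq_div, le_div_iff₀ he] at h4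
      exact h4
    rw [Nat.factorial_succ]
    push_cast
    calc ((k : ℝ) + 1) * (k.factorial : ℝ) ≤ ((k : ℝ) + 1) * (Real.exp 1 * k * (k / Real.exp 1) ^ k) :=
          mul_le_mul_of_nonneg_left ih (by positivity)
      _ = ((k : ℝ) + 1) * (k ^ (k + 1) * Real.exp 1) / Real.exp 1 ^ k := by
          rw [div_pow, pow_succ]; field_simp
      _ ≤ ((k : ℝ) + 1) * ((k : ℝ) + 1) ^ (k + 1) / Real.exp 1 ^ k := by gcongr
      _ = _ := by rw [div_pow, pow_succ (Real.exp 1)]; field_simp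

lemma fact_ratio {k : ℕ} {V y ρ : ℝ} (hV : 0 ≤ V) (hy : 0 < y) (h : k * V ≤ ρ * y ^ 2) :
    (k.factorial : ℝ) * V ^ k / y ^ (2 * k) ≤ ρ ^ k := by
  rw [div_le_iff₀ (by positivity), pow_mul, ← mul_pow]
  calc (k.factorial : ℝ) * V ^ k ≤ (k : ℝ) ^ k * V ^ k := by
        apply mul_le_mul_of_nonneg_right _ (by positivity)
        exact_mod_cast Nat.factorial_le_pow k
    _ = (k * V) ^ k := by rw [mul_pow]
    _ ≤ _ := pow_le_pow_left₀ (by positivity) h k

lemma fact_ratio2 {k : ℕ} (hk : 1 ≤ k) {V y ρ : ℝ} (hV : 0 ≤ V) (hy : 0 < y) (h : k * V ≤ ρ * y ^ 2) :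
    (k.factorial : ℝ) * V ^ k / y ^ (2 * k) ≤ Real.exp 1 * k * (ρ / Real.exp 1) ^ k := by
  have he := Real.exp_pos 1
  rw [div_le_iff₀ (by positivity), pow_mul]
  calc (k.factorial : ℝ) * V ^ k ≤ (Real.exp 1 * k * (k / Real.exp 1) ^ k) * V ^ k :=
        mul_le_mul_of_nonneg_right (fact_le k hk) (by positivity)
    _ = Real.exp 1 * k * ((k * V) ^ k / Real.exp 1 ^ k) := by rw [div_pow, mul_pow]; ring
    _ ≤ Real.exp 1 * k * ((ρ * y ^ 2) ^ k / Real.exp 1 ^ k) := by
        have := pow_le_pow_left₀ (by positivity) h k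
        gcongr
    _ = _ := by rw [div_pow, mul_pow]; ring

/-- the uniform tail -/
lemma unif_tail (l : ℝ) {I : Finset ℕ} {X : ℕ} (hI : I ⊆ Pr X) (hX : 1 ≤ X) (T L V v : ℝ) (hT : 1 ≤ T) (k n : ℕ)
    (hXT : ((X ^ (k + k) : ℕ) : ℝ) ≤ Real.sqrt T) (hV : ∑ p ∈ I, be l p ^ 2 ≤ V) (hv : 0 < v) :
    (PT T).real {t | ∃ b < n, v ≤ |fld l I (t + 2 * Real.pi * b / L)|} ≤ n * (17 * (k.factorial * V ^ k / v ^ (2 * k))) := by
  have h1 : {t | ∃ b < n, v ≤ |fld l I (t + 2 * Real.pi * b / L)|} =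
      ⋃ b ∈ Finset.range n, {t | v ≤ |fld l I (t + 2 * Real.pi * b / L)|} := by
    ext t
    simp
  rw [h1]
  refine (measureReal_biUnion_finset_le _ _).trans ?_
  refine (Finset.sum_le_sum fun (b : ℕ) _ => fld_tail l hI hX T (2 * Real.pi * b / L) V v hT k hXT hV hv).trans ?_
  rw [Finset.sum_const, Finset.card_range, nsmul_eq_mul]
  apply le_of_eq
  ring

/-- the variances -/
lemma sum_be : ∃ C : ℝ, 0 ≤ C ∧ ∀ u v : ℝ, v ≤ u → ∀ᶠ T : ℝ in atTop, ∀ l : ℝ, 0 < l →
    ∑ p ∈ PI T u v, be l p ^ 2 ≤ (u - v + C) / Real.pi ^ 2 := by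
  obtain ⟨C, hC, h⟩ := sum_inv
  refine ⟨C, hC, fun u v huv => ?_⟩
  filter_upwards [h u v huv] with T hT l hl
  have hpi := Real.pi_pos
  have h1 : ∀ p ∈ PI T u v, be l p ^ 2 ≤ 1 / Real.pi ^ 2 * (1 / p) := by
    intro p hp
    unfold PI at hp
    rw [Finset.mem_filter] at hp
    obtain ⟨w, w0, w1, w2, -⟩ := be_prime hl hp.2
    have hp0 : (0 : ℝ) < p := by exact_mod_cast hp.2.pos
    rw [w2, one_div_mul_one_div]
    have h6 : 0 ≤ 1 / (Real.pi ^ 2 * p) := by positivity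
    have : w ^ 2 ≤ 1 := pow_le_one₀ w0 w1
    nlinarith only [this, h6]
  refine (Finset.sum_le_sum h1).trans ?_
  rw [← Finset.mul_sum, one_div_mul_eq_div]
  apply div_le_div_of_nonneg_right _ (by positivity)
  linarith [(abs_le.1 hT).2]

/-- numerical conditions for the tails -/
lemma numU (κ ε C1 : ℝ) (K : ℕ) (hκ : 0 < κ) (hε : 0 < ε) (hK : 2 / ε ^ 2 ≤ K) (hC : 0 ≤ C1) {η : ℝ} (hη : 0 < η) :
    ∀ᶠ q : ℝ in atTop, 1 ≤ q ∧ Real.log (4 * q) ≤ q / K ∧
    (∀ V : ℝ, 0 ≤ V → V ≤ (q + C1) / Real.pi ^ 2 →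
      4 * Real.exp q * (17 * ((⌊q⌋₊.factorial : ℝ) * V ^ ⌊q⌋₊ / ((1 / Real.pi + ε) * q) ^ (2 * ⌊q⌋₊))) ≤ η) ∧
    (∀ V : ℝ, 0 ≤ V → V ≤ (q / K + C1) / Real.pi ^ 2 →
      4 * Real.exp q * (17 * ((⌊q⌋₊.factorial : ℝ) * V ^ ⌊q⌋₊ / (ε * q) ^ (2 * ⌊q⌋₊))) ≤ η) ∧
    (∀ V : ℝ, 0 ≤ V → V ≤ 70 →
      4 * Real.exp q * (17 * ((⌊q⌋₊.factorial : ℝ) * V ^ ⌊q⌋₊ / (ε * q) ^ (2 * ⌊q⌋₊))) ≤ η) ∧
    (∀ V : ℝ, 0 ≤ V → V ≤ (Real.log (4 / κ) + C1) / Real.pi ^ 2 →
      4 * Real.exp q * (17 * ((⌊κ * q / 4⌋₊.factorial : ℝ) * V ^ ⌊κ * q / 4⌋₊ / (ε * q) ^ (2 * ⌊κ * q / 4⌋₊))) ≤ η) ∧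
    (∀ V : ℝ, 0 ≤ V → V ≤ (q + C1) / Real.pi ^ 2 → 17 * (((1 : ℕ).factorial : ℝ) * V ^ 1 / (ε * q) ^ (2 * 1)) ≤ η) := by
  have hpi := Real.pi_pos
  have hpi3 := Real.pi_gt_three
  have hpi9 : 9 ≤ Real.pi ^ 2 := by nlinarith only [hpi3]
  have hK0 : (0 : ℝ) < K := lt_of_lt_of_le (by positivity) hK
  have he1 : 0 < Real.log (1 + ε) := Real.log_pos (by linarith)
  have t0 : ∀ᶠ q : ℝ in atTop, Real.log (4 * q) ≤ q / K := by
    have h1 : (fun q : ℝ => Real.log q) =o[atTop] fun q : ℝ => q := Real.isLittleO_log_id_atTop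
    have h2 : Tendsto (fun q : ℝ => 4 * q) atTop atTop := tendsto_id.const_mul_atTop (by norm_num)
    have h3 := (h1.bound (c := 1 / (4 * K)) (by positivity))
    have h4 := h2.eventually h3
    filter_upwards [h4, eventually_ge_atTop 1] with q hq hq1
    rw [Real.norm_of_nonneg (Real.log_nonneg (by linarith)), Real.norm_of_nonneg (by linarith)] at hq
    refine hq.trans (le_of_eq ?_)
    field_simp
  have t1 := ev_pow (Real.log (1 + ε)) 0 he1 1 (68 * Real.exp 1 * Real.exp 1 * (1 + ε)) hη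
  have t2 := ev_pow 1 0 (by norm_num) 0 (68 * 9) hη
  have t3 := ev_pow 2 0 (by norm_num) 0 (68 * Real.exp (12 / κ)) hη
  have c1 : ∀ᶠ q : ℝ in atTop, C1 / ε + C1 ≤ q := eventually_ge_atTop _
  have c2 : ∀ᶠ q : ℝ in atTop, 2 * C1 / ε ^ 2 ≤ q := eventually_ge_atTop _
  have c3 : ∀ᶠ q : ℝ in atTop, 630 / ε ^ 2 ≤ q := eventually_ge_atTop _
  have c4 : ∀ᶠ q : ℝ in atTop, κ * ((Real.log (4 / κ) + C1) / Real.pi ^ 2) / (4 * ε ^ 2) * Real.exp (12 / κ) ≤ q :=
    eventually_ge_atTop _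
  have c5 : ∀ᶠ q : ℝ in atTop, 17 * (1 + C1) / (η * ε ^ 2) ≤ q := eventually_ge_atTop _
  filter_upwards [t0, t1, t2, t3, c1, c2, c3, c4, c5, eventually_ge_atTop 1] with q q0 q1 q2 q3 d1 d2 d3 d4 d5 hq1
  simp only [add_zero, pow_one, pow_zero, one_mul] at q1 q2 q3
  have hq0 : 0 < q := by linarith
  obtain ⟨k, hk⟩ : ∃ k : ℕ, k = ⌊q⌋₊ := ⟨_, rfl⟩
  have hk1 : 1 ≤ k := by rw [hk]; exact Nat.le_floor (by rw [Nat.cast_one]; exact hq1)
  have hkq : (k : ℝ) ≤ q := by rw [hk]; exact Nat.floor_le hq0.le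
  have hkq1 : q - 1 ≤ k := by
    have := Nat.lt_floor_add_one q
    rw [← hk] at this
    linarith
  rw [← hk]
  have h19 : 4 * Real.exp q * (17 * (1 / 9 : ℝ) ^ k) ≤ η := by
    refine le_trans ?_ q2
    have h1 : (1 / 9 : ℝ) ≤ Real.exp (-2) := by
      rw [Real.exp_neg, ← one_div]
      apply one_div_le_one_div_of_le (Real.exp_pos _)
      have : Real.exp 2 = Real.exp 1 ^ 2 := by rw [← Real.exp_nat_mul]; norm_num
      rw [this]
      have h2 := Real.exp_one_lt_d9
      have h3 := Real.exp_pos 1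
      nlinarith only [h2, h3]
    have h2 : (1 / 9 : ℝ) ^ k ≤ Real.exp (2 - 2 * q) := by
      refine (pow_le_pow_left₀ (by norm_num) h1 k).trans ?_
      rw [← Real.exp_nat_mul]
      apply Real.exp_le_exp.2
      linarith only [hkq1]
    have h3 : Real.exp 2 ≤ 9 := by
      have : Real.exp 2 = Real.exp 1 ^ 2 := by rw [← Real.exp_nat_mul]; norm_num
      rw [this]
      have h2 := Real.exp_one_lt_d9
      have h3 := Real.exp_pos 1
      nlinarith only [h2, h3]
    calc 4 * Real.exp q * (17 * (1 / 9 : ℝ) ^ k) ≤ 4 * Real.exp q * (17 * Real.exp (2 - 2 * q)) := by gcongr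
      _ = 68 * Real.exp 2 * Real.exp (-q) := by
          have : Real.exp (2 - 2 * q) = Real.exp 2 * Real.exp (-q) * Real.exp (-q) := by
            rw [← Real.exp_add, ← Real.exp_add]; congr 1; ring
          rw [this]
          have h5 : Real.exp q * Real.exp (-q) = 1 := by rw [← Real.exp_add]; simp
          linear_combination (68 * Real.exp 2 * Real.exp (-q)) * h5
      _ ≤ 68 * 9 * Real.exp (-q) := by gcongr
  refine ⟨hq1, q0, ?_, ?_, ?_, ?_, ?_⟩
  · intro V hV0 hV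
    have h1 : (k : ℝ) * V ≤ 1 / (1 + ε) * ((1 / Real.pi + ε) * q) ^ 2 := by
      have h2 : (k : ℝ) * V ≤ q * ((q + C1) / Real.pi ^ 2) := mul_le_mul hkq hV hV0 hq0.le
      refine h2.trans ?_
      have e : 1 / (1 + ε) * ((1 / Real.pi + ε) * q) ^ 2 = ((1 + Real.pi * ε) ^ 2 / (1 + ε)) * (q * q) / Real.pi ^ 2 := by
        field_simp
      rw [e, mul_div_assoc']
      apply div_le_div_of_nonneg_right _ (by positivity)
      have h3 : 1 + ε ≤ (1 + Real.pi * ε) ^ 2 / (1 + ε) := by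
        rw [le_div_iff₀ (by positivity)]
        have : 1 + ε ≤ 1 + Real.pi * ε := by nlinarith only [hε, hpi3]
        nlinarith only [this, hε]
      have h4 : (1 + ε) * (q * q) ≤ ((1 + Real.pi * ε) ^ 2 / (1 + ε)) * (q * q) :=
        mul_le_mul_of_nonneg_right h3 (by positivity)
      refine le_trans ?_ h4
      have h5 : C1 ≤ ε * q := by
        have : C1 / ε ≤ q := by linarith only [d1, hC]
        rw [div_le_iff₀ hε] at this
        linarith only [this]
      nlinarith only [h5, hq0]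
    have h2 := fact_ratio2 hk1 hV0 (by positivity : 0 < (1 / Real.pi + ε) * q) h1
    refine le_trans (mul_le_mul_of_nonneg_left (mul_le_mul_of_nonneg_left h2 (by norm_num)) (by positivity)) ?_
    refine le_trans ?_ q1
    have h3 : (1 / (1 + ε) / Real.exp 1) ^ k ≤ Real.exp ((1 + Real.log (1 + ε)) * (1 - q)) := by
      have e : 1 / (1 + ε) / Real.exp 1 = Real.exp (-(1 + Real.log (1 + ε))) := by
        rw [Real.exp_neg, Real.exp_add, Real.exp_log (by positivity)]
        field_simp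
      rw [e, ← Real.exp_nat_mul]
      apply Real.exp_le_exp.2
      have := mul_le_mul_of_nonneg_right hkq1 (by linarith only [he1] : 0 ≤ 1 + Real.log (1 + ε))
      linarith only [this]
    calc 4 * Real.exp q * (17 * (Real.exp 1 * k * (1 / (1 + ε) / Real.exp 1) ^ k)) ≤
        4 * Real.exp q * (17 * (Real.exp 1 * q * Real.exp ((1 + Real.log (1 + ε)) * (1 - q)))) := by gcongr
      _ = 68 * Real.exp 1 * Real.exp 1 * (1 + ε) * (q * Real.exp (-(Real.log (1 + ε) * q))) := by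
        have : Real.exp ((1 + Real.log (1 + ε)) * (1 - q)) = Real.exp 1 * (1 + ε) * Real.exp (-q) *
            Real.exp (-(Real.log (1 + ε) * q)) := by
          nth_rewrite 2 [← Real.exp_log (by positivity : (0 : ℝ) < 1 + ε)]
          rw [← Real.exp_add, ← Real.exp_add, ← Real.exp_add]; congr 1; ring
        rw [this]
        have h5 : Real.exp q * Real.exp (-q) = 1 := by rw [← Real.exp_add]; simp
        linear_combination (68 * Real.exp 1 * Real.exp 1 * (1 + ε) * (q * Real.exp (-(Real.log (1 + ε) * q)))) * h5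
  · intro V hV0 hV
    have h1 : (k : ℝ) * V ≤ 1 / 9 * (ε * q) ^ 2 := by
      have h2 : (k : ℝ) * V ≤ q * ((q / K + C1) / Real.pi ^ 2) := mul_le_mul hkq hV hV0 hq0.le
      refine h2.trans ?_
      have h3 : q / K + C1 ≤ ε ^ 2 * q := by
        have h4 : q / K ≤ ε ^ 2 * q / 2 := by
          rw [div_le_iff₀ hK0]
          rw [div_le_iff₀ (by positivity)] at hK
          nlinarith only [hK, hq0]
        have h5 : C1 ≤ ε ^ 2 * q / 2 := by
          rw [div_le_iff₀ (by positivity)] at d2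
          linarith only [d2]
        linarith only [h4, h5]
      have h6 : (q / K + C1) / Real.pi ^ 2 ≤ ε ^ 2 * q / 9 := by
        apply div_le_div₀ (by positivity) h3 (by norm_num) hpi9
      have := mul_le_mul_of_nonneg_left h6 hq0.le
      linarith only [this]
    have h2 := fact_ratio hV0 (by positivity : 0 < ε * q) h1
    refine le_trans ?_ h19
    gcongr
  · intro V hV0 hV
    have h1 : (k : ℝ) * V ≤ 1 / 9 * (ε * q) ^ 2 := by
      have h2 : (k : ℝ) * V ≤ q * 70 := mul_le_mul hkq hV hV0 hq0.le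
      refine h2.trans ?_
      rw [div_le_iff₀ (by positivity)] at d3
      nlinarith only [d3, hq0]
    have h2 := fact_ratio hV0 (by positivity : 0 < ε * q) h1
    refine le_trans ?_ h19
    gcongr
  · intro V hV0 hV
    obtain ⟨m, hm⟩ : ∃ m : ℕ, m = ⌊κ * q / 4⌋₊ := ⟨_, rfl⟩
    rw [← hm]
    have hmq : (m : ℝ) ≤ κ * q / 4 := by rw [hm]; exact Nat.floor_le (by positivity)
    have hmq1 : κ * q / 4 - 1 ≤ m := by
      have := Nat.lt_floor_add_one (κ * q / 4)
      rw [← hm] at this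
      linarith
    have h1 : (m : ℝ) * V ≤ Real.exp (-(12 / κ)) * (ε * q) ^ 2 := by
      have h2 : (m : ℝ) * V ≤ κ * q / 4 * ((Real.log (4 / κ) + C1) / Real.pi ^ 2) :=
        mul_le_mul hmq hV hV0 (by positivity)
      refine h2.trans ?_
      have h3 : κ * ((Real.log (4 / κ) + C1) / Real.pi ^ 2) / (4 * ε ^ 2) ≤ Real.exp (-(12 / κ)) * q := by
        have h4 := mul_le_mul_of_nonneg_left d4 (Real.exp_pos (-(12 / κ))).le
        have h5 : Real.exp (-(12 / κ)) * Real.exp (12 / κ) = 1 := by rw [← Real.exp_add]; simp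
        calc κ * ((Real.log (4 / κ) + C1) / Real.pi ^ 2) / (4 * ε ^ 2) =
            Real.exp (-(12 / κ)) * (κ * ((Real.log (4 / κ) + C1) / Real.pi ^ 2) / (4 * ε ^ 2) * Real.exp (12 / κ)) := by
              linear_combination (-(κ * ((Real.log (4 / κ) + C1) / Real.pi ^ 2) / (4 * ε ^ 2))) * h5
          _ ≤ _ := h4
      rw [div_le_iff₀ (by positivity)] at h3
      have h6 := mul_le_mul_of_nonneg_left h3 (by positivity : 0 ≤ q / 4)
      nlinarith only [h6]
    have h2 := fact_ratio hV0 (by positivity : 0 < ε * q) h1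
    refine le_trans (mul_le_mul_of_nonneg_left (mul_le_mul_of_nonneg_left h2 (by norm_num)) (by positivity)) ?_
    refine le_trans ?_ q3
    have h3 : Real.exp (-(12 / κ)) ^ m ≤ Real.exp (12 / κ - 3 * q) := by
      rw [← Real.exp_nat_mul]
      apply Real.exp_le_exp.2
      have h4 := mul_le_mul_of_nonneg_right hmq1 (by positivity : 0 ≤ 12 / κ)
      have h5 : (κ * q / 4 - 1) * (12 / κ) = 3 * q - 12 / κ := by field_simp; ring
      rw [h5] at h4
      linarith only [h4]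
    calc 4 * Real.exp q * (17 * Real.exp (-(12 / κ)) ^ m) ≤ 4 * Real.exp q * (17 * Real.exp (12 / κ - 3 * q)) := by gcongr
      _ = 68 * Real.exp (12 / κ) * Real.exp (-(2 * q)) := by
        have : Real.exp (12 / κ - 3 * q) = Real.exp (12 / κ) * Real.exp (-(2 * q)) * Real.exp (-q) := by
          rw [← Real.exp_add, ← Real.exp_add]; congr 1; ring
        rw [this]
        have h5 : Real.exp q * Real.exp (-q) = 1 := by rw [← Real.exp_add]; simp
        linear_combination (68 * Real.exp (12 / κ) * Real.exp (-(2 * q))) * h5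
  · intro V hV0 hV
    rw [Nat.factorial_one, Nat.cast_one, one_mul, pow_one, mul_one, mul_div_assoc', div_le_iff₀ (by positivity)]
    rw [div_le_iff₀ (by positivity)] at d5
    have h1 : V ≤ (1 + C1) * q := by
      refine hV.trans ?_
      rw [div_le_iff₀ (by positivity)]
      have h2 : q + C1 ≤ (1 + C1) * q := by nlinarith only [hC, hq1]
      have h3 : (1 + C1) * q * 1 ≤ (1 + C1) * q * Real.pi ^ 2 :=
        mul_le_mul_of_nonneg_left (by linarith only [hpi9]) (by positivity)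
      linarith only [h2, h3]
    have h2 := mul_le_mul_of_nonneg_right d5 hq0.le
    nlinarith only [h1, h2]

/-- the coefficients of a difference -/
def zD (l h : ℝ) (p : ℕ) : ℂ := (be l p : ℂ) * ((p : ℂ) ^ (-(h : ℂ) * Complex.I) - 1)

lemma zD_PP (l h : ℝ) (X : ℕ) (t : ℝ) : fld l (Pr X) (t + h) - fld l (Pr X) t = (PP (zD l h) X t).im := by
  unfold fld PP zD
  rw [Complex.im_sum, neg_sub_neg, ← Finset.sum_sub_distrib]
  refine Finset.sum_congr rfl fun p hp => ?_
  have hp' := mem_Pr.1 hp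
  rw [mul_assoc, sub_mul, one_mul, cpow_mul_add hp'.1.ne_zero, cpow_re_im hp'.1.ne_zero, cpow_re_im hp'.1.ne_zero,
    Complex.im_ofReal_mul, Complex.sub_im, Complex.sub_im, Complex.sub_im, Complex.ofReal_im,
    Complex.mul_im, Complex.I_re, Complex.I_im, Complex.ofReal_re, Complex.ofReal_im, Complex.mul_im, Complex.I_re,
    Complex.I_im, Complex.ofReal_re, Complex.ofReal_im, Complex.ofReal_im]
  ring

lemma zD_VS {l h : ℝ} (hl : 0 < l) {X : ℕ} (hX : 1 ≤ X) :
    VS (nz (zD l h)) X ≤ h ^ 2 / Real.pi ^ 2 * (Real.log X * (Real.log X + 6)) := by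
  have hpi := Real.pi_pos
  unfold VS nz
  have hlX : 0 ≤ Real.log X := Real.log_nonneg (by exact_mod_cast hX)
  have h1 : ∀ p ∈ Pr X, ‖zD l h p‖ ^ 2 ≤ h ^ 2 / Real.pi ^ 2 * (Real.log X * (Real.log p / p)) := by
    intro p hp
    have hp' := mem_Pr.1 hp
    have hp0 : (0 : ℝ) < p := by exact_mod_cast hp'.1.pos
    have hlp : 0 ≤ Real.log p := Real.log_nonneg (by exact_mod_cast hp'.1.one_lt.le)
    obtain ⟨w, w0, w1, w2, -⟩ := be_prime hl hp'.1
    unfold zD
    rw [norm_mul, mul_pow, Complex.norm_real, Real.norm_eq_abs, sq_abs, cpow_ex hp'.1.ne_zero]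
    have h2 : ‖Complex.exp (-(Complex.I * ((h * Real.log p : ℝ) : ℂ))) - 1‖ ≤ |h * Real.log p| := by
      have := Real.norm_exp_I_mul_ofReal_sub_one_le (x := -(h * Real.log p))
      rw [Real.norm_eq_abs, abs_neg] at this
      refine le_trans (le_of_eq ?_) this
      congr 3
      push_cast
      ring
    have h3 : ‖Complex.exp (-(Complex.I * ((h * Real.log p : ℝ) : ℂ))) - 1‖ ^ 2 ≤ (h * Real.log p) ^ 2 := by
      rw [← sq_abs (h * Real.log p)]
      exact pow_le_pow_left₀ (norm_nonneg _) h2 2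
    have h4 : be l p ^ 2 ≤ 1 / (Real.pi ^ 2 * p) := by
      rw [w2]
      have h6 : 0 ≤ 1 / (Real.pi ^ 2 * p) := by positivity
      have : w ^ 2 ≤ 1 := pow_le_one₀ w0 w1
      nlinarith only [this, h6]
    calc _ ≤ 1 / (Real.pi ^ 2 * p) * (h * Real.log p) ^ 2 := mul_le_mul h4 h3 (sq_nonneg _) (by positivity)
      _ = h ^ 2 / Real.pi ^ 2 * (Real.log p * (Real.log p / p)) := by field_simp
      _ ≤ _ := by
        have : Real.log p ≤ Real.log X := Real.log_le_log hp0 (by exact_mod_cast hp'.2)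
        gcongr
  refine (Finset.sum_le_sum h1).trans ?_
  rw [← Finset.mul_sum, ← Finset.mul_sum]
  have h2 : ∑ p ∈ Pr X, Real.log p / p ≤ Real.log X + 6 := by
    have r2 := _root_.H370.nt_mertens_upper X hX
    have h3 : ∑ p ∈ Pr X, Real.log p / p ≤ ∑ n ∈ Finset.Icc 1 X, ArithmeticFunction.vonMangoldt n / (n : ℝ) := by
      have h4 : Pr X ⊆ Finset.Icc 1 X := by
        intro p hp
        have := mem_Pr.1 hp
        rw [Finset.mem_Icc]
        exact ⟨this.1.one_lt.le, this.2⟩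
      refine le_trans (Finset.sum_le_sum fun p hp => ?_) (Finset.sum_le_sum_of_subset_of_nonneg h4 fun n _ _ =>
        div_nonneg ArithmeticFunction.vonMangoldt_nonneg (Nat.cast_nonneg _))
      rw [ArithmeticFunction.vonMangoldt_apply_prime (mem_Pr.1 hp).1]
    linarith
  gcongr

/-- **uniform upper bounds** -/
theorem up (ε : ℝ) (hε : 0 < ε) (κ : ℝ) (hκ : 0 < κ) (hκ4 : κ ≤ 4) (K : ℕ) (hK3 : 3 ≤ K) (hK : 2 / ε ^ 2 ≤ K)
    (η : ℝ) (hη : 0 < η) : ∀ᶠ r : ℕ in atTop, ∀ᶠ T : ℝ in atTop,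
    (PT T).real {t | ∃ b < 4 * r, (1 / Real.pi + ε) * Real.log r ≤ |fld (Real.log T / (κ * Real.log r))
      (PI T (Real.log r) (Real.log (4 * Real.log r))) (t + 2 * Real.pi * b / Real.log T)|} ≤ η ∧
    (PT T).real {t | ∃ b < 4 * r, ε * Real.log r ≤ |fld (Real.log T / (κ * Real.log r))
      (PI T (Real.log r) (((K : ℝ) - 1) * Real.log r / K)) (t + 2 * Real.pi * b / Real.log T)|} ≤ η ∧
    (PT T).real {t | ∃ b < 4 * r, ε * Real.log r ≤ |fld (Real.log T / (κ * Real.log r))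
      (PI T (Real.log r / K) (Real.log (4 * Real.log r))) (t + 2 * Real.pi * b / Real.log T)|} ≤ η ∧
    (PT T).real {t | ∃ b < 4 * r, ε * Real.log r ≤ |fld (Real.log T / (κ * Real.log r))
      (PI T (Real.log (4 * Real.log r)) (Real.log (κ * Real.log r))) (t + 2 * Real.pi * b / Real.log T)|} ≤ η ∧
    (PT T).real {t | ∃ b < 4 * r, ε * Real.log r ≤ |fld (Real.log T / (κ * Real.log r))
      (Pr (XK (Real.exp (-Real.log r)) T)) (t + 2 * Real.pi * b / Real.log T) -
      fld (Real.log T / (κ * Real.log r)) (Pr (XK (Real.exp (-Real.log r)) T)) t|} ≤ η ∧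
    (PT T).real {t | ε * Real.log r ≤ |fld (Real.log T / (κ * Real.log r))
      (PI T (Real.log r) (Real.log (4 * Real.log r))) t|} ≤ η := by
  obtain ⟨C1, hC1, hsum⟩ := sum_be
  have hpi := Real.pi_pos
  have hpi3 := Real.pi_gt_three
  have hpi9 : 9 ≤ Real.pi ^ 2 := by nlinarith only [hpi3]
  have hK0 : (0 : ℝ) < K := by exact_mod_cast (by omega : 0 < K)
  have hK3' : (3 : ℝ) ≤ K := by exact_mod_cast hK3
  have hlogr : Tendsto (fun r : ℕ => Real.log (r : ℝ)) atTop atTop :=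
    Real.tendsto_log_atTop.comp tendsto_natCast_atTop_atTop
  filter_upwards [hlogr.eventually (numU κ ε C1 K hκ hε hK hC1 hη), eventually_ge_atTop 1] with r hn hr1
  have hr0 : (0 : ℝ) < r := by exact_mod_cast hr1
  obtain ⟨q, hq⟩ : ∃ q : ℝ, q = Real.log r := ⟨_, rfl⟩
  have hrq : (r : ℝ) = Real.exp q := by rw [hq, Real.exp_log hr0]
  rw [← hq] at hn ⊢
  obtain ⟨q1, q2, n1, n2, n3, n4, n5⟩ := hn
  have hq0 : 0 < q := by linarith
  obtain ⟨k, hk⟩ : ∃ k : ℕ, k = ⌊q⌋₊ := ⟨_, rfl⟩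
  have hkq : (k : ℝ) ≤ q := by rw [hk]; exact Nat.floor_le hq0.le
  rw [← hk] at n1 n2 n3
  obtain ⟨m, hm⟩ : ∃ m : ℕ, m = ⌊κ * q / 4⌋₊ := ⟨_, rfl⟩
  have hmq : (m : ℝ) ≤ κ * q / 4 := by rw [hm]; exact Nat.floor_le (by positivity)
  rw [← hm] at n4
  have hn4 : ((4 * r : ℕ) : ℝ) = 4 * Real.exp q := by push_cast; rw [hrq]
  have hqK : q / K ≤ q := div_le_self hq0.le (by linarith)
  have hqK2 : q / K ≤ ((K : ℝ) - 1) * q / K := by
    apply div_le_div_of_nonneg_right _ hK0.le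
    exact le_mul_of_one_le_left hq0.le (by linarith only [hK3'])
  have hqK3 : ((K : ℝ) - 1) * q / K ≤ q := by
    rw [div_le_iff₀ hK0]
    nlinarith only [hq0]
  have hlogκ : Real.log (κ * q) ≤ Real.log (4 * q) :=
    Real.log_le_log (by positivity) (mul_le_mul_of_nonneg_right hκ4 hq0.le)
  have hlogd : Real.log (4 * q) - Real.log (κ * q) = Real.log (4 / κ) := by
    rw [← Real.log_div (by positivity) (by positivity)]
    congr 1
    field_simp
  have hqb : q - ((K : ℝ) - 1) * q / K = q / K := by field_simp; ring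
  filter_upwards [hsum q (Real.log (4 * q)) (by linarith), hsum q (((K : ℝ) - 1) * q / K) hqK3,
    hsum (q / K) (Real.log (4 * q)) q2, hsum (Real.log (4 * q)) (Real.log (κ * q)) hlogκ,
    eventually_ge_atTop 3, XK_log (Real.exp_pos (-q)),
    Real.tendsto_log_atTop.eventually_ge_atTop (64 * Real.exp q)] with T s1 s2 s3 s4 hT3 hXl hL64
  have hT1 : 1 ≤ T := by linarith
  have hT0 : 0 < T := by linarith
  have := PT_univ hT0
  obtain ⟨L, hL⟩ : ∃ L : ℝ, L = Real.log T := ⟨_, rfl⟩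
  have hL0 : 0 < L := by rw [hL]; exact Real.log_pos (by linarith)
  rw [← hL] at hXl hL64 ⊢
  obtain ⟨l, hl⟩ : ∃ l : ℝ, l = L / (κ * q) := ⟨_, rfl⟩
  have hl0 : 0 < l := by rw [hl]; positivity
  rw [← hl]
  have hXK1 : ∀ a : ℝ, 0 < a → 1 ≤ XK a T := by
    intro a ha
    unfold XK
    apply Nat.le_floor
    rw [Nat.cast_one]
    exact Real.one_le_rpow hT1 ha.le
  have hP4 : ((XK (Real.exp (-Real.log (4 * q))) T ^ (k + k) : ℕ) : ℝ) ≤ Real.sqrt T := by
    apply XK_pow hT1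
    rw [Real.exp_neg, Real.exp_log (by positivity)]
    push_cast
    rw [inv_mul_eq_div, div_le_iff₀ (by positivity)]
    linarith only [hkq]
  have hPκ : ((XK (Real.exp (-Real.log (κ * q))) T ^ (m + m) : ℕ) : ℝ) ≤ Real.sqrt T := by
    apply XK_pow hT1
    rw [Real.exp_neg, Real.exp_log (by positivity)]
    push_cast
    rw [inv_mul_eq_div, div_le_iff₀ (by positivity)]
    linarith only [hmq]
  refine ⟨?_, ?_, ?_, ?_, ?_, ?_⟩
  · have hS := s1 l hl0
    have h0 : 0 ≤ ∑ p ∈ PI T q (Real.log (4 * q)), be l p ^ 2 := by positivity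
    refine (unif_tail l (PI_sub hT1 le_rfl) (hXK1 _ (Real.exp_pos _)) T L _ _ hT1 k _ hP4 le_rfl
      (by positivity)).trans ?_
    rw [hn4]
    apply n1 _ h0
    refine hS.trans ?_
    apply div_le_div_of_nonneg_right _ (by positivity)
    have : 0 ≤ Real.log (4 * q) := Real.log_nonneg (by linarith only [q1])
    linarith only [this]
  · have hS := s2 l hl0
    rw [hqb] at hS
    have h0 : 0 ≤ ∑ p ∈ PI T q (((K : ℝ) - 1) * q / K), be l p ^ 2 := by positivity
    refine (unif_tail l (PI_sub hT1 (w := Real.log (4 * q)) (by linarith)) (hXK1 _ (Real.exp_pos _)) T L _ _ hT1 k _ hP4 le_rfl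
      (by positivity)).trans ?_
    rw [hn4]
    exact n2 _ h0 hS
  · have hS := s3 l hl0
    have h0 : 0 ≤ ∑ p ∈ PI T (q / K) (Real.log (4 * q)), be l p ^ 2 := by positivity
    refine (unif_tail l (PI_sub hT1 le_rfl) (hXK1 _ (Real.exp_pos _)) T L _ _ hT1 k _ hP4 le_rfl
      (by positivity)).trans ?_
    rw [hn4]
    apply n2 _ h0
    refine hS.trans ?_
    apply div_le_div_of_nonneg_right _ (by positivity)
    have : 0 ≤ Real.log (4 * q) := Real.log_nonneg (by linarith only [q1])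
    linarith only [this]
  · have hS := s4 l hl0
    rw [hlogd] at hS
    have h0 : 0 ≤ ∑ p ∈ PI T (Real.log (4 * q)) (Real.log (κ * q)), be l p ^ 2 := by positivity
    refine (unif_tail l (PI_sub hT1 le_rfl) (hXK1 _ (Real.exp_pos _)) T L _ _ hT1 m _ hPκ le_rfl
      (by positivity)).trans ?_
    rw [hn4]
    exact n4 _ h0 hS
  · obtain ⟨X, hX⟩ : ∃ X : ℕ, X = XK (Real.exp (-q)) T := ⟨_, rfl⟩
    rw [← hX] at hXl ⊢
    have hX1 : 1 ≤ X := by rw [hX]; exact hXK1 _ (Real.exp_pos _)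
    have hXk : ((X ^ (k + k) : ℕ) : ℝ) ≤ Real.sqrt T := by
      refine le_trans ?_ hP4
      rw [hX]
      exact_mod_cast Nat.pow_le_pow_left (XK_mono hT1 (Real.exp_le_exp.2 (by linarith))) _
    have h1 : {t | ∃ b < 4 * r, ε * q ≤ |fld l (Pr X) (t + 2 * Real.pi * b / L) - fld l (Pr X) t|} ⊆
        ⋃ b ∈ Finset.range (4 * r), {t | ε * q ≤ ‖PP (zD l (2 * Real.pi * b / L)) X t‖} := by
      intro t ht
      obtain ⟨b, hb, h⟩ := ht
      simp only [Set.mem_iUnion, Finset.mem_range]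
      refine ⟨b, hb, ?_⟩
      rw [zD_PP] at h
      exact h.trans (Complex.abs_im_le_norm _)
    refine (measureReal_mono h1 (measure_ne_top _ _)).trans ?_
    refine (measureReal_biUnion_finset_le _ _).trans ?_
    have h2 : ∀ b ∈ Finset.range (4 * r), (PT T).real {t | ε * q ≤ ‖PP (zD l (2 * Real.pi * b / L)) X t‖} ≤
        17 * ((k.factorial : ℝ) * 70 ^ k / (ε * q) ^ (2 * k)) := by
      intro b hb
      rw [Finset.mem_range] at hb
      have hb' : (b : ℝ) ≤ 4 * Real.exp q := by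
        rw [← hn4]; exact_mod_cast hb.le
      obtain ⟨h, hh⟩ : ∃ h : ℝ, h = 2 * Real.pi * b / L := ⟨_, rfl⟩
      rw [← hh]
      have hh0 : 0 ≤ h := by rw [hh]; positivity
      have hV : VS (nz (zD l h)) X ≤ 70 := by
        refine (zD_VS hl0 hX1).trans ?_
        obtain ⟨y, hy⟩ : ∃ y : ℝ, y = Real.log X := ⟨_, rfl⟩
        have hy0 : 0 ≤ y := by rw [hy]; exact Real.log_nonneg (by exact_mod_cast hX1)
        have hyL : y ≤ Real.exp (-q) * L := by rw [hy]; exact hXl.2.1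
        rw [← hy]
        have h3 : h ≤ 8 * Real.pi * Real.exp q / L := by
          rw [hh]
          apply div_le_div_of_nonneg_right _ hL0.le
          nlinarith only [hb', hpi]
        have h4 : h * y ≤ 8 * Real.pi := by
          have h5 : h * y ≤ 8 * Real.pi * Real.exp q / L * (Real.exp (-q) * L) :=
            mul_le_mul h3 hyL hy0 (by positivity)
          refine h5.trans (le_of_eq ?_)
          have h6 : Real.exp q * Real.exp (-q) = 1 := by rw [← Real.exp_add]; simp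
          have h7 : 8 * Real.pi * Real.exp q / L * (Real.exp (-q) * L) =
              8 * Real.pi * (Real.exp q * Real.exp (-q)) * (L / L) := by ring
          rw [h7, h6, div_self hL0.ne']
          ring
        have h5 : h ≤ Real.pi / 8 := by
          refine h3.trans ?_
          rw [div_le_iff₀ hL0]
          nlinarith only [hL64, hpi]
        have e : h ^ 2 / Real.pi ^ 2 * (y * (y + 6)) = ((h * y) ^ 2 + 6 * (h * y) * h) / Real.pi ^ 2 := by ring
        rw [e, div_le_iff₀ (by positivity)]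
        have h6 : 0 ≤ h * y := by positivity
        have h7 : (h * y) ^ 2 ≤ (8 * Real.pi) ^ 2 := pow_le_pow_left₀ h6 h4 2
        have h8 : (h * y) * h ≤ (8 * Real.pi) * (Real.pi / 8) := mul_le_mul h4 h5 hh0 (by positivity)
        nlinarith only [h7, h8]
      have h3 := tail_vol (zD l h) X hX1 T T 70 (ε * q) hT1 k hXk hV (by positivity)
      have hm : MeasurableSet {t | ε * q ≤ ‖PP (zD l h) X t‖} :=
        measurableSet_le measurable_const (PP_cont _ _).norm.measurable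
      rw [PT_real hT0 hm, div_le_iff₀ hT0]
      have e : (2 : ℝ) * T = T + T := by ring
      rw [e]
      refine h3.trans (le_of_eq ?_)
      ring
    refine (Finset.sum_le_sum h2).trans ?_
    rw [Finset.sum_const, Finset.card_range, nsmul_eq_mul, hn4]
    exact n3 70 (by norm_num) le_rfl
  · have hS := s1 l hl0
    have h0 : 0 ≤ ∑ p ∈ PI T q (Real.log (4 * q)), be l p ^ 2 := by positivity
    have hX2 : ((XK (Real.exp (-Real.log (4 * q))) T ^ (1 + 1) : ℕ) : ℝ) ≤ Real.sqrt T := by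
      apply XK_pow hT1
      rw [Real.exp_neg, Real.exp_log (by positivity)]
      push_cast
      rw [inv_mul_eq_div, div_le_iff₀ (by positivity)]
      linarith only [q1]
    have h1 := fld_tail l (PI_sub hT1 (le_refl (Real.log (4 * q)))) (hXK1 _ (Real.exp_pos _)) T 0 _ (ε * q) hT1 1 hX2
      (le_refl (∑ p ∈ PI T q (Real.log (4 * q)), be l p ^ 2)) (by positivity)
    simp only [add_zero] at h1
    refine h1.trans ?_
    refine le_trans (le_of_eq ?_) (n5 _ h0 ?_)
    · ring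
    · refine hS.trans ?_
      apply div_le_div_of_nonneg_right _ (by positivity)
      have : 0 ≤ Real.log (4 * q) := Real.log_nonneg (by linarith only [q1])
      linarith only [this]

end

end Pool.Agent.U403.Max
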