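import Pool.Agent.U403.Max.Low
import Pool.Agent.U403.Max.Up
import Pool.Agent.U403.Max.Err2
import Pool.Agent.R320.JL.Inv

/-! # The maximal deviation of the counts of zeros -/

set_option autoImplicit false

namespace Pool.Agent.U403.Max

open Filter Topology MeasureTheory Set
open Pool.Agent.Y743.CL
open Pool.Agent.R320.JL (YY YY_meas varB)
open Pool.Agent.Y743.NC (dev dev_nonneg dev_int)
open SP (RHs)
open SG (NZ)

noncomputable section

lemma fld_split {T κ q l : ℝ} (hT : 1 ≤ T) (hκq : 0 < κ * q) (h1 : Real.log (κ * q) ≤ Real.log (4 * q))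
    (h2 : Real.log (4 * q) ≤ q) (s : ℝ) :
    fld l (Pr (XK (1 / (κ * q)) T)) s = fld l (Pr (XK (Real.exp (-q)) T)) s +
      fld l (PI T q (Real.log (4 * q))) s + fld l (PI T (Real.log (4 * q)) (Real.log (κ * q))) s := by
  have e1 : Real.exp (-Real.log (κ * q)) = 1 / (κ * q) := by
    rw [Real.exp_neg, Real.exp_log hκq, one_div]
  have e2 : Pr (XK (1 / (κ * q)) T) = Pr (XK (Real.exp (-q)) T) ∪ PI T q (Real.log (κ * q)) := by
    ext p
    rw [Finset.mem_union, mem_Pr, mem_Pr]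
    unfold PI
    rw [Finset.mem_filter, Finset.mem_Ioc, e1]
    have h3 : XK (Real.exp (-q)) T ≤ XK (1 / (κ * q)) T := by
      apply XK_mono hT
      rw [← e1]
      exact Real.exp_le_exp.2 (by linarith)
    constructor
    · rintro ⟨k1, k2⟩
      by_cases h : p ≤ XK (Real.exp (-q)) T
      · exact Or.inl ⟨k1, h⟩
      · exact Or.inr ⟨⟨by omega, k2⟩, k1⟩
    · rintro (⟨k1, k2⟩ | ⟨⟨k1, k2⟩, k3⟩)
      · exact ⟨k1, k2.trans h3⟩
      · exact ⟨k3, k2⟩
  have d1 : Disjoint (Pr (XK (Real.exp (-q)) T)) (PI T q (Real.log (κ * q))) := by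
    rw [Finset.disjoint_left]
    intro p hp hp2
    rw [mem_Pr] at hp
    unfold PI at hp2
    rw [Finset.mem_filter, Finset.mem_Ioc] at hp2
    omega
  rw [e2, fld_union d1, PI_union hT h2 h1, fld_union (PI_disj hT le_rfl)]
  ring

lemma fld_three {T q l : ℝ} {K : ℕ} (hT : 1 ≤ T) (hq : 0 ≤ q) (hK : 3 ≤ K) (h : Real.log (4 * q) ≤ q / K) (s : ℝ) :
    fld l (PI T q (Real.log (4 * q))) s = fld l (PI T q (((K : ℝ) - 1) * q / K)) s +
      fld l (PI T (((K : ℝ) - 1) * q / K) (q / K)) s + fld l (PI T (q / K) (Real.log (4 * q))) s := by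
  have hK0 : (0 : ℝ) < K := by exact_mod_cast (by omega : 0 < K)
  have hK3 : (3 : ℝ) ≤ K := by exact_mod_cast hK
  have h1 : q / K ≤ ((K : ℝ) - 1) * q / K := by
    apply div_le_div_of_nonneg_right _ hK0.le
    exact le_mul_of_one_le_left hq (by linarith)
  have h2 : ((K : ℝ) - 1) * q / K ≤ q := by
    rw [div_le_iff₀ hK0]
    nlinarith
  rw [PI_union hT h2 (h.trans h1), fld_union (PI_disj hT le_rfl), PI_union hT h1 h, fld_union (PI_disj hT le_rfl)]
  ring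

/-- the good heights -/
def Good (T : ℝ) (r M : ℕ) (ε t : ℝ) : Prop :=
  (∀ b : ℕ, 1 ≤ b → b < 4 * r → |YY T b t| ≤ (1 / Real.pi + ε) * Real.log r) ∧
  (∃ b : ℕ, 1 ≤ b ∧ b < r ∧ (1 / Real.pi - ε) * Real.log r ≤ YY T b t) ∧
  (∃ b : ℕ, 1 ≤ b ∧ b < r ∧ (1 / Real.pi - ε) * Real.log r ≤ -YY T b t) ∧
  |YY T M t| ≤ ε * Real.log r

/-- Chebyshev's inequality for a single count -/
lemma cheb1 {T M y : ℝ} (hT : 1 ≤ T) (hy : 0 < y) :
    (PT T).real {t | y < |YY T M t|} ≤ (∫ t in Icc T (2 * T), dev T M t) / y ^ 2 / T := by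
  have hT0 : 0 < T := by linarith
  have hm : MeasurableSet {t | y < |YY T M t|} := measurableSet_lt measurable_const (YY_meas T M).abs
  rw [PT_real hT0 hm]
  apply div_le_div_of_nonneg_right _ hT0.le
  rw [le_div_iff₀ (by positivity)]
  have hI : volume (Icc T (2 * T)) ≠ ⊤ := by rw [Real.volume_Icc]; exact ENNReal.ofReal_ne_top
  have h1 : volume.real ({t | y < |YY T M t|} ∩ Ioc T (2 * T)) ≤
      volume.real ({t | y < |YY T M t|} ∩ Icc T (2 * T)) :=
    measureReal_mono (inter_subset_inter_right _ Ioc_subset_Icc_self) (ne_top_of_le_ne_top hI (measure_mono inter_subset_right))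
  have h2 : volume.real ({t | y < |YY T M t|} ∩ Icc T (2 * T)) * y ^ 2 =
      ∫ t in Icc T (2 * T), {t | y < |YY T M t|}.indicator (fun _ => y ^ 2) t := by
    rw [setIntegral_indicator hm, setIntegral_const, smul_eq_mul, inter_comm]
  have h3 : ∫ t in Icc T (2 * T), {t | y < |YY T M t|}.indicator (fun _ => y ^ 2) t ≤
      ∫ t in Icc T (2 * T), dev T M t := by
    refine setIntegral_mono_on ((integrableOn_const hI).indicator hm) (dev_int _ _ _ _) measurableSet_Icc fun t _ => ?_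
    by_cases h : t ∈ {t | y < |YY T M t|}
    · rw [indicator_of_mem h]
      have h4 : dev T M t = YY T M t ^ 2 := rfl
      rw [h4, ← sq_abs (YY T M t)]
      have h5 : y < |YY T M t| := h
      exact pow_le_pow_left₀ hy.le h5.le 2
    · rw [indicator_of_notMem h]
      exact dev_nonneg _ _ _
  calc _ ≤ volume.real ({t | y < |YY T M t|} ∩ Icc T (2 * T)) * y ^ 2 :=
        mul_le_mul_of_nonneg_right h1 (by positivity)
    _ ≤ _ := by rw [h2]; exact h3

/-- the complement of an open set of large probability -/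
lemma compl_small {T η : ℝ} (hT : 0 < T) {S : Set ℝ} (hS : MeasurableSet S) (h : 1 - η ≤ (PT T).real S) :
    (PT T).real Sᶜ ≤ η := by
  haveI := PT_univ hT
  rw [probReal_compl_eq_one_sub hS]
  linarith

theorem comb (hRH : RHs) (ε : ℝ) (hε : 0 < ε) (M : ℕ) (hM : 1 ≤ M) (η : ℝ) (hη : 0 < η) :
    ∀ᶠ r : ℕ in atTop, ∀ᶠ T : ℝ in atTop, (PT T).real {t | ¬ Good T r M ε t} ≤ η := by
  have hpi := Real.pi_pos
  have hpi3 := Real.pi_gt_three
  obtain ⟨e1, he1⟩ : ∃ e1 : ℝ, e1 = min (ε / 16) (1 / 100) := ⟨_, rfl⟩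
  have he0 : 0 < e1 := by rw [he1]; positivity
  have he16 : e1 ≤ ε / 16 := by rw [he1]; exact min_le_left _ _
  have he100 : e1 ≤ 1 / 100 := by rw [he1]; exact min_le_right _ _
  obtain ⟨κ, hκ0, hκ1, herr⟩ := errT hRH e1 he0
  obtain ⟨K, hKd⟩ : ∃ K : ℕ, K = ⌈2 / e1 ^ 2⌉₊ + 3 := ⟨_, rfl⟩
  have hK3 : 3 ≤ K := by omega
  have hK3' : (3 : ℝ) ≤ K := by exact_mod_cast hK3
  have hK0 : (0 : ℝ) < K := by linarith
  have hKe : 2 / e1 ^ 2 ≤ K := by
    rw [hKd]
    push_cast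
    linarith [Nat.le_ceil (2 / e1 ^ 2)]
  have hKe1 : 2 / e1 ≤ K := by
    refine le_trans ?_ hKe
    apply div_le_div_of_nonneg_left (by norm_num) (by positivity)
    nlinarith
  obtain ⟨C, T0, hC, hT0, hv⟩ := varB 1 le_rfl
  have hlogr : Tendsto (fun r : ℕ => Real.log (r : ℝ)) atTop atTop :=
    Real.tendsto_log_atTop.comp tendsto_natCast_atTop_atTop
  have hη9 : 0 < η / 16 := by positivity
  have ev1 : ∀ᶠ q : ℝ in atTop, Real.log (4 * q) ≤ q / K := by
    have h2 := Real.isLittleO_log_id_atTop.bound (c := 1 / (8 * K)) (by positivity)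
    have h3 : Tendsto (fun q : ℝ => 4 * q) atTop atTop := tendsto_id.const_mul_atTop (by norm_num)
    filter_upwards [h3.eventually h2, eventually_ge_atTop 1] with q hq hq1
    rw [id, Real.norm_of_nonneg (Real.log_nonneg (by linarith)), Real.norm_of_nonneg (by linarith)] at hq
    refine hq.trans ?_
    have : 1 / (8 * (K : ℝ)) * (4 * q) = q / K / 2 := by field_simp; norm_num
    rw [this]
    have : 0 ≤ q / K := by positivity
    linarith
  have ev2 : ∀ᶠ q : ℝ in atTop, (C + Real.log (1 + M)) / (ε * q) ^ 2 ≤ η / 16 := by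
    have h3 : Tendsto (fun q : ℝ => (ε * q) ^ 2) atTop atTop :=
      (tendsto_pow_atTop two_ne_zero).comp (tendsto_id.const_mul_atTop hε)
    exact (h3.const_div_atTop _).eventually (eventually_le_nhds (by positivity))
  filter_upwards [herr (η / 16) hη9, low e1 he0 (by linarith) κ hκ0 K hK3 hKe1 (η / 16) hη9,
    up e1 he0 κ hκ0 (by linarith) K hK3 hKe (η / 16) hη9, hlogr.eventually ev1, hlogr.eventually ev2,
    hlogr.eventually_ge_atTop 1, eventually_ge_atTop 1] with r r1 r2 r3 r4 r5 r6 r7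
  filter_upwards [r1, r2, r3, eventually_ge_atTop (max T0 1), Real.tendsto_log_atTop.eventually_ge_atTop
    ((M : ℝ) * Real.log M)] with T t1 t2 t3 t4 t5
  have hTT0 : T0 ≤ T := (le_max_left _ _).trans t4
  have hT1 : 1 ≤ T := (le_max_right _ _).trans t4
  have hT0' : 0 < T := by linarith
  haveI := PT_univ hT0'
  obtain ⟨q, hq⟩ : ∃ q : ℝ, q = Real.log r := ⟨_, rfl⟩
  have low1 := t2 1 (Or.inl rfl)
  have low2 := t2 (-1) (Or.inr rfl)
  obtain ⟨u1, u2, u3, u4, u5, u6⟩ := t3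
  rw [← hq] at low1 low2 u1 u2 u3 u4 u5 u6 r4 r5 r6 t1
  obtain ⟨l, hl⟩ : ∃ l : ℝ, l = Real.log T / (κ * q) := ⟨_, rfl⟩
  rw [← hl] at low1 low2 u1 u2 u3 u4 u5 u6 t1
  have hq0 : 0 < q := by linarith
  have hκq : 0 < κ * q := by positivity
  have hlk : Real.log (κ * q) ≤ Real.log (4 * q) := Real.log_le_log hκq (by nlinarith)
  have hqK : q / K ≤ q := div_le_self hq0.le (by linarith)
  have h4q : Real.log (4 * q) ≤ q := r4.trans hqK
  -- the sets
  have hopen : ∀ σ : ℝ, MeasurableSet {t | ∃ b < r, (1 - 5 * e1) / Real.pi * q <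
      σ * fld l (PI T (((K : ℝ) - 1) * q / K) (q / K)) (t + 2 * Real.pi * b / Real.log T)} := by
    intro σ
    apply IsOpen.measurableSet
    have : {t | ∃ b < r, (1 - 5 * e1) / Real.pi * q <
      σ * fld l (PI T (((K : ℝ) - 1) * q / K) (q / K)) (t + 2 * Real.pi * b / Real.log T)} =
      ⋃ b < r, {t | (1 - 5 * e1) / Real.pi * q <
      σ * fld l (PI T (((K : ℝ) - 1) * q / K) (q / K)) (t + 2 * Real.pi * b / Real.log T)} := by
      ext t
      simp
    rw [this]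
    refine isOpen_biUnion fun b _ => isOpen_lt continuous_const ?_
    exact continuous_const.mul ((fld_cont _ _).comp (by fun_prop))
  have c1 := compl_small hT0' (hopen 1) low1
  have c2 := compl_small hT0' (hopen (-1)) low2
  have hdev : (PT T).real {t | ε * q < |YY T M t|} ≤ η / 16 := by
    refine (cheb1 hT1 (by positivity)).trans ?_
    have h1 := hv T hTT0 M (by exact_mod_cast hM) (by rw [one_mul]; exact t5)
    refine le_trans ?_ r5
    rw [div_div, div_le_div_iff₀ (by positivity) (by positivity)]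
    calc (∫ t in Icc T (2 * T), dev T M t) * (ε * q) ^ 2 ≤ (T * (C + Real.log (1 + M))) * (ε * q) ^ 2 := by gcongr
      _ = _ := by ring
  -- the inclusion
  obtain ⟨S1, hS1⟩ : ∃ S1 : Set ℝ, S1 = {t | ∃ b < 4 * r, (1 / Real.pi + e1) * q ≤
    |fld l (PI T q (Real.log (4 * q))) (t + 2 * Real.pi * b / Real.log T)|} := ⟨_, rfl⟩
  obtain ⟨S2, hS2⟩ : ∃ S2 : Set ℝ, S2 = {t | ∃ b < 4 * r, e1 * q ≤
    |fld l (PI T q (((K : ℝ) - 1) * q / K)) (t + 2 * Real.pi * b / Real.log T)|} := ⟨_, rfl⟩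
  obtain ⟨S3, hS3⟩ : ∃ S3 : Set ℝ, S3 = {t | ∃ b < 4 * r, e1 * q ≤
    |fld l (PI T (q / K) (Real.log (4 * q))) (t + 2 * Real.pi * b / Real.log T)|} := ⟨_, rfl⟩
  obtain ⟨S4, hS4⟩ : ∃ S4 : Set ℝ, S4 = {t | ∃ b < 4 * r, e1 * q ≤
    |fld l (PI T (Real.log (4 * q)) (Real.log (κ * q))) (t + 2 * Real.pi * b / Real.log T)|} := ⟨_, rfl⟩
  obtain ⟨S5, hS5⟩ : ∃ S5 : Set ℝ, S5 = {t | ∃ b < 4 * r, e1 * q ≤
    |fld l (Pr (XK (Real.exp (-q)) T)) (t + 2 * Real.pi * b / Real.log T) -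
      fld l (Pr (XK (Real.exp (-q)) T)) t|} := ⟨_, rfl⟩
  obtain ⟨S6, hS6⟩ : ∃ S6 : Set ℝ, S6 = {t | e1 * q ≤ |fld l (PI T q (Real.log (4 * q))) t|} := ⟨_, rfl⟩
  obtain ⟨S7, hS7⟩ : ∃ S7 : Set ℝ, S7 = {t | ∃ b < 4 * r, 1 ≤ b ∧ e1 * q ≤
      |((NZ (t + 2 * Real.pi * b / Real.log T) : ℝ) - NZ t) - b -
        (fld l (Pr (XK (1 / (κ * q)) T)) (t + 2 * Real.pi * b / Real.log T) -
        fld l (Pr (XK (1 / (κ * q)) T)) t)|} := ⟨_, rfl⟩
  obtain ⟨S8, hS8⟩ : ∃ S8 : Set ℝ, S8 = {t | ∃ b < r, (1 - 5 * e1) / Real.pi * q <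
      1 * fld l (PI T (((K : ℝ) - 1) * q / K) (q / K)) (t + 2 * Real.pi * b / Real.log T)} := ⟨_, rfl⟩
  obtain ⟨S9, hS9⟩ : ∃ S9 : Set ℝ, S9 = {t | ∃ b < r, (1 - 5 * e1) / Real.pi * q <
      (-1) * fld l (PI T (((K : ℝ) - 1) * q / K) (q / K)) (t + 2 * Real.pi * b / Real.log T)} := ⟨_, rfl⟩
  obtain ⟨S10, hS10⟩ : ∃ S10 : Set ℝ, S10 = {t | ε * q < |YY T M t|} := ⟨_, rfl⟩
  have hpe : (1 - 5 * e1) / Real.pi * q - 8 * (e1 * q) ≥ (1 / Real.pi - ε) * q := by
    have h1 : 5 * e1 / Real.pi ≤ 5 * e1 / 3 := div_le_div_of_nonneg_left (by positivity) (by norm_num) hpi3.le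
    have h2 : (1 - 5 * e1) / Real.pi = 1 / Real.pi - 5 * e1 / Real.pi := by ring
    rw [h2]
    have h3 : (1 / Real.pi - 5 * e1 / Real.pi) * q - 8 * (e1 * q) = (1 / Real.pi - (5 * e1 / Real.pi + 8 * e1)) * q := by ring
    rw [h3]
    apply mul_le_mul_of_nonneg_right _ hq0.le
    linarith
  have hpos : 3 * (e1 * q) < (1 - 5 * e1) / Real.pi * q := by
    rw [← mul_assoc]
    apply mul_lt_mul_of_pos_right _ hq0
    rw [lt_div_iff₀ hpi]
    have := Real.pi_lt_d2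
    nlinarith
  have hsub : {t | ¬ Good T r M ε t} ⊆
      ((S1 ∪ S2) ∪ (S3 ∪ S4)) ∪ (((S5 ∪ S6) ∪ (S7 ∪ S10)) ∪ (S8ᶜ ∪ S9ᶜ)) := by
    intro t ht
    by_contra hcon
    simp only [Set.mem_union, Set.mem_compl_iff, not_or, not_not] at hcon
    obtain ⟨⟨⟨k1, k2⟩, ⟨k3, k4⟩⟩, ⟨⟨k5, k6⟩, ⟨k7, k10⟩⟩, ⟨k8, k9⟩⟩ := hcon
    apply ht
    rw [hS1] at k1
    rw [hS2] at k2
    rw [hS3] at k3
    rw [hS4] at k4
    rw [hS5] at k5
    rw [hS6] at k6
    rw [hS7] at k7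
    rw [hS8] at k8
    rw [hS9] at k9
    rw [hS10] at k10
    simp only [Set.mem_setOf_eq, not_exists, not_and, not_le, not_lt] at k1 k2 k3 k4 k5 k6 k7 k8 k9 k10
    have e0 : t + 2 * Real.pi * ((0 : ℕ) : ℝ) / Real.log T = t := by simp
    have hr4 : ∀ b, b < r → b < 4 * r := fun b hb => by omega
    have z2 := abs_lt.1 (k2 0 (by omega))
    have z3 := abs_lt.1 (k3 0 (by omega))
    have z4 := abs_lt.1 (k4 0 (by omega))
    rw [e0] at z2 z3 z4
    have z6 := abs_lt.1 k6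
    have hYY : ∀ b : ℕ, 1 ≤ b → b < 4 * r →
        |YY T b t - (fld l (PI T q (Real.log (4 * q))) (t + 2 * Real.pi * b / Real.log T))| ≤ 5 * (e1 * q) := by
      intro b hb hb4
      have a7 := abs_lt.1 (k7 b hb4 hb)
      have a5 := abs_lt.1 (k5 b hb4)
      have a4 := abs_lt.1 (k4 b hb4)
      rw [fld_split hT1 hκq hlk h4q, fld_split hT1 hκq hlk h4q] at a7
      unfold YY
      rw [abs_le]
      constructor <;> linarith [a7.1, a7.2, a5.1, a5.2, a4.1, a4.2, z4.1, z4.2, z6.1, z6.2]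
    unfold Good
    rw [← hq]
    refine ⟨?_, ?_, ?_, k10⟩
    · intro b hb hb4
      have a1 := abs_lt.1 (k1 b hb4)
      have a2 := abs_le.1 (hYY b hb hb4)
      have : (1 / Real.pi + e1) * q + 5 * (e1 * q) ≤ (1 / Real.pi + ε) * q := by nlinarith
      rw [abs_le]
      constructor <;> linarith [a1.1, a1.2, a2.1, a2.2]
    · obtain ⟨b, hb, h8⟩ := k8
      have a2 := abs_lt.1 (k2 b (hr4 b hb))
      have a3 := abs_lt.1 (k3 b (hr4 b hb))
      have e3 := fld_three (l := l) hT1 hq0.le hK3 r4 (t + 2 * Real.pi * b / Real.log T)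
      have hb1 : 1 ≤ b := by
        by_contra h
        have hb0 : b = 0 := by omega
        subst hb0
        rw [e0] at e3 h8
        linarith [z6.1, z6.2, z2.1, z2.2, z3.1, z3.2]
      have a4 := abs_le.1 (hYY b hb1 (hr4 b hb))
      exact ⟨b, hb1, hb, by linarith [a2.1, a2.2, a3.1, a3.2, a4.1, a4.2]⟩
    · obtain ⟨b, hb, h8⟩ := k9
      have a2 := abs_lt.1 (k2 b (hr4 b hb))
      have a3 := abs_lt.1 (k3 b (hr4 b hb))
      have e3 := fld_three (l := l) hT1 hq0.le hK3 r4 (t + 2 * Real.pi * b / Real.log T)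
      have hb1 : 1 ≤ b := by
        by_contra h
        have hb0 : b = 0 := by omega
        subst hb0
        rw [e0] at e3 h8
        linarith [z6.1, z6.2, z2.1, z2.2, z3.1, z3.2]
      have a4 := abs_le.1 (hYY b hb1 (hr4 b hb))
      exact ⟨b, hb1, hb, by linarith [a2.1, a2.2, a3.1, a3.2, a4.1, a4.2]⟩
  refine (measureReal_mono hsub (measure_ne_top _ _)).trans ?_
  rw [← hS1] at u1
  rw [← hS2] at u2
  rw [← hS3] at u3
  rw [← hS4] at u4
  rw [← hS5] at u5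
  rw [← hS6] at u6
  rw [← hS7] at t1
  rw [← hS8] at c1
  rw [← hS9] at c2
  rw [← hS10] at hdev
  have m1 := measureReal_union_le (μ := PT T) ((S1 ∪ S2) ∪ (S3 ∪ S4)) (((S5 ∪ S6) ∪ (S7 ∪ S10)) ∪ (S8ᶜ ∪ S9ᶜ))
  have m2 := measureReal_union_le (μ := PT T) (S1 ∪ S2) (S3 ∪ S4)
  have m3 := measureReal_union_le (μ := PT T) S1 S2
  have m4 := measureReal_union_le (μ := PT T) S3 S4
  have m5 := measureReal_union_le (μ := PT T) ((S5 ∪ S6) ∪ (S7 ∪ S10)) (S8ᶜ ∪ S9ᶜ)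
  have m6 := measureReal_union_le (μ := PT T) (S5 ∪ S6) (S7 ∪ S10)
  have m7 := measureReal_union_le (μ := PT T) S5 S6
  have m8 := measureReal_union_le (μ := PT T) S7 S10
  have m9 := measureReal_union_le (μ := PT T) S8ᶜ S9ᶜ
  linarith

end

end Pool.Agent.U403.Max
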