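import Pool.Agent.TH850.UV.NTS
import Pool.Agent.Y743.CL.Pp

/-! # Sums of `cos (h log p) / p` -/

set_option autoImplicit false

open Filter Topology Finset
open ArithmeticFunction (vonMangoldt vonMangoldt_nonneg vonMangoldt_le_log vonMangoldt_eq_zero_iff
  vonMangoldt_apply_prime)

namespace Pool.Agent.U403.Max

/-- the increments of the logarithm -/
noncomputable def li (n : ℕ) : ℝ := Real.log n - Real.log ((n - 1 : ℕ) : ℝ)

lemma li_sum (N : ℕ) : ∑ n ∈ Icc 1 N, li n = Real.log N := by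
  induction N with
  | zero => simp
  | succ N ih =>
    rw [sum_Icc_succ_top (by omega), ih]
    simp [li]

lemma li_nonneg (n : ℕ) : 0 ≤ li n := by
  unfold li
  rcases Nat.lt_or_ge n 2 with h | h
  · interval_cases n <;> simp
  · have : Real.log ((n - 1 : ℕ) : ℝ) ≤ Real.log n := by
      apply Real.log_le_log
      · exact_mod_cast (by omega : 0 < n - 1)
      · exact_mod_cast (by omega : n - 1 ≤ n)
    linarith

lemma li_le {n : ℕ} (hn : 2 ≤ n) : li n ≤ 1 / ((n - 1 : ℕ) : ℝ) := by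
  unfold li
  have h1 : (0 : ℝ) < ((n - 1 : ℕ) : ℝ) := by exact_mod_cast (by omega : 0 < n - 1)
  have h2 : (n : ℝ) = ((n - 1 : ℕ) : ℝ) + 1 := by
    rw [Nat.cast_sub (by omega : 1 ≤ n)]
    push_cast
    ring
  rw [← Real.log_div (by positivity) h1.ne']
  have h3 : (n : ℝ) / ((n - 1 : ℕ) : ℝ) = 1 + 1 / ((n - 1 : ℕ) : ℝ) := by
    rw [h2]
    field_simp
  rw [h3]
  have := Real.log_le_sub_one_of_pos (show 0 < 1 + 1 / ((n - 1 : ℕ) : ℝ) by positivity)
  linarith

lemma li_sq_sum (N : ℕ) : ∑ n ∈ Icc 1 N, li n ^ 2 ≤ 2 := by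
  have h4 : li 1 = 0 := by simp [li]
  have h1 : ∀ N : ℕ, 1 ≤ N → ∑ n ∈ Icc 1 (N + 1), li n ^ 2 ≤ 2 - 1 / (N : ℝ) := by
    intro N hN
    induction N, hN using Nat.le_induction with
    | base =>
      have h2 := li_le (n := 2) le_rfl
      have h0 := li_nonneg 2
      norm_num at h2
      rw [sum_Icc_succ_top (by omega)]
      simp only [Icc_self, sum_singleton]
      rw [h4]
      norm_num
      rw [abs_of_nonneg h0]
      exact h2
    | succ N hN ih =>
      rw [sum_Icc_succ_top (by omega)]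
      have hN0 : (0 : ℝ) < N := by exact_mod_cast hN
      have e1 : (((N + 1 + 1 : ℕ) - 1 : ℕ) : ℝ) = (N : ℝ) + 1 := by simp
      have h2 := li_le (n := N + 1 + 1) (by omega)
      rw [e1] at h2
      have h0 := li_nonneg (N + 1 + 1)
      have h3 : li (N + 1 + 1) ^ 2 ≤ (1 / ((N : ℝ) + 1)) ^ 2 := pow_le_pow_left₀ h0 h2 2
      have h5 : (1 / ((N : ℝ) + 1)) ^ 2 ≤ 1 / (N : ℝ) - 1 / (((N + 1 : ℕ) : ℝ)) := by
        push_cast
        rw [div_sub_div _ _ hN0.ne' (by positivity), div_pow, one_pow, div_le_div_iff₀ (by positivity) (by positivity)]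
        nlinarith
      linarith
  rcases Nat.lt_or_ge N 2 with h | h
  · interval_cases N
    · simp
    · simp [h4]
  · obtain ⟨M, rfl⟩ : ∃ M, N = M + 1 := ⟨N - 1, by omega⟩
    have := h1 M (by omega)
    have h2 : 0 ≤ 1 / (M : ℝ) := by positivity
    linarith

/-- the sum of `Λ(n) / n cos (h log n)` -/
noncomputable def FF (h : ℝ) (N : ℕ) : ℝ :=
  ∑ n ∈ Icc 1 N, vonMangoldt n / n * Real.cos (h * Real.log n)

lemma cos_dif (x y : ℝ) : |Real.cos x - Real.cos y| ≤ |x - y| := by
  exact Real.abs_cos_sub_cos_le x y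

lemma li_le_one {n : ℕ} (hn : 1 ≤ n) : li n ≤ 1 := by
  rcases Nat.lt_or_ge n 2 with h | h
  · have : n = 1 := by omega
    rw [this]
    simp [li]
  · refine (li_le h).trans ?_
    have h1 : (1 : ℝ) ≤ ((n - 1 : ℕ) : ℝ) := by exact_mod_cast (by omega : 1 ≤ n - 1)
    rw [div_le_one (by linarith)]
    exact h1

lemma sin_step {a b : ℝ} (h0 : 0 ≤ b - a) (h1 : b - a ≤ 1) :
    |Real.sin b - Real.sin a - (b - a) * Real.cos b| ≤ (b - a) ^ 2 := by
  obtain ⟨d, hd⟩ : ∃ d : ℝ, d = b - a := ⟨_, rfl⟩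
  have ha : a = b - d := by linarith
  rw [ha, sub_sub_cancel]
  rw [← hd] at h0 h1
  rw [Real.sin_sub]
  have e1 : Real.sin b - (Real.sin b * Real.cos d - Real.cos b * Real.sin d) - d * Real.cos b =
      Real.sin b * (1 - Real.cos d) + Real.cos b * (Real.sin d - d) := by ring
  rw [e1]
  have h2 : |Real.sin b * (1 - Real.cos d)| ≤ d ^ 2 / 2 := by
    rw [abs_mul, abs_of_nonneg (a := 1 - Real.cos d) (by linarith [Real.cos_le_one d])]
    have h3 := Real.one_sub_sq_div_two_le_cos (x := d)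
    calc _ ≤ 1 * (1 - Real.cos d) := mul_le_mul_of_nonneg_right (Real.abs_sin_le_one _)
          (by linarith [Real.cos_le_one d])
      _ ≤ _ := by linarith
  have h3 : |Real.cos b * (Real.sin d - d)| ≤ d ^ 2 / 2 := by
    rw [abs_mul]
    have h4 : |Real.sin d - d| ≤ d ^ 2 / 2 := by
      rcases h0.eq_or_lt with h5 | h5
      · rw [← h5]; simp
      · have h6 := Real.sin_gt_sub_cube h5
        have h7 := Real.sin_lt h5
        rw [abs_le]
        constructor
        · have h8 : d ^ 3 ≤ d ^ 2 := pow_le_pow_of_le_one h0 h1 (by norm_num)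
          nlinarith [sq_nonneg d]
        · nlinarith [sq_nonneg d]
    calc _ ≤ 1 * |Real.sin d - d| := mul_le_mul_of_nonneg_right (Real.abs_cos_le_one _) (abs_nonneg _)
      _ ≤ _ := by linarith
  have := abs_add_le (Real.sin b * (1 - Real.cos d)) (Real.cos b * (Real.sin d - d))
  linarith

lemma FF_bd {h : ℝ} (hh : 0 < h) (hh1 : h ≤ 1) {N : ℕ} (hN : 1 ≤ N) :
    |FF h N| ≤ 8 + 6 * h * Real.log N + 1 / h := by
  have hA := _root_.H370.nt_abel (fun n => vonMangoldt n / n) (fun n => Real.cos (h * Real.log n)) N hN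
  have hB := _root_.H370.nt_abel li (fun n => Real.cos (h * Real.log n)) N hN
  simp only [li_sum] at hB
  have hR : ∀ N : ℕ, 1 ≤ N → |∑ n ∈ Icc 1 N, vonMangoldt n / n - Real.log N| ≤ 6 := by
    intro N hN
    have r1 := _root_.H370.nt_mertens_lower N hN
    have r2 := _root_.H370.nt_mertens_upper N hN
    rw [abs_le]
    constructor <;> linarith
  have hTV : ∀ N : ℕ, 1 ≤ N → ∑ n ∈ Ico 1 N, |Real.cos (h * Real.log ((n + 1 : ℕ) : ℝ)) -
      Real.cos (h * Real.log n)| ≤ h * Real.log N := by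
    intro N hN
    induction N, hN using Nat.le_induction with
    | base => simp
    | succ N hN ih =>
      rw [sum_Ico_succ_top hN]
      have h1 := cos_dif (h * Real.log ((N + 1 : ℕ) : ℝ)) (h * Real.log N)
      have h2 : Real.log N ≤ Real.log ((N + 1 : ℕ) : ℝ) := by
        apply Real.log_le_log (by exact_mod_cast hN)
        push_cast
        linarith
      rw [← mul_sub, abs_mul, abs_of_pos hh,
        abs_of_nonneg (a := Real.log ((N + 1 : ℕ) : ℝ) - Real.log N) (by linarith)] at h1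
      linarith
  have h23 : |FF h N - ∑ n ∈ Icc 1 N, li n * Real.cos (h * Real.log n)| ≤ 6 + 6 * (h * Real.log N) := by
    unfold FF
    rw [hA, hB]
    have e1 : (∑ n ∈ Icc 1 N, vonMangoldt n / (n : ℝ)) * Real.cos (h * Real.log N) -
        ∑ n ∈ Ico 1 N, (∑ k ∈ Icc 1 n, vonMangoldt k / (k : ℝ)) *
          (Real.cos (h * Real.log ((n + 1 : ℕ) : ℝ)) - Real.cos (h * Real.log n)) -
        (Real.log N * Real.cos (h * Real.log N) - ∑ n ∈ Ico 1 N, Real.log n *
          (Real.cos (h * Real.log ((n + 1 : ℕ) : ℝ)) - Real.cos (h * Real.log n))) =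
        (∑ n ∈ Icc 1 N, vonMangoldt n / (n : ℝ) - Real.log N) * Real.cos (h * Real.log N) -
        ∑ n ∈ Ico 1 N, ((∑ k ∈ Icc 1 n, vonMangoldt k / (k : ℝ)) - Real.log n) *
          (Real.cos (h * Real.log ((n + 1 : ℕ) : ℝ)) - Real.cos (h * Real.log n)) := by
      simp only [sub_mul, sum_sub_distrib]
      ring
    rw [e1]
    refine (abs_sub _ _).trans ?_
    have t1 : |(∑ n ∈ Icc 1 N, vonMangoldt n / (n : ℝ) - Real.log N) * Real.cos (h * Real.log N)| ≤ 6 := by
      rw [abs_mul]
      calc _ ≤ 6 * 1 := mul_le_mul (hR N hN) (Real.abs_cos_le_one _) (abs_nonneg _) (by norm_num)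
        _ = 6 := by norm_num
    have t2 : |∑ n ∈ Ico 1 N, ((∑ k ∈ Icc 1 n, vonMangoldt k / (k : ℝ)) - Real.log n) *
          (Real.cos (h * Real.log ((n + 1 : ℕ) : ℝ)) - Real.cos (h * Real.log n))| ≤
          6 * (h * Real.log N) := by
      refine (abs_sum_le_sum_abs _ _).trans ?_
      have t3 : ∀ n ∈ Ico 1 N, |((∑ k ∈ Icc 1 n, vonMangoldt k / (k : ℝ)) - Real.log n) *
          (Real.cos (h * Real.log ((n + 1 : ℕ) : ℝ)) - Real.cos (h * Real.log n))| ≤
          6 * |Real.cos (h * Real.log ((n + 1 : ℕ) : ℝ)) - Real.cos (h * Real.log n)| := by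
        intro n hn
        rw [abs_mul]
        exact mul_le_mul_of_nonneg_right (hR n (mem_Ico.mp hn).1) (abs_nonneg _)
      refine (sum_le_sum t3).trans ?_
      rw [← mul_sum]
      exact mul_le_mul_of_nonneg_left (hTV N hN) (by norm_num)
    linarith
  have h4 : |∑ n ∈ Icc 1 N, li n * Real.cos (h * Real.log n)| ≤ 1 / h + 2 * h := by
    have e1 : ∑ n ∈ Icc 1 N, (Real.sin (h * Real.log n) - Real.sin (h * Real.log ((n - 1 : ℕ) : ℝ))) =
        Real.sin (h * Real.log N) := by
      clear hA hB h23 hN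
      induction N with
      | zero => simp
      | succ N ih =>
        rw [sum_Icc_succ_top (by omega), ih]
        simp
    have h5 : ∀ n ∈ Icc 1 N, |h * (li n * Real.cos (h * Real.log n)) -
        (Real.sin (h * Real.log n) - Real.sin (h * Real.log ((n - 1 : ℕ) : ℝ)))| ≤ h ^ 2 * li n ^ 2 := by
      intro n hn
      have e2 : h * Real.log n - h * Real.log ((n - 1 : ℕ) : ℝ) = h * li n := by
        unfold li
        ring
      have l1 := li_le_one (mem_Icc.1 hn).1
      have l0 := li_nonneg n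
      have := sin_step (a := h * Real.log ((n - 1 : ℕ) : ℝ)) (b := h * Real.log n)
        (by rw [e2]; positivity) (by rw [e2]; nlinarith)
      rw [e2, abs_sub_comm] at this
      have e3 : h * (li n * Real.cos (h * Real.log n)) = h * li n * Real.cos (h * Real.log n) := by ring
      rw [e3]
      refine this.trans (le_of_eq (by ring))
    have h6 : |h * (∑ n ∈ Icc 1 N, li n * Real.cos (h * Real.log n)) - Real.sin (h * Real.log N)| ≤
        2 * h ^ 2 := by
      rw [← e1, mul_sum, ← sum_sub_distrib]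
      refine (abs_sum_le_sum_abs _ _).trans ((sum_le_sum h5).trans ?_)
      rw [← mul_sum]
      have := li_sq_sum N
      nlinarith [sq_nonneg h]
    have h7 : |h * (∑ n ∈ Icc 1 N, li n * Real.cos (h * Real.log n))| ≤ 1 + 2 * h ^ 2 := by
      have := Real.abs_sin_le_one (h * Real.log N)
      have h8 := abs_sub_abs_le_abs_sub (h * (∑ n ∈ Icc 1 N, li n * Real.cos (h * Real.log n)))
        (Real.sin (h * Real.log N))
      linarith
    rw [abs_mul, abs_of_pos hh] at h7
    have h9 : 1 / h + 2 * h = (1 + 2 * h ^ 2) / h := by field_simp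
    rw [h9, le_div_iff₀ hh]
    linarith
  have h5 := abs_sub_abs_le_abs_sub (FF h N) (∑ n ∈ Icc 1 N, li n * Real.cos (h * Real.log n))
  linarith

/-- the sum over a range, with the weight `1 / log n` -/
lemma range_bd {h : ℝ} (hh : 0 < h) (hh1 : h ≤ 1) {X Y : ℕ} (hX : 2 ≤ X) (hXY : X ≤ Y) :
    |∑ n ∈ Ioc X Y, vonMangoldt n / (n * Real.log n) * Real.cos (h * Real.log n)| ≤
      2 * (8 + 6 * h * Real.log Y + 1 / h) / Real.log X := by
  obtain ⟨K, hK⟩ : ∃ K : ℝ, K = 8 + 6 * h * Real.log Y + 1 / h := ⟨_, rfl⟩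
  rw [← hK]
  have hX1 : (1 : ℝ) < X := by exact_mod_cast (by omega : 1 < X)
  have hlX : 0 < Real.log X := Real.log_pos hX1
  obtain ⟨a, ha⟩ : ∃ a : ℕ → ℝ, a = fun n => if n ≤ X then 0 else vonMangoldt n / n *
    Real.cos (h * Real.log n) := ⟨_, rfl⟩
  have hsum : ∀ n : ℕ, X ≤ n → ∑ k ∈ Icc 1 n, a k = FF h n - FF h X := by
    intro n hn
    induction n, hn using Nat.le_induction with
    | base =>
      rw [sub_self]
      apply sum_eq_zero
      intro k hk
      rw [ha]
      simp only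
      rw [if_pos (mem_Icc.1 hk).2]
    | succ n hn ih =>
      rw [sum_Icc_succ_top (by omega), ih]
      unfold FF
      rw [sum_Icc_succ_top (by omega : 1 ≤ n + 1)]
      rw [ha]
      simp only
      rw [if_neg (by omega)]
      ring
  have hsum0 : ∀ n : ℕ, n ≤ X → ∑ k ∈ Icc 1 n, a k = 0 := by
    intro n hn
    apply sum_eq_zero
    intro k hk
    rw [ha]
    simp only
    rw [if_pos ((mem_Icc.1 hk).2.trans hn)]
  have hKn : ∀ n : ℕ, X ≤ n → n ≤ Y → |∑ k ∈ Icc 1 n, a k| ≤ 2 * K := by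
    intro n hn hnY
    rw [hsum n hn]
    have h1 := FF_bd hh hh1 (N := n) (by omega)
    have h2 := FF_bd hh hh1 (N := X) (by omega)
    have h3 : Real.log n ≤ Real.log Y := Real.log_le_log (by exact_mod_cast (by omega : 0 < n)) (by exact_mod_cast hnY)
    have h4 : Real.log X ≤ Real.log Y := Real.log_le_log (by linarith) (by exact_mod_cast hXY)
    have h5 := abs_sub (FF h n) (FF h X)
    have h6 : 6 * h * Real.log n ≤ 6 * h * Real.log Y := mul_le_mul_of_nonneg_left h3 (by positivity)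
    have h7 : 6 * h * Real.log X ≤ 6 * h * Real.log Y := mul_le_mul_of_nonneg_left h4 (by positivity)
    linarith
  have hK0 : 0 ≤ K := by
    have := hKn X le_rfl hXY
    have := abs_nonneg (∑ k ∈ Icc 1 X, a k)
    linarith
  have hAb := _root_.H370.nt_abel a (fun n => 1 / Real.log n) Y (by omega)
  have e1 : ∑ n ∈ Icc 1 Y, a n * (1 / Real.log n) =
      ∑ n ∈ Ioc X Y, vonMangoldt n / (n * Real.log n) * Real.cos (h * Real.log n) := by
    symm
    apply sum_subset_zero_on_sdiff
    · intro n hn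
      rw [mem_Ioc] at hn
      rw [mem_Icc]
      omega
    · intro n hn
      rw [Finset.mem_sdiff, Finset.mem_Icc, Finset.mem_Ioc] at hn
      rw [ha]
      simp only
      rw [if_pos (by omega), zero_mul]
    · intro n hn
      rw [mem_Ioc] at hn
      rw [ha]
      simp only
      rw [if_neg (by omega)]
      rw [← div_div]
      ring
  rw [← e1, hAb]
  have hw : ∀ n : ℕ, X ≤ n → 1 / Real.log ((n + 1 : ℕ) : ℝ) ≤ 1 / Real.log n := by
    intro n hn
    have h1 : (1 : ℝ) < n := by exact_mod_cast (by omega : 1 < n)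
    apply one_div_le_one_div_of_le (Real.log_pos h1)
    apply Real.log_le_log (by linarith)
    push_cast
    linarith
  have hdiff : |∑ n ∈ Ico 1 Y, (∑ k ∈ Icc 1 n, a k) * (1 / Real.log ((n + 1 : ℕ) : ℝ) - 1 / Real.log n)| ≤
      2 * K * (1 / Real.log X - 1 / Real.log Y) := by
    have h1 : ∀ Z : ℕ, X ≤ Z → Z ≤ Y → |∑ n ∈ Ico 1 Z, (∑ k ∈ Icc 1 n, a k) *
        (1 / Real.log ((n + 1 : ℕ) : ℝ) - 1 / Real.log n)| ≤ 2 * K * (1 / Real.log X - 1 / Real.log Z) := by
      intro Z hZ
      induction Z, hZ using Nat.le_induction with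
      | base =>
        intro _
        rw [sub_self, mul_zero, sum_eq_zero, abs_zero]
        intro n hn
        rw [mem_Ico] at hn
        rw [hsum0 n (by omega), zero_mul]
      | succ Z hZ ih =>
        intro hZY
        have ih' := ih (by omega)
        rw [sum_Ico_succ_top (by omega)]
        have h2 := hKn Z hZ (by omega)
        have h3 : |(∑ k ∈ Icc 1 Z, a k) * (1 / Real.log ((Z + 1 : ℕ) : ℝ) - 1 / Real.log Z)| ≤
            2 * K * (1 / Real.log Z - 1 / Real.log ((Z + 1 : ℕ) : ℝ)) := by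
          rw [abs_mul, abs_sub_comm, abs_of_nonneg (a := 1 / Real.log (Z : ℝ) - 1 / Real.log ((Z + 1 : ℕ) : ℝ))
            (by linarith [hw Z hZ])]
          exact mul_le_mul_of_nonneg_right h2 (by linarith [hw Z hZ])
        refine (abs_add_le _ _).trans ?_
        linarith
    exact h1 Y hXY le_rfl
  have h1 : |(∑ n ∈ Icc 1 Y, a n) * (1 / Real.log Y)| ≤ 2 * K * (1 / Real.log Y) := by
    have hY1 : (1 : ℝ) < Y := by exact_mod_cast (by omega : 1 < Y)
    rw [abs_mul, abs_of_pos (a := 1 / Real.log (Y : ℝ)) (by have := Real.log_pos hY1; positivity)]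
    exact mul_le_mul_of_nonneg_right (hKn Y hXY le_rfl) (by have := Real.log_pos hY1; positivity)
  refine (abs_sub _ _).trans ?_
  calc _ ≤ 2 * K * (1 / Real.log Y) + 2 * K * (1 / Real.log X - 1 / Real.log Y) := add_le_add h1 hdiff
    _ = 2 * K / Real.log X := by ring

/-- the proper prime powers -/
noncomputable def ppw (n : ℕ) : ℝ := if IsPrimePow n ∧ ¬ n.Prime then (1 : ℝ) / n else 0

lemma ppw_nonneg (n : ℕ) : 0 ≤ ppw n := by
  unfold ppw
  split_ifs <;> positivity

lemma ppw_summable : Summable ppw := by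
  obtain ⟨C, hC, h⟩ := Pool.Agent.Y743.CL.pp_sum
  apply summable_of_sum_range_le (c := C) ppw_nonneg
  intro N
  refine le_trans ?_ (h N)
  unfold ppw
  rw [← sum_filter]
  apply sum_le_sum_of_subset_of_nonneg
  · intro n hn
    rw [Finset.mem_filter, Finset.mem_range] at hn
    rw [Finset.mem_filter, Finset.mem_Icc]
    have := hn.2.1.two_le
    exact ⟨⟨this, by omega⟩, hn.2⟩
  · intro n _ _
    positivity

/-- the tail of the sum over the proper prime powers -/
noncomputable def ppt (X : ℕ) : ℝ := ∑' n : ℕ, ppw (n + (X + 1))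

lemma ppt_le (X Y : ℕ) : ∑ n ∈ (Ioc X Y).filter (fun n => IsPrimePow n ∧ ¬ n.Prime), (1 : ℝ) / n ≤ ppt X := by
  have hs : Summable fun n : ℕ => ppw (n + (X + 1)) := (summable_nat_add_iff (X + 1)).2 ppw_summable
  rw [sum_filter]
  have h1 : ∑ n ∈ Ioc X Y, (if IsPrimePow n ∧ ¬ n.Prime then (1 : ℝ) / n else 0) =
      ∑ n ∈ range (Y - X), ppw (n + (X + 1)) := by
    have e : Ioc X Y = Ico (X + 1) (Y + 1) := by
      ext n
      simp only [Finset.mem_Ioc, Finset.mem_Ico]
      omega
    rw [e, sum_Ico_eq_sum_range]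
    have e2 : Y + 1 - (X + 1) = Y - X := by omega
    rw [e2]
    apply sum_congr rfl
    intro n _
    rw [add_comm (X + 1) n]
    rfl
  rw [h1]
  exact hs.sum_le_tsum _ fun n _ => ppw_nonneg _

lemma ppt_tendsto : Tendsto ppt atTop (𝓝 0) := by
  have h := tendsto_sum_nat_add ppw
  exact h.comp (tendsto_add_atTop_nat 1)

/-- **the primes** -/
theorem prime_cos {h : ℝ} (hh : 0 < h) (hh1 : h ≤ 1) {X Y : ℕ} (hX : 2 ≤ X) (hXY : X ≤ Y) :
    |∑ p ∈ (Ioc X Y).filter Nat.Prime, Real.cos (h * Real.log p) / p| ≤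
      2 * (8 + 6 * h * Real.log Y + 1 / h) / Real.log X + ppt X := by
  have h1 := range_bd hh hh1 hX hXY
  have h2 : |∑ n ∈ Ioc X Y, vonMangoldt n / (n * Real.log n) * Real.cos (h * Real.log n) -
      ∑ p ∈ (Ioc X Y).filter Nat.Prime, Real.cos (h * Real.log p) / p| ≤ ppt X := by
    rw [sum_filter, ← sum_sub_distrib]
    refine (abs_sum_le_sum_abs _ _).trans (le_trans ?_ (ppt_le X Y))
    rw [sum_filter]
    apply sum_le_sum
    intro n hn
    rw [mem_Ioc] at hn
    have hn0 : (0 : ℝ) < n := by exact_mod_cast (by omega : 0 < n)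
    have hlog : 0 < Real.log n := Real.log_pos (by exact_mod_cast (by omega : 1 < n))
    by_cases hp : n.Prime
    · rw [if_pos hp, vonMangoldt_apply_prime hp, if_neg (by tauto)]
      have : Real.log n / (n * Real.log n) * Real.cos (h * Real.log n) - Real.cos (h * Real.log n) / n = 0 := by
        field_simp
        ring
      rw [this, abs_zero]
    · rw [if_neg hp, sub_zero, abs_mul]
      by_cases hpp : IsPrimePow n
      · rw [if_pos ⟨hpp, hp⟩]
        have h3 : |vonMangoldt n / (n * Real.log n)| ≤ 1 / n := by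
          rw [abs_of_nonneg (div_nonneg vonMangoldt_nonneg (by positivity)), div_le_div_iff₀ (by positivity) hn0]
          have := vonMangoldt_le_log (n := n)
          nlinarith
        calc _ ≤ 1 / (n : ℝ) * 1 := mul_le_mul h3 (Real.abs_cos_le_one _) (abs_nonneg _) (by positivity)
          _ = _ := mul_one _
      · rw [if_neg (by tauto), vonMangoldt_eq_zero_iff.2 hpp]
        simp
  have h3 := abs_sub_abs_le_abs_sub (∑ p ∈ (Ioc X Y).filter Nat.Prime, Real.cos (h * Real.log p) / p)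
    (∑ n ∈ Ioc X Y, vonMangoldt n / (n * Real.log n) * Real.cos (h * Real.log n))
  rw [abs_sub_comm] at h3
  linarith

end Pool.Agent.U403.Max
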