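import Pool.Agent.R320.VQ.Apx
import Pool.Agent.U403.Max.Up

/-! # The error of the explicit formula: the zeros and the smooth remainder -/

set_option autoImplicit false

namespace Pool.Agent.U403.Max

open Complex Filter Topology MeasureTheory Set
open Pool.Agent.TH850.UR (ew)
open Pool.Agent.TH850.UV
open Pool.Agent.R320.VQ
open H370 (zz Zf mult mem_Zf good_zeta NN NN_eq zz_re zz_im)
open H370.A2 (lamC)
open SP (RHs Mk Q1 mu)

lemma inv_sq_summable : Summable fun n : ℤ => 1 / (n : ℝ) ^ 2 := Real.summable_one_div_int_pow.2 (by norm_num)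

/-- the far zeros -/
lemma far_zeros : ∃ C : ℝ, 0 < C ∧ ∀ T : ℝ, 10 ≤ T → ∀ t : ℝ,
    ∑ s ∈ (Zf riemannZeta T (2 * T)).filter (fun s => 1 < |s.im - t|),
      (mult riemannZeta s : ℝ) * (1 / (s.im - t) ^ 2) ≤ C * Real.log T := by
  classical
  obtain ⟨C, hC, hw⟩ := wcount
  obtain ⟨Z, hZ⟩ : ∃ Z : ℝ, Z = ∑' n : ℤ, 1 / (n : ℝ) ^ 2 := ⟨_, rfl⟩
  have hZ0 : 0 ≤ Z := by rw [hZ]; exact tsum_nonneg fun n => by positivity
  refine ⟨4 * Z * C + 1, by positivity, fun T hT t => ?_⟩
  have hlT : 0 < Real.log T := Real.log_pos (by linarith)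
  obtain ⟨S, hS⟩ : ∃ S : Finset ℂ, S = (Zf riemannZeta T (2 * T)).filter (fun s => 1 < |s.im - t|) := ⟨_, rfl⟩
  rw [← hS]
  obtain ⟨g, hg⟩ : ∃ g : ℂ → ℤ, g = fun s => round (s.im - t) := ⟨_, rfl⟩
  have h1 : ∑ s ∈ S, (mult riemannZeta s : ℝ) * (1 / (s.im - t) ^ 2) ≤
      ∑ s ∈ S, (mult riemannZeta s : ℝ) * (4 * (1 / (g s : ℝ) ^ 2)) := by
    refine Finset.sum_le_sum fun s hs => ?_
    apply mul_le_mul_of_nonneg_left _ (Nat.cast_nonneg _)
    rw [hS, Finset.mem_filter] at hs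
    have h2 := abs_sub_round (s.im - t)
    have h3 : (g s : ℝ) ^ 2 ≤ 4 * (s.im - t) ^ 2 := by
      have h4 : |(g s : ℝ)| ≤ 2 * |s.im - t| := by
        have hgs : g s = round (s.im - t) := by rw [hg]
        have h5 : |(g s : ℝ)| ≤ |s.im - t| + 1 / 2 := by
          have h9 := abs_sub_abs_le_abs_sub (g s : ℝ) (s.im - t)
          have h10 : |(g s : ℝ) - (s.im - t)| ≤ 1 / 2 := by
            rw [abs_sub_comm, hgs]
            exact h2
          linarith
        linarith [hs.2]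
      have := pow_le_pow_left₀ (abs_nonneg _) h4 2
      rw [sq_abs, mul_pow, sq_abs] at this
      linarith
    have h6 : (g s : ℝ) ≠ 0 := by
      intro h0
      rw [hg] at h0
      simp only at h0
      rw [h0, sub_zero] at h2
      linarith [hs.2]
    have h7 : 0 < (g s : ℝ) ^ 2 := by positivity
    have h8 : 0 < (s.im - t) ^ 2 := by nlinarith
    rw [mul_one_div, div_le_div_iff₀ h8 h7]
    linarith
  refine h1.trans ?_
  rw [← Finset.sum_fiberwise_of_maps_to (g := g) (t := S.image g) (fun s hs => Finset.mem_image_of_mem g hs)]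
  have h2 : ∀ n ∈ S.image g, ∑ s ∈ S.filter (fun s => g s = n), (mult riemannZeta s : ℝ) * (4 * (1 / (g s : ℝ) ^ 2)) ≤
      (4 * (C * Real.log T)) * (1 / (n : ℝ) ^ 2) := by
    intro n _
    have e : ∀ s ∈ S.filter (fun s => g s = n), (mult riemannZeta s : ℝ) * (4 * (1 / (g s : ℝ) ^ 2)) =
        (4 * (1 / (n : ℝ) ^ 2)) * (mult riemannZeta s : ℝ) := by
      intro s hs
      rw [(Finset.mem_filter.1 hs).2]
      ring
    rw [Finset.sum_congr rfl e, ← Finset.mul_sum]
    have h3 : ∑ s ∈ S.filter (fun s => g s = n), (mult riemannZeta s : ℝ) ≤ C * Real.log T := by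
      refine le_trans ?_ (hw T hT (t + n) (1 / 2) le_rfl)
      apply Finset.sum_le_sum_of_subset_of_nonneg
      · intro s hs
        rw [Finset.mem_filter] at hs
        rw [hS, Finset.mem_filter] at hs
        rw [Finset.mem_filter]
        refine ⟨hs.1.1, ?_⟩
        have h2 := abs_sub_round (s.im - t)
        have h4 : round (s.im - t) = n := by
          have := hs.2
          rw [hg] at this
          exact this
        rw [h4] at h2
        have e : s.im - (t + n) = s.im - t - n := by ring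
        rw [e]
        exact h2
      · intro s _ _
        exact Nat.cast_nonneg _
    have h4 : 0 ≤ 4 * (1 / (n : ℝ) ^ 2) := by positivity
    calc _ ≤ 4 * (1 / (n : ℝ) ^ 2) * (C * Real.log T) := mul_le_mul_of_nonneg_left h3 h4
      _ = _ := by ring
  refine (Finset.sum_le_sum h2).trans ?_
  rw [← Finset.mul_sum]
  have h3 : ∑ n ∈ S.image g, 1 / (n : ℝ) ^ 2 ≤ Z := by
    rw [hZ]
    exact inv_sq_summable.sum_le_tsum _ fun n _ => by positivity
  have h4 := mul_le_mul_of_nonneg_left h3 (by positivity : 0 ≤ 4 * (C * Real.log T))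
  nlinarith

/-- the contribution of the zeros -/
lemma J_bd (hRH : RHs) : ∃ C : ℝ, 0 < C ∧ ∀ lam : ℝ, 1 ≤ lam → ∀ T : ℝ, 10 ≤ T → ∀ k : ℕ,
    2 * Real.pi * lam ≤ k → ∀ S : Finset ℂ, S ⊆ Zf riemannZeta T (2 * T) → ∀ t : ℝ,
    |GS Jk S (Real.log T / lam) t| ≤ C * Mk T k t + C * lam ^ 2 / Real.log T := by
  classical
  obtain ⟨CJ, hCJ, hJ⟩ := Jk_le
  obtain ⟨CF, hCF, hF⟩ := far_zeros
  have hpi := Real.pi_pos
  refine ⟨2 * CJ + CJ * (2 * Real.pi) ^ 2 * CF, by positivity, fun lam hlam T hT k hk S hS t => ?_⟩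
  have hlam0 : 0 < lam := by linarith
  have hL0 : 0 < Real.log T := Real.log_pos (by linarith)
  obtain ⟨L, hL⟩ : ∃ L : ℝ, L = Real.log T := ⟨_, rfl⟩
  rw [← hL] at hL0 ⊢
  have hk0 : (0 : ℝ) < k := lt_of_lt_of_le (by positivity) hk
  have e1 : Mk T k t = ∑ s ∈ Zf riemannZeta T (2 * T), (mu s : ℝ) * Real.exp (-(s.im - t) ^ 2 / 2) /
      (1 + (Real.log T * (s.im - t) / k) ^ 2) := by
    unfold SP.Mk
    exact H370.finsum_Zf good_zeta (by linarith) _
  have hpt : ∀ s ∈ S, |mS s * Jk (yS (L / lam) s) (xS (L / lam) t s)| ≤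
      2 * CJ * ((mu s : ℝ) * Real.exp (-(s.im - t) ^ 2 / 2) / (1 + (L * (s.im - t) / k) ^ 2)) +
      CJ * (2 * Real.pi * lam) ^ 2 / L ^ 2 * (if 1 < |s.im - t| then (mult riemannZeta s : ℝ) * (1 / (s.im - t) ^ 2) else 0) := by
    intro s hs
    have hs' := hS hs
    rw [mem_Zf good_zeta (by linarith)] at hs'
    have hre : s.re = 1 / 2 := hRH s hs'.1 hs'.2.1 hs'.2.2.2.2
    have hy : yS (L / lam) s = 0 := by unfold yS; rw [hre]; ring
    have h2 := hJ (yS (L / lam) s) (xS (L / lam) t s)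
    rw [hy, abs_zero, mul_zero, Real.exp_zero, mul_one] at h2
    rw [hy, abs_mul, abs_of_nonneg (mS_nonneg s)]
    have hm : mS s = (mu s : ℝ) := rfl
    have hm2 : (mult riemannZeta s : ℝ) = (mu s : ℝ) := rfl
    have hm0 : (0 : ℝ) ≤ (mu s : ℝ) := Nat.cast_nonneg _
    rw [hm, hm2]
    have hx : xS (L / lam) t s = L * (s.im - t) / (2 * Real.pi * lam) := by
      unfold xS; field_simp
    rw [hx] at h2 ⊢
    have h3 : (mu s : ℝ) * |Jk 0 (L * (s.im - t) / (2 * Real.pi * lam))| ≤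
        (mu s : ℝ) * (CJ / (1 + (L * (s.im - t) / (2 * Real.pi * lam)) ^ 2)) := mul_le_mul_of_nonneg_left h2 hm0
    by_cases hf : 1 < |s.im - t|
    · rw [if_pos hf]
      have hu0 : s.im - t ≠ 0 := by
        intro h0; rw [h0, abs_zero] at hf; linarith
      have hu : 0 < (s.im - t) ^ 2 := by positivity
      have h4 : CJ / (1 + (L * (s.im - t) / (2 * Real.pi * lam)) ^ 2) ≤
          CJ * (2 * Real.pi * lam) ^ 2 / L ^ 2 * (1 / (s.im - t) ^ 2) := by
        rw [div_mul_div_comm, mul_one]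
        rw [div_le_div_iff₀ (by positivity) (by positivity)]
        have e : CJ * (2 * Real.pi * lam) ^ 2 * (1 + (L * (s.im - t) / (2 * Real.pi * lam)) ^ 2) =
            CJ * (2 * Real.pi * lam) ^ 2 + CJ * (L ^ 2 * (s.im - t) ^ 2) := by
          field_simp
        rw [e]
        have : 0 ≤ CJ * (2 * Real.pi * lam) ^ 2 := by positivity
        linarith
      have h5 := mul_le_mul_of_nonneg_left h4 hm0
      have h6 : 0 ≤ 2 * CJ * ((mu s : ℝ) * Real.exp (-(s.im - t) ^ 2 / 2) / (1 + (L * (s.im - t) / k) ^ 2)) := by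
        positivity
      nlinarith only [h3, h5, h6]
    · rw [if_neg hf, mul_zero, add_zero]
      push Not at hf
      have hu2 : (s.im - t) ^ 2 ≤ 1 := by
        rw [sq_le_one_iff_abs_le_one]; exact hf
      have hexp : 1 / 2 ≤ Real.exp (-(s.im - t) ^ 2 / 2) := by
        have := Real.add_one_le_exp (-(s.im - t) ^ 2 / 2)
        linarith
      have h4 : 1 / (1 + (L * (s.im - t) / (2 * Real.pi * lam)) ^ 2) ≤ 1 / (1 + (L * (s.im - t) / k) ^ 2) := by
        apply one_div_le_one_div_of_le (by positivity)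
        have h5 : (L * (s.im - t) / k) ^ 2 ≤ (L * (s.im - t) / (2 * Real.pi * lam)) ^ 2 := by
          rw [div_pow, div_pow]
          apply div_le_div_of_nonneg_left (sq_nonneg _) (by positivity)
          exact pow_le_pow_left₀ (by positivity) hk 2
        linarith
      calc (mu s : ℝ) * |Jk 0 (L * (s.im - t) / (2 * Real.pi * lam))| ≤
          (mu s : ℝ) * (CJ / (1 + (L * (s.im - t) / (2 * Real.pi * lam)) ^ 2)) := h3
        _ = CJ * (mu s : ℝ) * (1 / (1 + (L * (s.im - t) / (2 * Real.pi * lam)) ^ 2)) := by ring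
        _ ≤ CJ * (mu s : ℝ) * (1 / (1 + (L * (s.im - t) / k) ^ 2)) := mul_le_mul_of_nonneg_left h4 (by positivity)
        _ = CJ * (mu s : ℝ) * (1 / (1 + (L * (s.im - t) / k) ^ 2)) * (2 * (1 / 2)) := by ring
        _ ≤ CJ * (mu s : ℝ) * (1 / (1 + (L * (s.im - t) / k) ^ 2)) * (2 * Real.exp (-(s.im - t) ^ 2 / 2)) := by
            gcongr
        _ = _ := by ring
  unfold GS
  refine (Finset.abs_sum_le_sum_abs _ _).trans ((Finset.sum_le_sum hpt).trans ?_)
  rw [Finset.sum_add_distrib, ← Finset.mul_sum, ← Finset.mul_sum]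
  have g1 : ∑ s ∈ S, (mu s : ℝ) * Real.exp (-(s.im - t) ^ 2 / 2) / (1 + (L * (s.im - t) / k) ^ 2) ≤ Mk T k t := by
    rw [e1, ← hL]
    exact Finset.sum_le_sum_of_subset_of_nonneg hS fun s _ _ => by positivity
  have g2 : ∑ s ∈ S, (if 1 < |s.im - t| then (mult riemannZeta s : ℝ) * (1 / (s.im - t) ^ 2) else 0) ≤ CF * L := by
    rw [hL]
    refine le_trans ?_ (hF T hT t)
    rw [Finset.sum_filter]
    refine Finset.sum_le_sum_of_subset_of_nonneg hS fun s _ _ => ?_
    split_ifs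
    · positivity
    · exact le_rfl
  have hMk0 : 0 ≤ Mk T k t := le_trans (Finset.sum_nonneg fun s _ => by positivity) g1
  have g3 : CJ * (2 * Real.pi * lam) ^ 2 / L ^ 2 * (CF * L) = CJ * (2 * Real.pi) ^ 2 * CF * lam ^ 2 / L := by
    field_simp
  have g4 := mul_le_mul_of_nonneg_left g2 (by positivity : 0 ≤ CJ * (2 * Real.pi * lam) ^ 2 / L ^ 2)
  have g5 := mul_le_mul_of_nonneg_left g1 (by positivity : 0 ≤ 2 * CJ)
  have g6 : 0 ≤ CJ * (2 * Real.pi) ^ 2 * CF * Mk T k t := by positivity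
  have g7 : 0 ≤ 2 * CJ * lam ^ 2 / L := by positivity
  have e : (2 * CJ + CJ * (2 * Real.pi) ^ 2 * CF) * Mk T k t + (2 * CJ + CJ * (2 * Real.pi) ^ 2 * CF) * lam ^ 2 / L =
      2 * CJ * Mk T k t + CJ * (2 * Real.pi) ^ 2 * CF * Mk T k t + 2 * CJ * lam ^ 2 / L +
      CJ * (2 * Real.pi) ^ 2 * CF * lam ^ 2 / L := by ring
  rw [e]
  linarith

/-- the decomposition -/
theorem Rdec (hRH : RHs) {lam : ℝ} (hlam : 16 ≤ lam) (a : ℝ) (ha0 : 0 < a) (δ : ℝ) (hδ : 0 < δ) :
    ∀ᶠ T : ℝ in atTop,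
    ∃ U1 U2 : ℝ, T ≤ U1 ∧ U1 ≤ T + 1 ∧ 2 * T - 1 ≤ U2 ∧ U2 ≤ 2 * T ∧ ∃ R : ℝ → ℝ, Continuous R ∧
    (∀ t, NS (Zf riemannZeta U1 U2) (2 * Real.pi * a / Real.log T) t - a +
        Db (Real.log T / lam) (2 * Real.pi * a / Real.log T) (XT T) t =
      R t - (GS Jk (Zf riemannZeta U1 U2) (Real.log T / lam) t -
        GS Jk (Zf riemannZeta U1 U2) (Real.log T / lam) (t + 2 * Real.pi * a / Real.log T))) ∧
    ∫ t in (T + Real.log T)..(2 * T - Real.log T - 7), R t ^ 2 ≤ δ * T := by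
  obtain ⟨CV, T1, hCV, hT1, hV⟩ := V_q hRH 0 (by linarith : 1 ≤ lam)
  have hRest := @R_estq 0
  simp only [zero_add, pow_one] at hV hRest
  have hpi := Real.pi_pos
  have hpi3 := Real.pi_gt_three
  have hlam0 : 0 < lam := by linarith
  obtain ⟨CA, hCA, hA⟩ := An_Ac
  obtain ⟨CE, T2, hCE, hT2, hAc⟩ := Ac_est hlam
  set Λ := (2 * Real.pi * lam) ^ 2 with hΛ
  have hΛ0 : 0 < Λ := by positivity
  obtain ⟨D1, hD1⟩ : ∃ D1 : ℝ, D1 = 4 * ((CE * a) ^ 2 + (CA * Λ * (4 * Real.pi ^ 2 * lam * a)) ^ 2 * CV) := ⟨_, rfl⟩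
  have hD10 : 0 < D1 := by rw [hD1]; positivity
  have hev : ∀ᶠ T : ℝ in atTop, 2 * Real.log T + 7 ≤ 1 * T / 2 := by
    have h1 : (fun T : ℝ => 2 * Real.log T + 7) =o[atTop] fun T : ℝ => T :=
      (Real.isLittleO_log_id_atTop.const_mul_left 2).add (Asymptotics.isLittleO_const_id_atTop _)
    have h2 := h1.bound (c := 1 / 2) (by norm_num)
    filter_upwards [h2, eventually_ge_atTop 1] with T hT hT1
    rw [Real.norm_of_nonneg (by linarith : (0 : ℝ) ≤ T)] at hT
    have := (le_abs_self _).trans hT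
    linarith
  filter_upwards [hev, eventually_ge_atTop T1, eventually_ge_atTop T2,
    Real.tendsto_log_atTop.eventually_ge_atTop a, Real.tendsto_log_atTop.eventually_ge_atTop 1,
    Real.tendsto_log_atTop.eventually_ge_atTop (D1 / δ)] with T g4 hTT1 hTT2 haL' hL1 hLD
  have hT10 : 10 ≤ T := hT1.trans hTT1
  have hT0 : 0 < T := by linarith
  obtain ⟨hVi, hVb⟩ := hV T hTT1
  have hL0 : 0 < Real.log T := Real.log_pos (by linarith)
  obtain ⟨U1, U2, hU1, hU1', hU2', hU2, hAct⟩ := hAc T hTT2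
  have hAt := hA lam T (by linarith) hT10 U1 U2 hU1 hU2
  refine ⟨U1, U2, hU1, hU1', hU2', hU2, ?_⟩
  set S := Zf riemannZeta U1 U2 with hS
  set L := Real.log T with hL
  set l := L / lam with hl
  have hl0 : 0 < l := by positivity
  set W := l / (2 * Real.pi) with hW
  have hW0 : 0 < W := by positivity
  set h := 2 * Real.pi * a / L with hh
  have hh0 : 0 < h := by positivity
  have hh7 : h ≤ 7 := by
    rw [hh, div_le_iff₀ hL0]
    nlinarith only [Real.pi_lt_d2, haL', hL0, ha0]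
  have hWh : W * lam * h = a := by
    rw [hW, hl, hh]; field_simp
  have hWh2 : W * h = a / lam := by
    rw [eq_div_iff hlam0.ne', ← hWh]; ring
  have hAB : T + L ≤ 2 * T - L - 7 := by linarith only [g4, hT0]
  have hVVc := VV_cont lam T
  -- the pieces
  set E : ℝ → ℝ := fun t => GS Qk S l t - GS Qk S l (t + h) - a with hE
  set J : ℝ → ℝ := fun t => GS Jk S l t - GS Jk S l (t + h) with hJd
  set D : ℝ → ℝ := fun t => Db l h (XT T) t with hDd
  have hQc := GSQ_cont S l
  have hqc := GSq_cont S l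
  have hEc : Continuous E := by simp only [hE]; fun_prop
  have hDc : Continuous D := Db_cont l h (XT T)
  have hNS : ∀ t, NS S h t - a = E t - J t := fun t => by
    rw [NS_eq S hl0 hh0.le t]
    simp only [hE, hJd]
    ring
  -- the remainder
  set R : ℝ → ℝ := fun t => E t + D t with hR
  have hRc : Continuous R := by simp only [hR]; fun_prop
  set DP : ℝ → ℝ := fun τ => 2 * (1 / Real.sqrt (2 * Real.pi)) * (DDo lamC l (XT T) τ).re with hDP
  have hDPc : Continuous DP := by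
    have := DDo_cont lamC l (XT T)
    simp only [hDP]
    exact continuous_const.mul (Complex.continuous_re.comp this)
  have hRint : ∀ t, R t = ∫ τ in t..(t + h), W * (GS qk S l τ - lam + DP τ) := by
    intro t
    simp only [hR, hE, hDd]
    rw [BS_eq S l h t, Db_eq l h (XT T) t]
    have e1 : ∀ τ, W * (GS qk S l τ - lam + DP τ) = W * GS qk S l τ - W * lam + W * DP τ :=
      fun τ => by ring
    simp_rw [e1]
    rw [intervalIntegral.integral_add (Continuous.intervalIntegrable (by fun_prop) _ _)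
      (Continuous.intervalIntegrable (by fun_prop) _ _),
      intervalIntegral.integral_sub (Continuous.intervalIntegrable (by fun_prop) _ _)
      (Continuous.intervalIntegrable (by fun_prop) _ _), intervalIntegral.integral_const,
      smul_eq_mul]
    have e2 : (t + h - t) * (W * lam) = a := by rw [← hWh]; ring
    rw [e2]
  have hRb : ∀ t ∈ Icc (T + L) (2 * T - L - 7), |R t| ≤ CE * a / L +
      (CA * Λ / W) * ∫ τ in t..(t + h), VV lam T τ := by
    intro t ht
    rw [hRint t]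
    refine (intervalIntegral.abs_integral_le_integral_abs (by linarith only [hh0])).trans ?_
    have h1 : ∫ τ in t..(t + h), |W * (GS qk S l τ - lam + DP τ)| ≤
        ∫ τ in t..(t + h), (W * (CE / L) + CA * Λ / W * VV lam T τ) := by
      refine intervalIntegral.integral_mono_on (by linarith only [hh0])
        (Continuous.intervalIntegrable (by fun_prop) _ _)
        (Continuous.intervalIntegrable (by fun_prop) _ _) fun τ hτ => ?_
      rw [abs_mul, abs_of_pos hW0]
      have h2 := hAct τ (by linarith only [ht.1, hτ.1]) (by linarith only [ht.2, hτ.2, hh7])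
      have h3 := hAt τ
      have h4 : |GS qk S l τ - lam + DP τ| ≤ CA / W ^ 2 * Λ * VV lam T τ + CE / L := by
        have e3 : GS qk S l τ - lam + DP τ = (GS qk S l τ - 2 * (HTo l U1 U2 τ).re) +
            (2 * (HTo l U1 U2 τ).re - (lam - DP τ)) := by ring
        rw [e3]
        exact (abs_add_le _ _).trans (add_le_add h3 h2)
      calc W * |GS qk S l τ - lam + DP τ| ≤ W * (CA / W ^ 2 * Λ * VV lam T τ + CE / L) :=
            mul_le_mul_of_nonneg_left h4 hW0.le
        _ = _ := by field_simp; ring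
    refine h1.trans ?_
    rw [intervalIntegral.integral_add (Continuous.intervalIntegrable (by fun_prop) _ _)
      (Continuous.intervalIntegrable (by fun_prop) _ _), intervalIntegral.integral_const,
      intervalIntegral.integral_const_mul, smul_eq_mul]
    have e4 : (t + h - t) * (W * (CE / L)) = CE * a / L / lam := by
      have : (t + h - t) * (W * (CE / L)) = (W * h) * (CE / L) := by ring
      rw [this, hWh2]; field_simp
    rw [e4]
    have e5 : CE * a / L / lam ≤ CE * a / L := div_le_self (by positivity) (by linarith only [hlam])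
    linarith only [e5]
  have hRes := hRest hAB hh0.le hRc hVVc hVi hRb
  refine ⟨R, hRc, fun t => ?_, ?_⟩
  · rw [hNS t]
    simp only [hR, hDd, hJd]
    ring
  · refine hRes.trans ?_
    have e1 : (CE * a / L) ^ 2 * (2 * T - L - 7 - (T + L)) ≤ (CE * a) ^ 2 / L ^ 2 * T := by
      rw [div_pow]
      apply mul_le_mul_of_nonneg_left _ (by positivity)
      linarith only [hT0, hL0]
    have e3 : (CA * Λ / W) ^ 2 * h ^ (2 - 1) * (h * ∫ t, VV lam T t ^ 2) ≤
        (CA * Λ * (4 * Real.pi ^ 2 * lam * a)) ^ 2 / L ^ 4 * (CV * T) := by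
      have e2 : h / W = 4 * Real.pi ^ 2 * lam * a / L ^ 2 := by
        rw [hW, hl, hh]; field_simp; ring
      have hI0 : 0 ≤ ∫ t, VV lam T t ^ 2 := integral_nonneg fun t => sq_nonneg _
      calc (CA * Λ / W) ^ 2 * h ^ (2 - 1) * (h * ∫ t, VV lam T t ^ 2) =
          (CA * Λ * (h / W)) ^ 2 * ∫ t, VV lam T t ^ 2 := by
            norm_num
            ring
        _ ≤ (CA * Λ * (h / W)) ^ 2 * (CV * T) := mul_le_mul_of_nonneg_left hVb (sq_nonneg _)
        _ = _ := by rw [e2]; ring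
    have e5 : (CA * Λ * (4 * Real.pi ^ 2 * lam * a)) ^ 2 / L ^ 4 * (CV * T) ≤
        (CA * Λ * (4 * Real.pi ^ 2 * lam * a)) ^ 2 * CV / L * T := by
      have h6 : (1 : ℝ) / L ^ 4 ≤ 1 / L := by
        apply one_div_le_one_div_of_le hL0
        calc L = L ^ 1 := (pow_one L).symm
          _ ≤ L ^ 4 := pow_le_pow_right₀ hL1 (by norm_num)
      calc _ = (CA * Λ * (4 * Real.pi ^ 2 * lam * a)) ^ 2 * (CV * T) * (1 / L ^ 4) := by ring
        _ ≤ (CA * Λ * (4 * Real.pi ^ 2 * lam * a)) ^ 2 * (CV * T) * (1 / L) :=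
            mul_le_mul_of_nonneg_left h6 (by positivity)
        _ = _ := by ring
    have e6 : (CE * a) ^ 2 / L ^ 2 * T ≤ (CE * a) ^ 2 / L * T := by
      apply mul_le_mul_of_nonneg_right _ hT0.le
      apply div_le_div_of_nonneg_left (sq_nonneg _) hL0
      nlinarith only [hL1]
    have e7 : 2 ^ 2 * ((CE * a) ^ 2 / L * T + (CA * Λ * (4 * Real.pi ^ 2 * lam * a)) ^ 2 * CV / L * T) = D1 / L * T := by
      rw [hD1]; ring
    have e8 : D1 / L ≤ δ := by
      rw [div_le_iff₀ hδ] at hLD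
      rw [div_le_iff₀ hL0]
      linarith
    calc _ ≤ 2 ^ 2 * ((CE * a) ^ 2 / L * T + (CA * Λ * (4 * Real.pi ^ 2 * lam * a)) ^ 2 * CV / L * T) := by
          apply mul_le_mul_of_nonneg_left _ (by norm_num)
          exact add_le_add (e1.trans e6) (e3.trans e5)
      _ = D1 / L * T := e7
      _ ≤ δ * T := mul_le_mul_of_nonneg_right e8 hT0.le

end Pool.Agent.U403.Max
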