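import Pool.Agent.U403.Max.Sec

/-! # Laplace transforms from finitely many moments -/

set_option autoImplicit false

open Filter Topology MeasureTheory Finset

namespace Pool.Agent.U403.Max

noncomputable section

/-- the truncated exponential -/
def Te (n : ℕ) (y : ℝ) : ℝ := ∑ m ∈ range n, y ^ m / m.factorial

lemma exp_hasSum (x : ℝ) : HasSum (fun n : ℕ => x ^ n / n.factorial) (Real.exp x) := by
  have := NormedSpace.expSeries_div_hasSum_exp x
  rwa [← Real.exp_eq_exp_ℝ] at this

lemma Te_le {x : ℝ} (hx : 0 ≤ x) (n : ℕ) : Te n x ≤ Real.exp x := by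
  unfold Te
  exact Real.sum_le_exp_of_nonneg hx n

/-- the remainder for nonnegative arguments -/
lemma Te_rem {x s : ℝ} (hx : 0 ≤ x) (hs : 1 ≤ s) (n : ℕ) :
    Real.exp x - Te n x ≤ Real.exp (s * x) / s ^ n := by
  have hs0 : 0 < s := by linarith
  rw [le_div_iff₀ (by positivity)]
  have h1 := (exp_hasSum (s * x)).sub ((exp_hasSum x).mul_left (s ^ n))
  have h2 : ∑ m ∈ range n, ((s * x) ^ m / m.factorial - s ^ n * (x ^ m / m.factorial)) ≤
      Real.exp (s * x) - s ^ n * Real.exp x := by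
    apply sum_le_hasSum _ _ h1
    intro m hm
    rw [Finset.mem_range, not_lt] at hm
    rw [mul_pow]
    have : s ^ n ≤ s ^ m := pow_le_pow_right₀ hs hm
    have h3 : 0 ≤ x ^ m / m.factorial := by positivity
    have h4 : s ^ m * x ^ m / m.factorial - s ^ n * (x ^ m / m.factorial) = (s ^ m - s ^ n) * (x ^ m / m.factorial) := by ring
    rw [h4]
    exact mul_nonneg (by linarith) h3
  rw [sum_sub_distrib, ← mul_sum] at h2
  have h3 : 0 ≤ ∑ m ∈ range n, (s * x) ^ m / (m.factorial : ℝ) := sum_nonneg fun m _ => by positivity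
  unfold Te
  nlinarith

/-- the remainder -/
lemma Te_abs (y : ℝ) (n : ℕ) : |Real.exp y - Te n y| ≤ Real.exp |y| - Te n |y| := by
  have h1 := (hasSum_nat_add_iff' n).2 (exp_hasSum y)
  have h2 := (hasSum_nat_add_iff' n).2 (exp_hasSum |y|)
  have h3 : ∀ m : ℕ, ‖y ^ (m + n) / ((m + n).factorial : ℝ)‖ ≤ |y| ^ (m + n) / ((m + n).factorial : ℝ) := by
    intro m
    rw [Real.norm_eq_abs, abs_div, abs_pow, abs_of_nonneg (a := ((m + n).factorial : ℝ)) (by positivity)]
  have h4 := tsum_of_norm_bounded h2 h3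
  rw [h1.tsum_eq] at h4
  exact h4

lemma Te_abs_rem {y V s : ℝ} (hy : |y| ≤ V) (hs : 1 ≤ s) (n : ℕ) :
    |Real.exp y - Te n y| ≤ Real.exp (s * V) / s ^ n := by
  refine (Te_abs y n).trans ((Te_rem (abs_nonneg y) hs n).trans ?_)
  have hs0 : 0 < s := by linarith
  apply div_le_div_of_nonneg_right _ (by positivity)
  apply Real.exp_le_exp.2
  exact mul_le_mul_of_nonneg_left hy hs0.le

/-- the moments of the centred normal law -/
def Gm (v : ℝ) (m : ℕ) : ℝ := if Even m then (m.factorial : ℝ) / (m / 2).factorial * (v / 2) ^ (m / 2) else 0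

lemma Gm_even (v : ℝ) (a : ℕ) : Gm v (2 * a) = ((2 * a).factorial : ℝ) / a.factorial * (v / 2) ^ a := by
  unfold Gm
  rw [if_pos (even_two_mul a), Nat.mul_div_cancel_left a (by norm_num)]

lemma Gm_odd (v : ℝ) (a : ℕ) : Gm v (2 * a + 1) = 0 := by
  unfold Gm
  rw [if_neg (by rw [Nat.not_even_iff_odd]; exact odd_two_mul_add_one a)]

lemma Gm_sum (v : ℝ) (M : ℕ) : ∑ m ∈ range (2 * M + 1), Gm v m / m.factorial = Te (M + 1) (v / 2) := by
  induction M with
  | zero => simp [Te, Gm]
  | succ M ih =>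
    have e : 2 * (M + 1) + 1 = 2 * M + 1 + 1 + 1 := by ring
    rw [e, sum_range_succ, sum_range_succ, ih, Gm_odd, zero_div, add_zero]
    have e2 : 2 * M + 1 + 1 = 2 * (M + 1) := by ring
    rw [e2, Gm_even]
    unfold Te
    rw [sum_range_succ _ (M + 1)]
    congr 1
    have h1 : ((2 * (M + 1)).factorial : ℝ) ≠ 0 := by positivity
    field_simp

variable {Ω : Type*} [MeasurableSpace Ω] {P : Measure Ω} [IsProbabilityMeasure P]

/-- The Cauchy-Schwarz inequality with an indicator -/
lemma cs_ind {f : Ω → ℝ} {B : Set Ω} (hB : MeasurableSet B) (h1 : Integrable f P)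
    (h2 : Integrable (fun ω => f ω ^ 2) P) : (∫ ω in B, |f ω| ∂P) ^ 2 ≤ (∫ ω, f ω ^ 2 ∂P) * P.real B := by
  have hquad : ∀ x : ℝ, 0 ≤ P.real B * (x * x) + (-2 * ∫ ω in B, |f ω| ∂P) * x + ∫ ω, f ω ^ 2 ∂P := by
    intro x
    have g1 : Integrable (B.indicator fun ω => |f ω|) P := h1.abs.indicator hB
    have g2 : Integrable (B.indicator (fun _ : Ω => x * x)) P := by
      rw [integrable_indicator_iff hB]
      exact integrableOn_const (measure_ne_top _ _)
    have g3 : Integrable (fun ω => 2 * x * (B.indicator (fun ω => |f ω|) ω)) P := g1.const_mul _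
    have g4 : Integrable (fun ω => f ω ^ 2 - 2 * x * (B.indicator (fun ω => |f ω|) ω)) P := h2.sub g3
    have h0 : 0 ≤ ∫ ω, (f ω ^ 2 - 2 * x * (B.indicator (fun ω => |f ω|) ω) + B.indicator (fun _ => x * x) ω) ∂P := by
      apply integral_nonneg
      intro ω
      simp only [Pi.zero_apply]
      by_cases hω : ω ∈ B
      · rw [Set.indicator_of_mem hω, Set.indicator_of_mem hω]
        have := sq_abs (f ω)
        nlinarith [sq_nonneg (|f ω| - x)]
      · rw [Set.indicator_of_notMem hω, Set.indicator_of_notMem hω]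
        nlinarith [sq_nonneg (f ω)]
    rw [integral_add g4 g2, integral_sub h2 g3, integral_const_mul, integral_indicator hB,
      integral_indicator hB, setIntegral_const, smul_eq_mul] at h0
    linarith
  have hdis := discrim_le_zero hquad
  unfold discrim at hdis
  nlinarith

/-- **the Laplace transform from finitely many moments** -/
theorem lap {Y : Ω → ℝ} {A : Set Ω} {V1 v δ s : ℝ} {M : ℕ} (hY : Measurable Y) (hA : MeasurableSet A)
    (hYA : ∀ ω ∈ A, |Y ω| ≤ V1) (hv : 0 ≤ v) (hδ : 0 ≤ δ) (hδ1 : δ ≤ 1) (hs : 1 ≤ s)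
    (hI : ∀ m ≤ 4 * M, Integrable (fun ω => Y ω ^ m) P)
    (hmom : ∀ m ≤ 4 * M, |∫ ω, Y ω ^ m ∂P - Gm v m| ≤ δ) :
    |∫ ω in A, Real.exp (Y ω) ∂P - Real.exp (v / 2)| ≤
      Real.exp (s * V1) / s ^ (2 * M + 1) + Real.exp (s * (v / 2)) / s ^ (M + 1) + 3 * δ +
        2 * (2 * M + 1) * Real.exp v * Real.sqrt (P.real Aᶜ) := by
  have hs0 : 0 < s := by linarith
  obtain ⟨n, hn⟩ : ∃ n : ℕ, n = 2 * M + 1 := ⟨_, rfl⟩
  obtain ⟨p, hp⟩ : ∃ p : ℝ, p = P.real Aᶜ := ⟨_, rfl⟩
  have hp0 : 0 ≤ p := by rw [hp]; exact measureReal_nonneg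
  have hTi : Integrable (fun ω => Te n (Y ω)) P := by
    unfold Te
    refine integrable_finsetSum _ fun m hm => ?_
    rw [Finset.mem_range] at hm
    exact (hI m (by omega)).div_const _
  have hEi : IntegrableOn (fun ω => Real.exp (Y ω)) A P := by
    refine bdd_int hA hY.exp (M := Real.exp V1) fun ω hω => ?_
    rw [abs_of_pos (Real.exp_pos _)]
    exact Real.exp_le_exp.2 (abs_le.1 (hYA ω hω)).2
  -- replacing the exponential by the polynomial
  have h1 : |∫ ω in A, Real.exp (Y ω) ∂P - ∫ ω in A, Te n (Y ω) ∂P| ≤ Real.exp (s * V1) / s ^ n := by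
    rw [← integral_sub hEi hTi.integrableOn]
    have g1 := norm_setIntegral_le_of_norm_le_const (μ := P) (s := A) (f := fun ω => Real.exp (Y ω) - Te n (Y ω))
      (C := Real.exp (s * V1) / s ^ n) (measure_lt_top _ _) (fun ω hω => by
        rw [Real.norm_eq_abs]
        exact Te_abs_rem (hYA ω hω) hs n)
    rw [Real.norm_eq_abs] at g1
    refine g1.trans ?_
    have g2 : P.real A ≤ 1 := measureReal_le_one
    have g3 : 0 ≤ Real.exp (s * V1) / s ^ n := by positivity
    nlinarith
  -- the integral of the polynomial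
  have h2 : |∫ ω, Te n (Y ω) ∂P - Te (M + 1) (v / 2)| ≤ 3 * δ := by
    have e1 : ∫ ω, Te n (Y ω) ∂P = ∑ m ∈ range n, (∫ ω, Y ω ^ m ∂P) / m.factorial := by
      unfold Te
      rw [integral_finsetSum _ fun m hm => ?_]
      · apply sum_congr rfl
        intro m _
        rw [integral_div]
      · rw [Finset.mem_range] at hm
        exact (hI m (by omega)).div_const _
    rw [e1, ← Gm_sum, ← hn, ← sum_sub_distrib]
    refine (abs_sum_le_sum_abs _ _).trans ?_
    have g1 : ∀ m ∈ range n, |(∫ ω, Y ω ^ m ∂P) / m.factorial - Gm v m / m.factorial| ≤ δ * (1 ^ m / m.factorial) := by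
      intro m hm
      rw [Finset.mem_range] at hm
      rw [← sub_div, abs_div, abs_of_nonneg (a := (m.factorial : ℝ)) (by positivity), one_pow, mul_one_div]
      exact div_le_div_of_nonneg_right (hmom m (by omega)) (by positivity)
    refine (sum_le_sum g1).trans ?_
    rw [← mul_sum, mul_comm]
    apply mul_le_mul_of_nonneg_right _ hδ
    have g2 := Te_le (x := 1) (by norm_num) n
    unfold Te at g2
    have := Real.exp_one_lt_d9
    linarith
  -- the complement
  have h3 : |∫ ω in Aᶜ, Te n (Y ω) ∂P| ≤ n * (2 * Real.exp v * Real.sqrt p) := by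
    have e1 : ∫ ω in Aᶜ, Te n (Y ω) ∂P = ∑ m ∈ range n, (∫ ω in Aᶜ, Y ω ^ m ∂P) / m.factorial := by
      unfold Te
      rw [integral_finsetSum _ fun m hm => ?_]
      · apply sum_congr rfl
        intro m _
        rw [integral_div]
      · rw [Finset.mem_range] at hm
        exact ((hI m (by omega)).div_const _).integrableOn
    rw [e1]
    refine (abs_sum_le_sum_abs _ _).trans ?_
    have g1 : ∀ m ∈ range n, |(∫ ω in Aᶜ, Y ω ^ m ∂P) / m.factorial| ≤ 2 * Real.exp v * Real.sqrt p := by
      intro m hm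
      rw [Finset.mem_range] at hm
      have hm0 : (0 : ℝ) < m.factorial := by positivity
      rw [abs_div, abs_of_nonneg hm0.le, div_le_iff₀ hm0]
      have g2 : |∫ ω in Aᶜ, Y ω ^ m ∂P| ≤ ∫ ω in Aᶜ, |Y ω ^ m| ∂P := by
        rw [← Real.norm_eq_abs]
        exact norm_integral_le_integral_norm _
      have e2 : ∀ ω, (Y ω ^ m) ^ 2 = Y ω ^ (2 * m) := fun ω => by rw [← pow_mul, mul_comm]
      have g3 := cs_ind (P := P) hA.compl (hI m (by omega)) (by simp only [e2]; exact hI (2 * m) (by omega))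
      simp only [e2] at g3
      have g4 := (abs_le.1 (hmom (2 * m) (by omega))).2
      have g5 : Gm v (2 * m) ≤ (m.factorial : ℝ) ^ 2 * Real.exp (2 * v) := by
        rw [Gm_even]
        have k1 : (2 * v) ^ m / m.factorial ≤ Real.exp (2 * v) := by
          have := Te_le (x := 2 * v) (by positivity) (m + 1)
          unfold Te at this
          rw [sum_range_succ] at this
          have k2 : 0 ≤ ∑ x ∈ range m, (2 * v) ^ x / (x.factorial : ℝ) := sum_nonneg fun _ _ => by positivity
          linarith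
        have k3 : ((2 * m).factorial : ℝ) ≤ 4 ^ m * (m.factorial : ℝ) ^ 2 := by
          have k4 : (2 * m).factorial ≤ 4 ^ m * m.factorial ^ 2 := by
            have k5 := Nat.add_choose_mul_factorial_mul_factorial m m
            have k6 : (m + m).choose m ≤ 4 ^ m := by
              have := Nat.choose_le_two_pow (m + m) m
              rw [← two_mul, pow_mul] at this
              rw [← two_mul]
              simpa using this
            rw [two_mul, ← k5, mul_assoc, ← sq]
            exact Nat.mul_le_mul_right _ k6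
          exact_mod_cast k4
        calc ((2 * m).factorial : ℝ) / m.factorial * (v / 2) ^ m ≤
            4 ^ m * (m.factorial : ℝ) ^ 2 / m.factorial * (v / 2) ^ m := by
              apply mul_le_mul_of_nonneg_right _ (by positivity)
              exact div_le_div_of_nonneg_right k3 hm0.le
          _ = (m.factorial : ℝ) ^ 2 * ((2 * v) ^ m / m.factorial) := by
              have k7 : (2 * v) ^ m = 4 ^ m * (v / 2) ^ m := by rw [← mul_pow]; congr 1; ring
              rw [k7]
              field_simp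
          _ ≤ _ := mul_le_mul_of_nonneg_left k1 (by positivity)
      have g6 : ∫ ω, Y ω ^ (2 * m) ∂P ≤ (2 * (m.factorial : ℝ) * Real.exp v) ^ 2 := by
        have k1 : (2 * (m.factorial : ℝ) * Real.exp v) ^ 2 = 4 * ((m.factorial : ℝ) ^ 2 * Real.exp (2 * v)) := by
          rw [two_mul v, Real.exp_add]; ring
        rw [k1]
        have k2 : 1 ≤ (m.factorial : ℝ) := by exact_mod_cast Nat.succ_le_of_lt (Nat.factorial_pos m)
        have k3 : 1 ≤ Real.exp (2 * v) := Real.one_le_exp (by positivity)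
        have k4 : 1 ≤ (m.factorial : ℝ) ^ 2 * Real.exp (2 * v) := by nlinarith [sq_nonneg ((m.factorial : ℝ) - 1)]
        linarith
      have g7 : (∫ ω in Aᶜ, |Y ω ^ m| ∂P) ^ 2 ≤ (2 * (m.factorial : ℝ) * Real.exp v * Real.sqrt p) ^ 2 := by
        rw [mul_pow _ (Real.sqrt p), Real.sq_sqrt hp0]
        refine g3.trans ?_
        rw [← hp]
        exact mul_le_mul_of_nonneg_right g6 hp0
      have g8 := abs_le_of_sq_le_sq' g7 (by positivity)
      calc |∫ ω in Aᶜ, Y ω ^ m ∂P| ≤ 2 * (m.factorial : ℝ) * Real.exp v * Real.sqrt p := g2.trans g8.2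
        _ = _ := by ring
    refine (sum_le_sum g1).trans (le_of_eq ?_)
    rw [sum_const, card_range, nsmul_eq_mul]
  have h4 : |Te (M + 1) (v / 2) - Real.exp (v / 2)| ≤ Real.exp (s * (v / 2)) / s ^ (M + 1) := by
    rw [abs_sub_comm, abs_of_nonneg (by linarith [Te_le (x := v / 2) (by positivity) (M + 1)])]
    exact Te_rem (by positivity) hs _
  have h5 : ∫ ω in A, Te n (Y ω) ∂P + ∫ ω in Aᶜ, Te n (Y ω) ∂P = ∫ ω, Te n (Y ω) ∂P :=
    integral_add_compl hA hTi
  have hn' : (n : ℝ) = 2 * M + 1 := by rw [hn]; push_cast; ring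
  rw [← hp]
  rw [hn'] at h3
  rw [← hn]
  have k1 := abs_le.1 h1
  have k2 := abs_le.1 h2
  have k3 := abs_le.1 h3
  have k4 := abs_le.1 h4
  rw [abs_le]
  constructor <;> linarith [k1.1, k1.2, k2.1, k2.2, k3.1, k3.2, k4.1, k4.2]

end

end Pool.Agent.U403.Max
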