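import Pool.Agent.U403.Max.Tail

/-! # The Laplace transforms of the level fields -/

set_option autoImplicit false

open Filter Topology MeasureTheory Set
open Pool.Agent.Y743.CL
open Pool.Agent.R320.JL

namespace Pool.Agent.U403.Max

noncomputable section

/-- the weight of a prime -/
def wt (J : ℕ) (I : ℕ → Finset ℕ) (a : ℕ → ℝ) (p : ℕ) : ℝ := ∑ j ∈ Finset.range J, if p ∈ I j then a j else 0

lemma wt_map {J : ℕ} {I : ℕ → Finset ℕ} (hd : ∀ i < J, ∀ j < J, i ≠ j → Disjoint (I i) (I j)) (a : ℕ → ℝ)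
    (F : ℝ → ℝ) (hF : F 0 = 0) (p : ℕ) : F (wt J I a p) = ∑ j ∈ Finset.range J, if p ∈ I j then F (a j) else 0 := by
  unfold wt
  by_cases h : ∃ j ∈ Finset.range J, p ∈ I j
  · obtain ⟨j, hj, hp⟩ := h
    have h0 : ∀ i ∈ Finset.range J, i ≠ j → p ∉ I i := by
      intro i hi hij hpi
      have := hd i (Finset.mem_range.1 hi) j (Finset.mem_range.1 hj) hij
      exact (Finset.disjoint_left.1 this) hpi hp
    rw [Finset.sum_eq_single j (fun i hi hij => if_neg (h0 i hi hij)) (fun h => absurd hj h),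
      Finset.sum_eq_single j (fun i hi hij => if_neg (h0 i hi hij)) (fun h => absurd hj h), if_pos hp, if_pos hp]
  · push Not at h
    rw [Finset.sum_eq_zero fun j hj => if_neg (h j hj), Finset.sum_eq_zero fun j hj => if_neg (h j hj), hF]

lemma wt_sum {J : ℕ} {I : ℕ → Finset ℕ} {X : ℕ} (hI : ∀ j < J, I j ⊆ Pr X) (a : ℕ → ℝ) (f : ℕ → ℝ) :
    ∑ p ∈ Pr X, wt J I a p * f p = ∑ j ∈ Finset.range J, a j * ∑ p ∈ I j, f p := by
  unfold wt
  simp only [Finset.sum_mul]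
  rw [Finset.sum_comm]
  refine Finset.sum_congr rfl fun j hj => ?_
  rw [Finset.mul_sum, ← Finset.sum_subset (hI j (Finset.mem_range.1 hj))]
  · refine Finset.sum_congr rfl fun p hp => ?_
    rw [if_pos hp]
  · intro p _ hp
    rw [if_neg hp, zero_mul]

/-- half the variance -/
def vI (l : ℝ) (I : Finset ℕ) : ℝ := (∑ p ∈ I, be l p ^ 2) / 2

/-- the covariance -/
def cI (l : ℝ) (I : Finset ℕ) (x : ℝ) : ℝ := (∑ p ∈ I, be l p ^ 2 * Real.cos (x * Real.log p)) / 2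

lemma vI_nonneg (l : ℝ) (I : Finset ℕ) : 0 ≤ vI l I := by
  unfold vI
  positivity

lemma cI_zero (l : ℝ) (I : Finset ℕ) : cI l I 0 = vI l I := by
  unfold cI vI
  simp

lemma cI_le (l : ℝ) (I : Finset ℕ) (x : ℝ) : cI l I x ≤ vI l I := by
  unfold cI vI
  apply div_le_div_of_nonneg_right _ (by norm_num)
  refine Finset.sum_le_sum fun p _ => ?_
  have := Real.cos_le_one (x * Real.log p)
  have h2 := sq_nonneg (be l p)
  nlinarith

lemma cI_ge (l : ℝ) (I : Finset ℕ) (x : ℝ) : 0 ≤ vI l I + cI l I x := by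
  unfold cI vI
  rw [← add_div, ← Finset.sum_add_distrib]
  apply div_nonneg _ (by norm_num)
  refine Finset.sum_nonneg fun p _ => ?_
  have := Real.neg_one_le_cos (x * Real.log p)
  have h2 := sq_nonneg (be l p)
  nlinarith

/-- the coefficients of a linear combination at two heights -/
def zY (l : ℝ) (α : ℕ → ℝ) (h h' : ℝ) (p : ℕ) : ℂ :=
  -(Complex.I * ((α p * be l p : ℝ) : ℂ)) * (((p : ℂ) ^ (-(h : ℂ) * Complex.I)) + ((p : ℂ) ^ (-(h' : ℂ) * Complex.I)))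

lemma cpow_mul_add {p : ℕ} (hp : p ≠ 0) (s t : ℝ) : (p : ℂ) ^ (-(s : ℂ) * Complex.I) * (p : ℂ) ^ (-(t : ℂ) * Complex.I) =
    (p : ℂ) ^ (-((t + s : ℝ) : ℂ) * Complex.I) := by
  have hp0 : (p : ℂ) ≠ 0 := by exact_mod_cast hp
  rw [← Complex.cpow_add _ _ hp0]
  congr 1
  push_cast
  ring

lemma zY_re (l : ℝ) (α : ℕ → ℝ) (h h' : ℝ) (X : ℕ) (t : ℝ) :
    (PP (zY l α h h') X t).re = ∑ p ∈ Pr X, α p * (-(be l p * Real.sin ((t + h) * Real.log p)) +
      -(be l p * Real.sin ((t + h') * Real.log p))) := by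
  unfold PP
  rw [Complex.re_sum]
  refine Finset.sum_congr rfl fun p hp => ?_
  have hp' := mem_Pr.1 hp
  unfold zY
  rw [mul_assoc, add_mul, cpow_mul_add hp'.1.ne_zero, cpow_mul_add hp'.1.ne_zero, cpow_re_im hp'.1.ne_zero,
    cpow_re_im hp'.1.ne_zero]
  rw [show -(Complex.I * ((α p * be l p : ℝ) : ℂ)) * ((Real.cos ((t + h) * Real.log p) : ℂ) -
      Complex.I * (Real.sin ((t + h) * Real.log p) : ℂ) + ((Real.cos ((t + h') * Real.log p) : ℂ) -
      Complex.I * (Real.sin ((t + h') * Real.log p) : ℂ))) =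
      ((α p * (-(be l p * Real.sin ((t + h) * Real.log p)) + -(be l p * Real.sin ((t + h') * Real.log p))) : ℝ) : ℂ) +
      Complex.I * ((-(α p * be l p) * (Real.cos ((t + h) * Real.log p) + Real.cos ((t + h') * Real.log p)) : ℝ) : ℂ) by
    generalize Real.sin ((t + h) * Real.log p) = s1
    generalize Real.sin ((t + h') * Real.log p) = s2
    generalize Real.cos ((t + h) * Real.log p) = c1
    generalize Real.cos ((t + h') * Real.log p) = c2
    push_cast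
    linear_combination ((α p : ℂ) * (be l p : ℂ) * ((s1 : ℂ) + (s2 : ℂ))) * Complex.I_sq]
  rw [Complex.add_re, Complex.ofReal_re, Complex.I_mul_re, Complex.ofReal_im]
  ring

lemma zY_sq (l : ℝ) (α : ℕ → ℝ) (h h' : ℝ) {p : ℕ} (hp : p ≠ 0) :
    ‖zY l α h h' p‖ ^ 2 = 2 * (α p ^ 2 * (be l p ^ 2 + be l p ^ 2 * Real.cos ((h - h') * Real.log p))) := by
  unfold zY
  rw [norm_mul, mul_pow, norm_neg, norm_mul, Complex.norm_I, one_mul, Complex.norm_real, Real.norm_eq_abs, sq_abs,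
    cpow_re_im hp, cpow_re_im hp]
  rw [show ((Real.cos (h * Real.log p) : ℂ) - Complex.I * (Real.sin (h * Real.log p) : ℂ) +
      ((Real.cos (h' * Real.log p) : ℂ) - Complex.I * (Real.sin (h' * Real.log p) : ℂ))) =
      ((Real.cos (h * Real.log p) + Real.cos (h' * Real.log p) : ℝ) : ℂ) +
      ((-(Real.sin (h * Real.log p) + Real.sin (h' * Real.log p)) : ℝ) : ℂ) * Complex.I by push_cast; ring]
  rw [Complex.sq_norm, Complex.normSq_add_mul_I]
  have e : (h - h') * Real.log p = h * Real.log p - h' * Real.log p := by ring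
  rw [e, Real.cos_sub]
  have h1 := Real.sin_sq_add_cos_sq (h * Real.log p)
  have h2 := Real.sin_sq_add_cos_sq (h' * Real.log p)
  linear_combination (α p * be l p) ^ 2 * (h1 + h2)

lemma zY_bd (l : ℝ) (α : ℕ → ℝ) (h h' : ℝ) (p : ℕ) : ‖zY l α h h' p‖ ^ 2 ≤ 4 * (α p ^ 2 * be l p ^ 2) := by
  rcases Nat.eq_zero_or_pos p with hp | hp
  · have hb : be l 0 = 0 := by unfold be; simp
    unfold zY
    rw [hp, hb, mul_zero, Complex.ofReal_zero, mul_zero, neg_zero, zero_mul, norm_zero]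
    simp
  · rw [zY_sq l α h h' (by omega)]
    have := Real.cos_le_one ((h - h') * Real.log p)
    have h2 : 0 ≤ α p ^ 2 * be l p ^ 2 := by positivity
    nlinarith

variable {J r M : ℕ} {I : ℕ → Finset ℕ} {X : ℕ}

lemma zY_VS (l : ℝ) (hI : ∀ j < J, I j ⊆ Pr X) (hd : ∀ i < J, ∀ j < J, i ≠ j → Disjoint (I i) (I j))
    (α : ℕ → ℝ) (h h' : ℝ) : VS (nz (zY l (wt J I α) h h')) X =
      4 * ∑ j ∈ Finset.range J, α j ^ 2 * (vI l (I j) + cI l (I j) (h - h')) := by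
  unfold VS nz
  have h1 : ∀ p ∈ Pr X, ‖zY l (wt J I α) h h' p‖ ^ 2 =
      wt J I (fun j => α j ^ 2) p * (2 * (be l p ^ 2 + be l p ^ 2 * Real.cos ((h - h') * Real.log p))) := by
    intro p hp
    rw [zY_sq l _ h h' (mem_Pr.1 hp).1.ne_zero]
    have := wt_map hd α (fun x => x ^ 2) (by norm_num) p
    rw [this]
    unfold wt
    ring
  rw [Finset.sum_congr rfl h1, wt_sum hI, Finset.mul_sum]
  refine Finset.sum_congr rfl fun j _ => ?_
  unfold vI cI
  rw [← Finset.mul_sum, Finset.sum_add_distrib]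
  ring

lemma zY_comb (l : ℝ) (hI : ∀ j < J, I j ⊆ Pr X) (α : ℕ → ℝ) (h h' t : ℝ) :
    (PP (zY l (wt J I α) h h') X t).re =
      ∑ j ∈ Finset.range J, α j * (fld l (I j) (t + h) + fld l (I j) (t + h')) := by
  rw [zY_re, wt_sum hI]
  refine Finset.sum_congr rfl fun j _ => ?_
  unfold fld
  rw [Finset.sum_add_distrib, Finset.sum_neg_distrib, Finset.sum_neg_distrib]

lemma wt_bd (hd : ∀ i < J, ∀ j < J, i ≠ j → Disjoint (I i) (I j)) {α : ℕ → ℝ} {amax : ℝ}
    (hα : ∀ j, |α j| ≤ amax) {B0 l : ℝ} (hB : ∀ j < J, ∀ p ∈ I j, be l p ^ 2 ≤ B0) (hB0 : 0 ≤ B0) (p : ℕ) :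
    wt J I α p ^ 2 * be l p ^ 2 ≤ amax ^ 2 * B0 := by
  by_cases h : ∃ j ∈ Finset.range J, p ∈ I j
  · obtain ⟨j, hj, hp⟩ := h
    have h0 : ∀ i ∈ Finset.range J, i ≠ j → p ∉ I i := by
      intro i hi hij hpi
      have := hd i (Finset.mem_range.1 hi) j (Finset.mem_range.1 hj) hij
      exact (Finset.disjoint_left.1 this) hpi hp
    have e : wt J I α p = α j := by
      unfold wt
      rw [Finset.sum_eq_single j (fun i hi hij => if_neg (h0 i hi hij)) (fun h => absurd hj h), if_pos hp]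
    rw [e]
    exact mul_le_mul (sq_le_sq' (neg_le_of_abs_le (hα j)) (le_of_abs_le (hα j))) (hB j (Finset.mem_range.1 hj) p hp)
      (sq_nonneg _) (sq_nonneg _)
  · push Not at h
    have e : wt J I α p = 0 := by
      unfold wt
      exact Finset.sum_eq_zero fun j hj => if_neg (h j hj)
    rw [e]
    simp
    positivity

/-- **the Laplace transforms of the level fields** -/
theorem lev_lap {l T D K δ amax V0 s B0 : ℝ} {hh : ℕ → ℝ} {A : Set ℝ} (hA : MeasurableSet A)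
    (hI : ∀ j < J, I j ⊆ Pr X) (hd : ∀ i < J, ∀ j < J, i ≠ j → Disjoint (I i) (I j))
    (hT : D ≤ T) (hD1 : 1 ≤ D)
    (hD : ∀ (z : ℕ → ℂ) (X : ℕ) (T : ℝ), D ≤ T → 1 ≤ X → (∀ p, ‖z p‖ ^ 2 ≤ 1 / D) →
      ((X ^ (4 * M) : ℕ) : ℝ) ≤ Real.sqrt T → VS (nz z) X ≤ K →
      ∀ m ≤ 4 * M, |∫ t, (PP z X t).re ^ m ∂(PT T) - Gm (VS (nz z) X / 2) m| ≤ δ)
    (hX : 1 ≤ X) (hXT : ((X ^ (4 * M) : ℕ) : ℝ) ≤ Real.sqrt T)
    (hB : ∀ j < J, ∀ p ∈ I j, be l p ^ 2 ≤ B0) (hB0 : 0 ≤ B0) (hBD : 4 * (amax ^ 2 * B0) ≤ 1 / D)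
    (hK : 8 * amax ^ 2 * ∑ j ∈ Finset.range J, vI l (I j) ≤ K)
    (hAV : ∀ t ∈ A, ∀ j < J, ∀ b < r, |fld l (I j) (t + hh b)| ≤ V0)
    (hδ : 0 ≤ δ) (hδ1 : δ ≤ 1) (hs : 1 ≤ s) (ham : 0 ≤ amax)
    (α : ℕ → ℝ) (hα : ∀ j, |α j| ≤ amax) {b b' : ℕ} (hb : b < r) (hb' : b' < r) :
    |∫ t in A, Real.exp (∑ j ∈ Finset.range J, α j * (fld l (I j) (t + hh b) + fld l (I j) (t + hh b'))) ∂(PT T) -
      Real.exp (∑ j ∈ Finset.range J, α j ^ 2 * (vI l (I j) + cI l (I j) (hh b - hh b')))| ≤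
      Real.exp (s * (J * (amax * (2 * V0)))) / s ^ (2 * M + 1) + Real.exp (s * (K / 4)) / s ^ (M + 1) + 3 * δ +
        2 * (2 * M + 1) * Real.exp (K / 2) * Real.sqrt ((PT T).real Aᶜ) := by
  have hT0 : 0 < T := by linarith
  have := PT_univ hT0
  obtain ⟨z, hz⟩ : ∃ z : ℕ → ℂ, z = zY l (wt J I α) (hh b) (hh b') := ⟨_, rfl⟩
  have hVS := zY_VS l hI hd α (hh b) (hh b')
  rw [← hz] at hVS
  obtain ⟨S, hS⟩ : ∃ S : ℝ, S = ∑ j ∈ Finset.range J, α j ^ 2 * (vI l (I j) + cI l (I j) (hh b - hh b')) := ⟨_, rfl⟩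
  rw [← hS] at hVS ⊢
  have hS0 : 0 ≤ S := by
    rw [hS]
    exact Finset.sum_nonneg fun j _ => mul_nonneg (sq_nonneg _) (cI_ge _ _ _)
  have hSK : 4 * S ≤ K := by
    refine le_trans ?_ hK
    rw [hS, Finset.mul_sum, Finset.mul_sum]
    refine Finset.sum_le_sum fun j _ => ?_
    have h1 : α j ^ 2 ≤ amax ^ 2 := sq_le_sq' (neg_le_of_abs_le (hα j)) (le_of_abs_le (hα j))
    have h2 := cI_le l (I j) (hh b - hh b')
    have h3 := cI_ge l (I j) (hh b - hh b')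
    have h4 : α j ^ 2 * (vI l (I j) + cI l (I j) (hh b - hh b')) ≤ amax ^ 2 * (vI l (I j) + vI l (I j)) :=
      mul_le_mul h1 (by linarith) h3 (sq_nonneg _)
    linarith
  have hzb : ∀ p, ‖z p‖ ^ 2 ≤ 1 / D := by
    intro p
    rw [hz]
    refine (zY_bd _ _ _ _ _).trans (le_trans ?_ hBD)
    have := wt_bd hd hα hB hB0 p
    linarith
  have hmom := hD z X T hT hX hzb hXT (by rw [hVS]; exact hSK)
  have hPc := PP_cont z X
  have hre : Continuous fun t => (PP z X t).re := Complex.continuous_re.comp hPc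
  have hYA : ∀ t ∈ A, |(PP z X t).re| ≤ J * (amax * (2 * V0)) := by
    intro t ht
    rw [hz, zY_comb l hI]
    refine (Finset.abs_sum_le_sum_abs _ _).trans ?_
    have h1 : ∀ j ∈ Finset.range J, |α j * (fld l (I j) (t + hh b) + fld l (I j) (t + hh b'))| ≤ amax * (2 * V0) := by
      intro j hj
      rw [abs_mul]
      have a1 := hAV t ht j (Finset.mem_range.1 hj) b hb
      have a2 := hAV t ht j (Finset.mem_range.1 hj) b' hb'
      have a3 := abs_add_le (fld l (I j) (t + hh b)) (fld l (I j) (t + hh b'))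
      exact mul_le_mul (hα j) (by linarith) (abs_nonneg _) ham
    refine (Finset.sum_le_sum h1).trans (le_of_eq ?_)
    rw [Finset.sum_const, Finset.card_range, nsmul_eq_mul]
  have hv0 : 0 ≤ VS (nz z) X / 2 := by rw [hVS]; positivity
  have key := lap (P := PT T) (Y := fun t => (PP z X t).re) (A := A) (V1 := J * (amax * (2 * V0)))
    (v := VS (nz z) X / 2) (δ := δ) (s := s) (M := M) hre.measurable hA hYA hv0 hδ hδ1 hs
    (fun m _ => PT_integrable hT0 (hre.pow m)) hmom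
  have e1 : VS (nz z) X / 2 / 2 = S := by rw [hVS]; ring
  rw [e1] at key
  have e2 : ∀ t, ∑ j ∈ Finset.range J, α j * (fld l (I j) (t + hh b) + fld l (I j) (t + hh b')) =
      (PP z X t).re := by
    intro t
    rw [hz, zY_comb l hI]
  simp only [e2]
  refine key.trans ?_
  have g1 : Real.exp (s * S) / s ^ (M + 1) ≤ Real.exp (s * (K / 4)) / s ^ (M + 1) := by
    apply div_le_div_of_nonneg_right _ (by positivity)
    apply Real.exp_le_exp.2
    apply mul_le_mul_of_nonneg_left _ (by linarith)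
    linarith
  have g2 : Real.exp (VS (nz z) X / 2) ≤ Real.exp (K / 2) := by
    apply Real.exp_le_exp.2
    rw [hVS]
    linarith
  have g3 : 2 * (2 * (M : ℝ) + 1) * Real.exp (VS (nz z) X / 2) * Real.sqrt ((PT T).real Aᶜ) ≤
      2 * (2 * M + 1) * Real.exp (K / 2) * Real.sqrt ((PT T).real Aᶜ) := by
    gcongr
  linarith

/-- the set where the levels are bounded -/
def Ab (l : ℝ) (J r : ℕ) (I : ℕ → Finset ℕ) (hh : ℕ → ℝ) (V0 : ℝ) : Set ℝ :=
  {t | ∀ j < J, ∀ b < r, |fld l (I j) (t + hh b)| < V0}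

lemma Ab_meas (l : ℝ) (J r : ℕ) (I : ℕ → Finset ℕ) (hh : ℕ → ℝ) (V0 : ℝ) : MeasurableSet (Ab l J r I hh V0) := by
  have : Ab l J r I hh V0 = ⋂ j ∈ Finset.range J, ⋂ b ∈ Finset.range r, {t | |fld l (I j) (t + hh b)| < V0} := by
    ext t
    simp [Ab]
  rw [this]
  refine Finset.measurableSet_biInter _ fun j _ => Finset.measurableSet_biInter _ fun b _ => ?_
  exact measurableSet_lt ((fld_cont l (I j)).measurable.comp (measurable_id.add_const (hh b))).abs measurable_const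

lemma Ab_compl {l T V V0 : ℝ} {hh : ℕ → ℝ} (hI : ∀ j < J, I j ⊆ Pr X) (hX : 1 ≤ X) (hT : 1 ≤ T) (k : ℕ)
    (hXT : ((X ^ (k + k) : ℕ) : ℝ) ≤ Real.sqrt T) (hV : ∀ j < J, ∑ p ∈ I j, be l p ^ 2 ≤ V) (hV0 : 0 < V0) :
    (PT T).real (Ab l J r I hh V0)ᶜ ≤ J * (r * (17 * (k.factorial * V ^ k) / V0 ^ (2 * k))) := by
  have hT0 : 0 < T := by linarith
  have := PT_univ hT0
  have h1 : (Ab l J r I hh V0)ᶜ ⊆ ⋃ j ∈ Finset.range J, ⋃ b ∈ Finset.range r, {t | V0 ≤ |fld l (I j) (t + hh b)|} := by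
    intro t ht
    simp only [Ab, Set.mem_compl_iff, Set.mem_ofPred_eq, not_forall, not_lt] at ht
    obtain ⟨j, hj, b, hb, h⟩ := ht
    simp only [Set.mem_iUnion, Finset.mem_range]
    exact ⟨j, hj, b, hb, h⟩
  refine (measureReal_mono h1 (measure_ne_top _ _)).trans ?_
  refine (measureReal_biUnion_finset_le _ _).trans ?_
  have h2 : ∀ j ∈ Finset.range J, (PT T).real (⋃ b ∈ Finset.range r, {t | V0 ≤ |fld l (I j) (t + hh b)|}) ≤
      r * (17 * (k.factorial * V ^ k) / V0 ^ (2 * k)) := by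
    intro j hj
    rw [Finset.mem_range] at hj
    refine (measureReal_biUnion_finset_le _ _).trans ?_
    refine (Finset.sum_le_sum fun b _ => fld_tail l (hI j hj) hX T (hh b) V V0 hT k hXT (hV j hj) hV0).trans ?_
    rw [Finset.sum_const, Finset.card_range, nsmul_eq_mul]
  refine (Finset.sum_le_sum h2).trans ?_
  rw [Finset.sum_const, Finset.card_range, nsmul_eq_mul]

end

end Pool.Agent.U403.Max
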