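import Pool.Agent.U403.Max.Cov
import Pool.Agent.U403.Max.Lev

/-! # The variances and covariances of the levels -/

set_option autoImplicit false

open Filter Topology MeasureTheory Set
open Pool.Agent.Y743.CL
open Pool.Agent.R320.JL
open Pool.Agent.TH850.UV (ggo ggo_le ggo_low ggo_nonneg)

namespace Pool.Agent.U403.Max

noncomputable section

/-- the primes between two powers of `T` -/
def PI (T u v : ℝ) : Finset ℕ := (Finset.Ioc (XK (Real.exp (-u)) T) (XK (Real.exp (-v)) T)).filter Nat.Prime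

lemma XK_mono {a b T : ℝ} (hT : 1 ≤ T) (h : a ≤ b) : XK a T ≤ XK b T := by
  unfold XK
  exact Nat.floor_le_floor (Real.rpow_le_rpow_of_exponent_le hT h)

lemma PI_sub {T u v w : ℝ} (hT : 1 ≤ T) (h : w ≤ v) : PI T u v ⊆ Pr (XK (Real.exp (-w)) T) := by
  intro p hp
  unfold PI at hp
  rw [Finset.mem_filter, Finset.mem_Ioc] at hp
  rw [mem_Pr]
  exact ⟨hp.2, hp.1.2.trans (XK_mono hT (Real.exp_le_exp.2 (by linarith)))⟩

lemma XK_log {κ : ℝ} (hκ : 0 < κ) : ∀ᶠ T : ℝ in atTop, κ * Real.log T - Real.log 2 ≤ Real.log (XK κ T) ∧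
    Real.log (XK κ T) ≤ κ * Real.log T ∧ 3 ≤ XK κ T := by
  have h1 : Tendsto (fun T : ℝ => T ^ κ) atTop atTop := tendsto_rpow_atTop hκ
  filter_upwards [h1.eventually_ge_atTop 4, eventually_ge_atTop 1] with T hT hT1
  have hT0 : 0 < T := by linarith
  have h2 : (XK κ T : ℝ) ≤ T ^ κ := Nat.floor_le (by positivity)
  have h3 : T ^ κ < XK κ T + 1 := Nat.lt_floor_add_one _
  have h4 : (3 : ℝ) < XK κ T := by linarith
  have h5 : Real.log (T ^ κ) = κ * Real.log T := Real.log_rpow hT0 κ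
  refine ⟨?_, ?_, ?_⟩
  · rw [← h5, ← Real.log_div (by positivity) (by norm_num)]
    apply Real.log_le_log (by positivity)
    linarith
  · rw [← h5]
    exact Real.log_le_log (by linarith) h2
  · have : (3 : ℝ) ≤ XK κ T := h4.le
    exact_mod_cast this

/-- Mertens' theorem on a range -/
lemma pr2 : ∃ C : ℝ, 0 ≤ C ∧ ∀ X N : ℕ, 3 ≤ X → X ≤ N →
    |∑ p ∈ (Finset.Ioc X N).filter Nat.Prime, (1 : ℝ) / p -
      (Real.log (Real.log N) - Real.log (Real.log X))| ≤ C := by
  obtain ⟨C, hC⟩ := Pool.Agent.Helper256.KM.mertens_inv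
  have hC0 : 0 ≤ C := (abs_nonneg _).trans (hC 3 le_rfl)
  refine ⟨2 * C, by positivity, fun X N hX hXN => ?_⟩
  have h1 := abs_le.1 (hC X hX)
  have h2 := abs_le.1 (hC N (hX.trans hXN))
  have h3 : ∑ p ∈ (Finset.Icc 1 N).filter Nat.Prime, (1 : ℝ) / p =
      ∑ p ∈ (Finset.Icc 1 X).filter Nat.Prime, (1 : ℝ) / p +
      ∑ p ∈ (Finset.Ioc X N).filter Nat.Prime, (1 : ℝ) / p := by
    rw [← Finset.sum_union]
    · congr 1
      ext p
      simp only [Finset.mem_filter, Finset.mem_Icc, Finset.mem_Ioc, Finset.mem_union]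
      constructor
      · rintro ⟨⟨h1, h2⟩, h3⟩
        rcases le_or_gt p X with h | h
        · exact Or.inl ⟨⟨h1, h⟩, h3⟩
        · exact Or.inr ⟨⟨h, h2⟩, h3⟩
      · rintro (⟨⟨h1, h2⟩, h3⟩ | ⟨⟨h1, h2⟩, h3⟩)
        · exact ⟨⟨h1, h2.trans hXN⟩, h3⟩
        · exact ⟨⟨by omega, h2⟩, h3⟩
    · rw [Finset.disjoint_left]
      intro p hp hp2
      simp only [Finset.mem_filter, Finset.mem_Icc, Finset.mem_Ioc] at hp hp2
      omega
  rw [abs_le]
  constructor <;> linarith [h1.1, h1.2, h2.1, h2.2]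

lemma loglog {κ : ℝ} (hκ : 0 < κ) : ∀ᶠ T : ℝ in atTop,
    |Real.log (Real.log (XK κ T)) - (Real.log κ + Real.log (Real.log T))| ≤ 1 := by
  filter_upwards [XK_log hκ, Real.tendsto_log_atTop.eventually_ge_atTop (4 / κ)] with T hT hL
  have hL0 : 0 < Real.log T := lt_of_lt_of_le (by positivity) hL
  have h0 : 4 ≤ κ * Real.log T := by
    rw [div_le_iff₀ hκ] at hL
    linarith
  have hl2 := Real.log_two_lt_d9
  obtain ⟨h1, h2, h3⟩ := hT
  have h4 : 0 < Real.log (XK κ T) := by linarith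
  rw [← Real.log_mul hκ.ne' hL0.ne', abs_le]
  constructor
  · have h5 : κ * Real.log T / 2 ≤ Real.log (XK κ T) := by linarith
    have h6 := Real.log_le_log (by positivity) h5
    rw [Real.log_div (by positivity) (by norm_num)] at h6
    linarith
  · have := Real.log_le_log h4 h2
    linarith

/-- the sum of the reciprocals -/
lemma sum_inv : ∃ C : ℝ, 0 ≤ C ∧ ∀ u v : ℝ, v ≤ u → ∀ᶠ T : ℝ in atTop,
    |∑ p ∈ PI T u v, (1 : ℝ) / p - (u - v)| ≤ C := by
  obtain ⟨C, hC, h⟩ := pr2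
  refine ⟨C + 2, by linarith, fun u v huv => ?_⟩
  filter_upwards [loglog (Real.exp_pos (-u)), loglog (Real.exp_pos (-v)), XK_log (Real.exp_pos (-u)),
    eventually_ge_atTop 1] with T h1 h2 h3 hT1
  have h4 := h (XK (Real.exp (-u)) T) (XK (Real.exp (-v)) T) h3.2.2
    (XK_mono hT1 (Real.exp_le_exp.2 (by linarith)))
  rw [Real.log_exp] at h1 h2
  unfold PI
  have a1 := abs_le.1 h1
  have a2 := abs_le.1 h2
  have a4 := abs_le.1 h4
  rw [abs_le]
  constructor <;> linarith [a1.1, a1.2, a2.1, a2.2, a4.1, a4.2]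

/-- the coefficients at the primes -/
lemma be_prime {l : ℝ} (hl : 0 < l) {p : ℕ} (hp : p.Prime) : ∃ w : ℝ, 0 ≤ w ∧ w ≤ 1 ∧
    be l p ^ 2 = w ^ 2 * (1 / (Real.pi ^ 2 * p)) ∧
    (∀ ϑ : ℝ, 1 ≤ l → Real.log p ≤ l / 2 → (1 + Real.log p) / l + 1 / p ≤ ϑ → 1 - 16 * ϑ ≤ w) := by
  have hpi := Real.pi_pos
  have hp0 : (0 : ℝ) < p := by exact_mod_cast hp.pos
  have hlog : 0 < Real.log p := Real.log_pos (by exact_mod_cast hp.one_lt)
  have hs : 0 < Real.sqrt (2 * Real.pi) := Real.sqrt_pos.2 (by positivity)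
  have hs25 : 5 / 2 ≤ Real.sqrt (2 * Real.pi) := by
    apply Real.le_sqrt_of_sq_le
    have := Real.pi_gt_d2
    norm_num
    linarith
  refine ⟨l * ggo l p / Real.sqrt (2 * Real.pi), ?_, ?_, ?_, ?_⟩
  · have := ggo_nonneg l p
    positivity
  · rw [div_le_one hs]
    have := ggo_le hl p
    rw [le_div_iff₀ hl] at this
    linarith
  · unfold be
    rw [ArithmeticFunction.vonMangoldt_apply_prime hp]
    have e : 2 * (1 / Real.sqrt (2 * Real.pi)) * (Real.log p * (Real.sqrt p)⁻¹ * ggo l p) *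
      (l / (2 * Real.pi) / Real.log p) = l * ggo l p / Real.sqrt (2 * Real.pi) * ((Real.sqrt p)⁻¹ / Real.pi) := by
      field_simp
    rw [e, mul_pow, div_pow (Real.sqrt (p : ℝ))⁻¹, inv_pow, Real.sq_sqrt hp0.le]
    congr 1
    field_simp
  · intro ϑ hl1 hlp hϑ
    have h1 := ggo_low hl1 p hp.one_lt.le hlp
    rw [le_div_iff₀ hs]
    have h0 : 0 ≤ ϑ := le_trans (by positivity) hϑ
    nlinarith

/-- **the parameters of a level** -/
theorem par : ∃ C1 : ℝ, 0 ≤ C1 ∧ ∀ (κ q u v B0 η : ℝ) (r : ℕ), 0 < κ → 0 < q → 0 ≤ v → v < u →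
    κ * q * Real.exp (-v) ≤ 1 / 100 → 0 < B0 → 0 < η → ∀ᶠ T : ℝ in atTop,
    (∑ p ∈ PI T u v, be (Real.log T / (κ * q)) p ^ 2 ≤ (u - v + C1) / Real.pi ^ 2) ∧
    ((1 - 64 * (κ * q * Real.exp (-v))) * ((u - v - C1) / (2 * Real.pi ^ 2)) ≤
      vI (Real.log T / (κ * q)) (PI T u v)) ∧
    (∀ p ∈ PI T u v, be (Real.log T / (κ * q)) p ^ 2 ≤ B0) ∧
    (∀ d : ℕ, 1 ≤ d → d ≤ r → cI (Real.log T / (κ * q)) (PI T u v) (2 * Real.pi * d / Real.log T) ≤
      Real.exp u / d + η + 4 * (κ * q * Real.exp (-v)) * (u - v + C1)) := by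
  obtain ⟨C, hC, hsum⟩ := sum_inv
  refine ⟨C, hC, fun κ q u v B0 η r hκ hq hv huv hκq hB0 hη => ?_⟩
  have hpi := Real.pi_gt_three
  have hpi2 := Real.pi_lt_d2
  obtain ⟨c, hc⟩ : ∃ c : ℝ, c = κ * q := ⟨_, rfl⟩
  have hc0 : 0 < c := by rw [hc]; positivity
  have heu : 0 < Real.exp (-u) := Real.exp_pos _
  have hev : 0 < Real.exp (-v) := Real.exp_pos _
  have hXt : Tendsto (fun T : ℝ => XK (Real.exp (-u)) T) atTop atTop := by
    unfold XK
    exact tendsto_nat_floor_atTop.comp (tendsto_rpow_atTop heu)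
  have hppt := ppt_tendsto.comp hXt
  have hppt2 : ∀ᶠ T : ℝ in atTop, ppt (XK (Real.exp (-u)) T) < η / 2 :=
    hppt.eventually (gt_mem_nhds (by positivity))
  have hXB : ∀ᶠ T : ℝ in atTop, ⌈1 / B0⌉₊ ≤ XK (Real.exp (-u)) T := hXt.eventually_ge_atTop _
  have hXB2 : ∀ᶠ T : ℝ in atTop, ⌈4 / (c * Real.exp (-v))⌉₊ ≤ XK (Real.exp (-u)) T := hXt.eventually_ge_atTop _
  rw [← hc] at hκq ⊢
  filter_upwards [hsum u v huv.le, XK_log heu, XK_log hev, hppt2, hXB, hXB2, eventually_ge_atTop 3,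
    Real.tendsto_log_atTop.eventually_ge_atTop (4 * Real.exp u), Real.tendsto_log_atTop.eventually_ge_atTop c,
    Real.tendsto_log_atTop.eventually_ge_atTop (2 * Real.pi * r),
    Real.tendsto_log_atTop.eventually_ge_atTop (4 * Real.exp v),
    Real.tendsto_log_atTop.eventually_ge_atTop (2 / η * (32 * Real.exp u + 48 * Real.pi * r * Real.exp u))]
    with T hs hXu hXv hpp hXB hXB2 hT3 hL1 hL2 hL3 hL5 hL4
  obtain ⟨L, hL⟩ : ∃ L : ℝ, L = Real.log T := ⟨_, rfl⟩
  rw [← hL] at hXu hXv hL1 hL2 hL3 hL4 hL5 ⊢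
  have hL0 : 0 < L := by linarith [Real.exp_pos u]
  obtain ⟨l, hl⟩ : ∃ l : ℝ, l = L / c := ⟨_, rfl⟩
  rw [← hl]
  have hl1 : 1 ≤ l := by rw [hl, le_div_iff₀ hc0]; linarith
  have hl0 : 0 < l := by linarith
  have hu1 : Real.exp u * Real.exp (-u) = 1 := by rw [← Real.exp_add]; simp
  have hv1 : Real.exp v * Real.exp (-v) = 1 := by rw [← Real.exp_add]; simp
  have hl2 := Real.log_two_lt_d9
  have hl20 := Real.log_two_gt_d9
  -- the primes of the level
  have hPI : ∀ p ∈ PI T u v, p.Prime ∧ XK (Real.exp (-u)) T < p ∧ Real.log p ≤ Real.exp (-v) * L := by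
    intro p hp
    unfold PI at hp
    rw [Finset.mem_filter, Finset.mem_Ioc] at hp
    refine ⟨hp.2, hp.1.1, ?_⟩
    refine le_trans (Real.log_le_log (by exact_mod_cast hp.2.pos) ?_) hXv.2.1
    exact_mod_cast hp.1.2
  obtain ⟨S, hS⟩ : ∃ S : ℝ, S = ∑ p ∈ PI T u v, (1 : ℝ) / p := ⟨_, rfl⟩
  rw [← hS] at hs
  have hs' := abs_le.1 hs
  have hS0 : 0 ≤ S := by rw [hS]; positivity
  have hϑ : ∀ p ∈ PI T u v, (1 + Real.log p) / l + 1 / p ≤ 2 * (c * Real.exp (-v)) := by
    intro p hp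
    obtain ⟨h1, h2, h3⟩ := hPI p hp
    have h4 : (1 + Real.log p) / l ≤ c * Real.exp (-v) + c * Real.exp (-v) / 4 := by
      rw [hl, div_div_eq_mul_div, div_le_iff₀ hL0]
      have h5 : 1 ≤ Real.exp (-v) * L / 4 := by
        have := mul_le_mul_of_nonneg_right hL5 hev.le
        nlinarith
      nlinarith
    have hp0 : (0 : ℝ) < p := by exact_mod_cast h1.pos
    have h6 : 1 / (p : ℝ) ≤ c * Real.exp (-v) / 4 := by
      rw [div_le_iff₀ hp0]
      have h7 : (4 : ℝ) / (c * Real.exp (-v)) ≤ p := by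
        refine (Nat.le_ceil _).trans ?_
        exact_mod_cast hXB2.trans h2.le
      rw [div_le_iff₀ (by positivity)] at h7
      linarith
    have : 0 < c * Real.exp (-v) := by positivity
    linarith
  have hlow : ∀ p ∈ PI T u v, (1 - 64 * (c * Real.exp (-v))) * (1 / (Real.pi ^ 2 * p)) ≤ be l p ^ 2 ∧
      be l p ^ 2 ≤ 1 / (Real.pi ^ 2 * p) := by
    intro p hp
    obtain ⟨h1, h2, h3⟩ := hPI p hp
    have hp0 : (0 : ℝ) < p := by exact_mod_cast h1.pos
    obtain ⟨w, w0, w1, w2, w3⟩ := be_prime hl0 h1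
    have h4 : Real.log p ≤ l / 2 := by
      refine h3.trans ?_
      rw [hl, div_div, le_div_iff₀ (by positivity)]
      nlinarith
    have h5 := w3 _ hl1 h4 (hϑ p hp)
    have h6 : 0 ≤ 1 / (Real.pi ^ 2 * p) := by positivity
    rw [w2]
    constructor
    · apply mul_le_mul_of_nonneg_right _ h6
      nlinarith
    · have : w ^ 2 ≤ 1 := pow_le_one₀ w0 w1
      nlinarith
  have e1 : ∀ p : ℕ, (1 : ℝ) / (Real.pi ^ 2 * p) = 1 / Real.pi ^ 2 * (1 / p) := fun p => by
    rw [one_div_mul_one_div]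
  have hsumb : ∑ p ∈ PI T u v, be l p ^ 2 ≤ S / Real.pi ^ 2 := by
    refine (Finset.sum_le_sum fun p hp => (hlow p hp).2).trans (le_of_eq ?_)
    simp only [e1]
    rw [← Finset.mul_sum, ← hS]
    ring
  refine ⟨?_, ?_, ?_, ?_⟩
  · refine hsumb.trans ?_
    apply div_le_div_of_nonneg_right _ (by positivity)
    linarith [hs'.2]
  · unfold vI
    have h1 : (1 - 64 * (c * Real.exp (-v))) * (S / Real.pi ^ 2) ≤ ∑ p ∈ PI T u v, be l p ^ 2 := by
      refine le_trans (le_of_eq ?_) (Finset.sum_le_sum fun p hp => (hlow p hp).1)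
      simp only [e1]
      rw [← Finset.mul_sum, ← Finset.mul_sum, ← hS]
      ring
    have h2 : (1 - 64 * (c * Real.exp (-v))) * ((u - v - C) / (2 * Real.pi ^ 2)) ≤
        (1 - 64 * (c * Real.exp (-v))) * (S / Real.pi ^ 2) / 2 := by
      rw [mul_div_assoc, div_div, mul_comm (Real.pi ^ 2) 2]
      apply mul_le_mul_of_nonneg_left _ (by linarith)
      apply div_le_div_of_nonneg_right _ (by positivity)
      linarith [hs'.1]
    linarith
  · intro p hp
    obtain ⟨h1, h2, h3⟩ := hPI p hp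
    have hp0 : (0 : ℝ) < p := by exact_mod_cast h1.pos
    refine (hlow p hp).2.trans ?_
    have h7 : (1 : ℝ) / B0 ≤ p := by
      refine (Nat.le_ceil _).trans ?_
      exact_mod_cast hXB.trans h2.le
    rw [div_le_iff₀ hB0] at h7
    rw [div_le_iff₀ (by positivity)]
    have : 1 ≤ Real.pi ^ 2 := by nlinarith
    nlinarith [mul_pos hB0 hp0]
  · intro d hd hdr
    have hd0 : (0 : ℝ) < d := by exact_mod_cast hd
    have hd1 : (1 : ℝ) ≤ d := by exact_mod_cast hd
    have hdr' : (d : ℝ) ≤ r := by exact_mod_cast hdr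
    obtain ⟨x, hx⟩ : ∃ x : ℝ, x = 2 * Real.pi * d / L := ⟨_, rfl⟩
    rw [← hx]
    have hx0 : 0 < x := by rw [hx]; positivity
    have hx1 : x ≤ 1 := by
      rw [hx, div_le_one hL0]
      refine le_trans ?_ hL3
      gcongr
    have hXuv : XK (Real.exp (-u)) T ≤ XK (Real.exp (-v)) T :=
      XK_mono (by linarith) (Real.exp_le_exp.2 (by linarith))
    have h1 := prime_cos hx0 hx1 (by omega : 2 ≤ XK (Real.exp (-u)) T) hXuv
    have hlu : Real.exp (-u) * L / 2 ≤ Real.log (XK (Real.exp (-u)) T) := by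
      have h5 : 4 ≤ Real.exp (-u) * L := by
        have := mul_le_mul_of_nonneg_right hL1 heu.le
        nlinarith
      linarith [hXu.1]
    have hlu0 : 0 < Real.exp (-u) * L / 2 := by positivity
    have hlv : Real.log (XK (Real.exp (-v)) T) ≤ L := by
      refine hXv.2.1.trans ?_
      have : Real.exp (-v) ≤ 1 := Real.exp_le_one_iff.2 (by linarith)
      nlinarith
    have h2 : 2 * (8 + 6 * x * Real.log (XK (Real.exp (-v)) T) + 1 / x) / Real.log (XK (Real.exp (-u)) T) ≤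
        η / 2 + 2 * Real.exp u / d := by
      have h3 : 2 * (8 + 6 * x * Real.log (XK (Real.exp (-v)) T) + 1 / x) / Real.log (XK (Real.exp (-u)) T) ≤
          2 * (8 + 6 * x * L + 1 / x) / (Real.exp (-u) * L / 2) := by
        apply div_le_div₀ (by positivity) _ hlu0 hlu
        gcongr
      refine h3.trans ?_
      have h4 : 2 * (8 + 6 * x * L + 1 / x) / (Real.exp (-u) * L / 2) =
          (32 * Real.exp u + 48 * Real.pi * d * Real.exp u) / L + 2 * Real.exp u / (Real.pi * d) := by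
        rw [hx]
        have : Real.exp (-u) = 1 / Real.exp u := by rw [Real.exp_neg, one_div]
        rw [this]
        field_simp
        ring
      rw [h4]
      apply add_le_add
      · rw [div_le_iff₀ hL0]
        have h6 : 32 * Real.exp u + 48 * Real.pi * d * Real.exp u ≤ 32 * Real.exp u + 48 * Real.pi * r * Real.exp u := by
          gcongr
        have h7 : η / 2 * (2 / η * (32 * Real.exp u + 48 * Real.pi * r * Real.exp u)) ≤ η / 2 * L :=
          mul_le_mul_of_nonneg_left hL4 (by positivity)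
        have h8 : η / 2 * (2 / η * (32 * Real.exp u + 48 * Real.pi * r * Real.exp u)) =
          32 * Real.exp u + 48 * Real.pi * r * Real.exp u := by field_simp
        linarith
      · apply div_le_div_of_nonneg_left (by positivity) hd0
        nlinarith
    unfold cI
    obtain ⟨Cs, hCs⟩ : ∃ Cs : ℝ, Cs = ∑ p ∈ PI T u v, Real.cos (x * Real.log p) / p := ⟨_, rfl⟩
    have h3 : |Cs| ≤ η + 2 * Real.exp u / d := by
      rw [hCs]
      unfold PI
      refine h1.trans ?_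
      linarith
    have h4 : ∑ p ∈ PI T u v, be l p ^ 2 * Real.cos (x * Real.log p) ≤
        1 / Real.pi ^ 2 * Cs + 64 * (c * Real.exp (-v)) * (S / Real.pi ^ 2) := by
      rw [hCs, hS, Finset.mul_sum, Finset.sum_div, Finset.mul_sum, ← Finset.sum_add_distrib]
      refine Finset.sum_le_sum fun p hp => ?_
      obtain ⟨b1, b2⟩ := hlow p hp
      have hp0 : (0 : ℝ) < p := by exact_mod_cast (hPI p hp).1.pos
      have hcos := abs_le.1 (Real.abs_cos_le_one (x * Real.log p))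
      have h5 : 1 / Real.pi ^ 2 * (Real.cos (x * Real.log p) / p) =
          1 / (Real.pi ^ 2 * p) * Real.cos (x * Real.log p) := by field_simp
      have h6 : 64 * (c * Real.exp (-v)) * (1 / (p : ℝ) / Real.pi ^ 2) = 64 * (c * Real.exp (-v)) * (1 / (Real.pi ^ 2 * p)) := by
        field_simp
      rw [h5, h6]
      have h7 : (be l p ^ 2 - 1 / (Real.pi ^ 2 * p)) * Real.cos (x * Real.log p) ≤
          64 * (c * Real.exp (-v)) * (1 / (Real.pi ^ 2 * p)) := by
        have h8 : 0 ≤ 1 / (Real.pi ^ 2 * p) - be l p ^ 2 := by linarith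
        nlinarith [hcos.1, hcos.2]
      linarith
    have hpi9 : 9 ≤ Real.pi ^ 2 := by nlinarith
    have h5 : 1 / Real.pi ^ 2 * Cs ≤ (η + 2 * Real.exp u / d) / 9 := by
      have h6 := (abs_le.1 h3).2
      have h7 : 0 ≤ η + 2 * Real.exp u / d := by positivity
      rw [one_div_mul_eq_div]
      calc Cs / Real.pi ^ 2 ≤ (η + 2 * Real.exp u / d) / Real.pi ^ 2 := div_le_div_of_nonneg_right h6 (by positivity)
        _ ≤ _ := div_le_div_of_nonneg_left h7 (by norm_num) hpi9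
    have h6 : 64 * (c * Real.exp (-v)) * (S / Real.pi ^ 2) ≤ 8 * (c * Real.exp (-v)) * (u - v + C) := by
      have h7 : S ≤ u - v + C := by linarith [hs'.2]
      have h8 : S / Real.pi ^ 2 ≤ (u - v + C) / 9 := by
        calc S / Real.pi ^ 2 ≤ S / 9 := div_le_div_of_nonneg_left hS0 (by norm_num) hpi9
          _ ≤ _ := div_le_div_of_nonneg_right h7 (by norm_num)
      have h9 : 0 < c * Real.exp (-v) := by positivity
      nlinarith
    have h7 : 2 * Real.exp u / d = 2 * (Real.exp u / d) := by ring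
    rw [h7] at h5
    have h8 : 0 < Real.exp u / d := by positivity
    linarith

end

end Pool.Agent.U403.Max
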