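import Mathlib

/-! # Numerical conditions -/

set_option autoImplicit false

open Filter Topology

namespace Pool.Agent.U403.Max

noncomputable section

lemma ev_quad (a b : ℝ) {δ : ℝ} (hδ : 0 < δ) : ∀ᶠ y : ℝ in atTop, Real.exp (a * y + b - y ^ 2 / 8) ≤ δ := by
  have h1 : Tendsto (fun y : ℝ => y * (a - y / 8) + b) atTop atBot := by
    apply tendsto_atBot_add_const_right
    apply Tendsto.atTop_mul_atBot₀ tendsto_id
    have : Tendsto (fun y : ℝ => y / 8) atTop atTop := tendsto_id.atTop_div_const (by norm_num)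
    exact tendsto_atBot_add_const_left _ _ (tendsto_neg_atTop_atBot.comp this)
  have h2 := Real.tendsto_exp_atBot.comp h1
  filter_upwards [h2.eventually (gt_mem_nhds hδ)] with y hy
  simp only [Function.comp] at hy
  refine le_trans (le_of_eq ?_) hy.le
  congr 1
  ring

lemma y_top {K : ℕ} (hK : 0 < K) : Tendsto (fun q : ℝ => Real.exp (q / (2 * K))) atTop atTop := by
  apply Real.tendsto_exp_atTop.comp
  apply Tendsto.atTop_div_const (by positivity) tendsto_id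

lemma ev_pow (c C : ℝ) (hc : 0 < c) (k : ℕ) (D : ℝ) {δ : ℝ} (hδ : 0 < δ) :
    ∀ᶠ q : ℝ in atTop, D * ((q + C) ^ k * Real.exp (-(c * q))) ≤ δ := by
  have h1 := tendsto_rpow_mul_exp_neg_mul_atTop_nhds_zero (k : ℝ) c hc
  simp only [Real.rpow_natCast] at h1
  have h2 : Tendsto (fun q : ℝ => q + C) atTop atTop := tendsto_atTop_add_const_right _ _ tendsto_id
  have h3 := (h1.comp h2).const_mul (D * Real.exp (c * C))
  rw [mul_zero] at h3
  filter_upwards [h3.eventually (gt_mem_nhds hδ)] with q hq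
  refine le_trans (le_of_eq ?_) hq.le
  simp only [Function.comp]
  have : Real.exp (-c * (q + C)) = Real.exp (-(c * q)) * Real.exp (-(c * C)) := by
    rw [← Real.exp_add]; congr 1; ring
  rw [this]
  have h4 : Real.exp (c * C) * Real.exp (-(c * C)) = 1 := by rw [← Real.exp_add]; simp
  linear_combination (-(D * ((q + C) ^ k * Real.exp (-(c * q))))) * h4

/-- the error of the Laplace transforms -/
def Er (K : ℕ) (C1 : ℝ) (k : ℕ) (q : ℝ) (M : ℕ) : ℝ :=
  2 * (2 * M + 1) * Real.exp (32 * (q + K * C1) / 2) *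
    Real.sqrt (K * (Real.exp q * (17 * (k.factorial * (q + C1) ^ k) / Real.exp (q / (2 * K)) ^ (2 * k))))

lemma num4 (K : ℕ) (hK : 3 ≤ K) (C1 : ℝ) (hC : 0 ≤ C1) {δ : ℝ} (hδ : 0 < δ) : ∀ᶠ q : ℝ in atTop,
    ∀ M : ℕ, (M : ℝ) ≤ Real.exp (q / K) → Er K C1 (40 * K) q M ≤ δ := by
  have hK0 : (0 : ℝ) < K := by exact_mod_cast (by omega : 0 < K)
  have hK3 : (3 : ℝ) ≤ K := by exact_mod_cast hK
  obtain ⟨D, hD⟩ : ∃ D : ℝ, D = 36 * Real.exp (32 * (K * C1)) * (K * (17 * ((40 * K).factorial : ℝ))) := ⟨_, rfl⟩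
  have hD0 : 0 < D := by rw [hD]; positivity
  filter_upwards [ev_pow 5 C1 (by norm_num) (40 * K) D (sq_pos_of_pos hδ), eventually_ge_atTop 0] with q hq hq0 M hM
  unfold Er
  have hy1 : Real.exp (q / (2 * K)) ^ (2 * (40 * K)) = Real.exp (40 * q) := by
    rw [← Real.exp_nat_mul]
    congr 1
    push_cast
    field_simp
  rw [hy1]
  have hM0 : (0 : ℝ) ≤ M := Nat.cast_nonneg _
  have hE1 : 1 ≤ Real.exp (q / K) := Real.one_le_exp (by positivity)
  have h1 : 2 * (2 * (M : ℝ) + 1) ≤ 6 * Real.exp (q / K) := by linarith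
  have h2 : 0 ≤ K * (Real.exp q * (17 * (((40 * K).factorial : ℝ) * (q + C1) ^ (40 * K)) / Real.exp (40 * q))) := by
    positivity
  have h3 : 6 * Real.exp (q / K) * Real.exp (32 * (q + K * C1) / 2) *
      Real.sqrt (K * (Real.exp q * (17 * (((40 * K).factorial : ℝ) * (q + C1) ^ (40 * K)) / Real.exp (40 * q)))) ≤ δ := by
    apply le_of_sq_le_sq _ hδ.le
    rw [mul_pow, Real.sq_sqrt h2]
    refine le_trans ?_ hq
    have e1 : (6 * Real.exp (q / K) * Real.exp (32 * (q + K * C1) / 2)) ^ 2 =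
        36 * (Real.exp (2 * q / K) * (Real.exp (32 * q) * Real.exp (32 * (K * C1)))) := by
      rw [← Real.exp_add, ← Real.exp_add, mul_pow, mul_pow, ← Real.exp_nat_mul, ← Real.exp_nat_mul, mul_assoc,
        ← Real.exp_add]
      congr 1
      · norm_num
      · congr 1; push_cast; ring
    rw [e1, hD]
    have e2 : Real.exp (2 * q / K) ≤ Real.exp q := by
      apply Real.exp_le_exp.2
      rw [div_le_iff₀ hK0]
      nlinarith
    have e3 : Real.exp (-(5 * q)) = Real.exp q * (Real.exp (32 * q) * (Real.exp q * Real.exp (-(40 * q)))) * Real.exp q := by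
      rw [← Real.exp_add, ← Real.exp_add, ← Real.exp_add, ← Real.exp_add]; congr 1; ring
    have e4 : (1 : ℝ) ≤ Real.exp q := Real.one_le_exp hq0
    have e5 : 1 / Real.exp (40 * q) = Real.exp (-(40 * q)) := by rw [Real.exp_neg, one_div]
    calc 36 * (Real.exp (2 * q / K) * (Real.exp (32 * q) * Real.exp (32 * (K * C1)))) *
        (K * (Real.exp q * (17 * (((40 * K).factorial : ℝ) * (q + C1) ^ (40 * K)) / Real.exp (40 * q)))) =
        36 * Real.exp (32 * (K * C1)) * (K * (17 * ((40 * K).factorial : ℝ))) * ((q + C1) ^ (40 * K) *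
          (Real.exp (2 * q / K) * (Real.exp (32 * q) * (Real.exp q * (1 / Real.exp (40 * q)))) * 1)) := by ring
      _ ≤ 36 * Real.exp (32 * (K * C1)) * (K * (17 * ((40 * K).factorial : ℝ))) * ((q + C1) ^ (40 * K) *
          Real.exp (-(5 * q))) := by
          rw [e3, e5]
          gcongr
  refine le_trans ?_ h3
  gcongr

lemma num78 (K : ℕ) (hK : 3 ≤ K) (C1 : ℝ) (hC : 0 ≤ C1) {δ : ℝ} (hδ : 0 < δ) : ∀ᶠ q : ℝ in atTop,
    Real.exp (Real.exp 1 * (K * (8 * (2 * Real.exp (q / (2 * K)))))) / Real.exp 1 ^ (2 * ⌊Real.exp (q / K) / 8⌋₊ + 1) ≤ δ ∧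
    Real.exp (Real.exp 1 * (32 * (q + K * C1) / 4)) / Real.exp 1 ^ (⌊Real.exp (q / K) / 8⌋₊ + 1) ≤ δ := by
  have hK0 : (0 : ℝ) < K := by exact_mod_cast (by omega : 0 < K)
  have hy := y_top (show 0 < K by omega)
  have he3 : Real.exp 1 ≤ 3 := by linarith [Real.exp_one_lt_d9]
  filter_upwards [hy.eventually (ev_quad (48 * K) 0 hδ), hy.eventually (ev_quad (48 * K) (24 * (K * C1)) hδ),
    eventually_ge_atTop 0] with q h1 h2 hq0
  obtain ⟨y, hyd⟩ : ∃ y : ℝ, y = Real.exp (q / (2 * K)) := ⟨_, rfl⟩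
  have hyy : Real.exp (q / K) = y ^ 2 := by
    rw [hyd, ← Real.exp_nat_mul]
    congr 1
    push_cast
    field_simp
  have hy0 : 0 < y := by rw [hyd]; exact Real.exp_pos _
  have hqy : q ≤ 2 * K * y := by
    have := Real.add_one_le_exp (q / (2 * K))
    rw [← hyd] at this
    have h3 : q / (2 * K) ≤ y := by linarith
    rw [div_le_iff₀ (by positivity)] at h3
    linarith
  rw [← hyd] at h1 h2 ⊢
  rw [hyy]
  have hM : y ^ 2 / 8 < ⌊y ^ 2 / 8⌋₊ + 1 := Nat.lt_floor_add_one _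
  have hM0 : (0 : ℝ) ≤ ⌊y ^ 2 / 8⌋₊ := Nat.cast_nonneg _
  constructor
  · refine le_trans ?_ h1
    rw [← Real.exp_nat_mul, ← Real.exp_sub]
    apply Real.exp_le_exp.2
    push_cast
    have : Real.exp 1 * (K * (8 * (2 * y))) ≤ 3 * (K * (8 * (2 * y))) := mul_le_mul_of_nonneg_right he3 (by positivity)
    linarith
  · refine le_trans ?_ h2
    rw [← Real.exp_nat_mul, ← Real.exp_sub]
    apply Real.exp_le_exp.2
    push_cast
    have h3 : Real.exp 1 * (32 * (q + K * C1) / 4) ≤ 3 * (32 * (q + K * C1) / 4) :=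
      mul_le_mul_of_nonneg_right he3 (by positivity)
    have h4 : 3 * (32 * (q + K * C1) / 4) = 24 * q + 24 * (K * C1) := by ring
    linarith

/-- **the numerical conditions** -/
lemma num (κ e1 C1 : ℝ) (K : ℕ) (hK : 3 ≤ K) (he : 0 < e1) (_hC : 0 ≤ C1) {δ : ℝ}
    (hδ : 0 < δ) : ∀ᶠ q : ℝ in atTop, 1 ≤ q ∧ 8 * K * C1 ≤ e1 * q ∧ κ * q * Real.exp (-(q / K)) ≤ δ ∧
    40 * K * (Real.exp (-(e1 / (4 * K) * q)) + Real.exp (-q) + 4 * (κ * q * Real.exp (-(q / K))) * (q / K + C1)) ≤ δ ∧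
    3 * K * Real.exp (-(e1 / (8 * K) * q)) ≤ δ ∧ K * Real.exp (-(e1 ^ 2 / (64 * K) * q)) ≤ δ ∧
    Real.exp (-(e1 ^ 2 / 480 * q)) ≤ δ := by
  have hK0 : (0 : ℝ) < K := by exact_mod_cast (by omega : 0 < K)
  have t1 : ∀ᶠ q : ℝ in atTop, 8 * K * C1 ≤ e1 * q := by
    have : Tendsto (fun q : ℝ => e1 * q) atTop atTop := tendsto_id.const_mul_atTop he
    exact this.eventually_ge_atTop _
  have t2 := ev_pow (1 / K) 0 (by positivity) 1 κ hδ
  have t3 := ev_pow (e1 / (4 * K)) 0 (by positivity) 0 (40 * K) (show (0 : ℝ) < δ / 4 by positivity)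
  have t4 := ev_pow 1 0 (by norm_num) 0 (40 * K) (show (0 : ℝ) < δ / 4 by positivity)
  have t5 := ev_pow (1 / K) 0 (by positivity) 2 (160 * κ) (show (0 : ℝ) < δ / 4 by positivity)
  have t6 := ev_pow (1 / K) 0 (by positivity) 1 (160 * K * κ * C1) (show (0 : ℝ) < δ / 4 by positivity)
  have t7 := ev_pow (e1 / (8 * K)) 0 (by positivity) 0 (3 * K) hδ
  have t8 := ev_pow (e1 ^ 2 / (64 * K)) 0 (by positivity) 0 K hδ
  have t9 := ev_pow (e1 ^ 2 / 480) 0 (by positivity) 0 1 hδ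
  filter_upwards [t1, t2, t3, t4, t5, t6, t7, t8, t9, eventually_ge_atTop 1] with q q1 q2 q3 q4 q5 q6 q7 q8 q9 q10
  simp only [add_zero, pow_one, pow_zero, one_mul] at q2 q3 q4 q5 q6 q7 q8 q9
  have e1' : 1 / (K : ℝ) * q = q / K := by ring
  rw [e1'] at q2 q5 q6
  refine ⟨q10, q1, by linarith, ?_, q7, q8, q9⟩
  have e2 : 40 * (K : ℝ) * (Real.exp (-(e1 / (4 * K) * q)) + Real.exp (-q) + 4 * (κ * q * Real.exp (-(q / K))) * (q / K + C1)) =
      40 * K * Real.exp (-(e1 / (4 * K) * q)) + 40 * K * Real.exp (-q) + 160 * κ * (q ^ 2 * Real.exp (-(q / K))) +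
      160 * K * κ * C1 * (q * Real.exp (-(q / K))) := by
    field_simp
    ring
  rw [e2]
  linarith

end

end Pool.Agent.U403.Max
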