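import Mathlib

/-! # The truncated second moment method for a hierarchical field -/

set_option autoImplicit false

open Filter Topology MeasureTheory Finset

namespace Pool.Agent.U403.Max

noncomputable section

lemma bdd_int {Ω : Type*} [MeasurableSpace Ω] {P : Measure Ω} [IsFiniteMeasure P] {A : Set Ω}
    (hA : MeasurableSet A) {f : Ω → ℝ} (hf : Measurable f) {M : ℝ} (h : ∀ ω ∈ A, |f ω| ≤ M) :
    IntegrableOn f A P := by
  refine Measure.integrableOn_of_bounded (M := M) (measure_ne_top _ _) hf.aestronglyMeasurable ?_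
  exact (ae_restrict_iff' hA).2 (ae_of_all _ fun ω hω => by simpa using h ω hω)

set_option linter.unusedSectionVars false

variable {Ω : Type*} [MeasurableSpace Ω]

/-- the sum over the levels -/
def Sb (J : ℕ) (X : ℕ → ℕ → Ω → ℝ) (b : ℕ) (ω : Ω) : ℝ := ∑ j ∈ range J, X j b ω

/-- the good set of a point -/
def Gb (J : ℕ) (X : ℕ → ℕ → Ω → ℝ) (A : Set Ω) (v : ℕ → ℝ) (lam w u : ℝ) (b : ℕ) : Set Ω :=
  A ∩ {ω | (∀ j ∈ range J, X j b ω ≤ lam * v j + w) ∧ u < Sb J X b ω}

/-- the weight of a point -/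
def Ph (J : ℕ) (X : ℕ → ℕ → Ω → ℝ) (A : Set Ω) (v : ℕ → ℝ) (lam w u : ℝ) (b : ℕ) : Ω → ℝ :=
  (Gb J X A v lam w u b).indicator fun ω =>
    Real.exp (lam * Sb J X b ω - lam ^ 2 / 2 * ∑ j ∈ range J, v j)

lemma Sb_meas {J : ℕ} {X : ℕ → ℕ → Ω → ℝ} (hX : ∀ j b, Measurable (X j b)) (b : ℕ) :
    Measurable (Sb J X b) := by
  unfold Sb
  exact Finset.measurable_fun_sum _ fun j _ => hX j b

lemma Gb_meas {J : ℕ} {X : ℕ → ℕ → Ω → ℝ} (hX : ∀ j b, Measurable (X j b)) {A : Set Ω}
    (hA : MeasurableSet A) (v : ℕ → ℝ) (lam w u : ℝ) (b : ℕ) :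
    MeasurableSet (Gb J X A v lam w u b) := by
  unfold Gb
  refine hA.inter (MeasurableSet.inter ?_ (measurableSet_lt measurable_const (Sb_meas hX b)))
  have : {ω | ∀ j ∈ range J, X j b ω ≤ lam * v j + w} =
      ⋂ j ∈ range J, {ω | X j b ω ≤ lam * v j + w} := by
    ext ω
    simp
  rw [show (fun ω => ∀ j ∈ range J, X j b ω ≤ lam * v j + w) =
    {ω | ∀ j ∈ range J, X j b ω ≤ lam * v j + w} from rfl, this]
  exact Finset.measurableSet_biInter _ fun j _ => measurableSet_le (hX j b) measurable_const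

lemma Ph_meas {J : ℕ} {X : ℕ → ℕ → Ω → ℝ} (hX : ∀ j b, Measurable (X j b)) {A : Set Ω}
    (hA : MeasurableSet A) (v : ℕ → ℝ) (lam w u : ℝ) (b : ℕ) :
    Measurable (Ph J X A v lam w u b) := by
  unfold Ph
  refine Measurable.indicator ?_ (Gb_meas hX hA v lam w u b)
  exact ((measurable_const.mul (Sb_meas hX b)).sub_const _).exp

lemma Ph_nonneg (J : ℕ) (X : ℕ → ℕ → Ω → ℝ) (A : Set Ω) (v : ℕ → ℝ) (lam w u : ℝ) (b : ℕ) (ω : Ω) :
    0 ≤ Ph J X A v lam w u b ω := by
  unfold Ph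
  exact Set.indicator_nonneg (fun _ _ => (Real.exp_pos _).le) _

lemma Sb_bd {J : ℕ} {X : ℕ → ℕ → Ω → ℝ} {A : Set Ω} {C : ℝ}
    (hC : ∀ ω ∈ A, ∀ j b, |X j b ω| ≤ C) (b : ℕ) {ω : Ω} (hω : ω ∈ A) : |Sb J X b ω| ≤ J * C := by
  unfold Sb
  refine (abs_sum_le_sum_abs _ _).trans ?_
  refine (sum_le_sum fun j _ => hC ω hω j b).trans (le_of_eq ?_)
  rw [sum_const, card_range, nsmul_eq_mul]

lemma Ph_le {J : ℕ} {X : ℕ → ℕ → Ω → ℝ} {A : Set Ω} {C : ℝ} (v : ℕ → ℝ) {lam : ℝ} (hlam : 0 ≤ lam)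
    (w u : ℝ) (hC : ∀ ω ∈ A, ∀ j b, |X j b ω| ≤ C) (b : ℕ) (ω : Ω) :
    Ph J X A v lam w u b ω ≤ Real.exp (lam * (J * C) - lam ^ 2 / 2 * ∑ j ∈ range J, v j) := by
  unfold Ph
  by_cases h : ω ∈ Gb J X A v lam w u b
  · rw [Set.indicator_of_mem h]
    apply Real.exp_le_exp.2
    have h1 := (abs_le.1 (Sb_bd (J := J) hC b h.1)).2
    have := mul_le_mul_of_nonneg_left h1 hlam
    linarith
  · rw [Set.indicator_of_notMem h]
    exact (Real.exp_pos _).le

variable {P : Measure Ω} [IsProbabilityMeasure P] {J r : ℕ} {X : ℕ → ℕ → Ω → ℝ}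
  {A : Set Ω} {C : ℝ} {v : ℕ → ℝ} {vhi : ℝ} {c : ℕ → ℕ → ℕ → ℝ}

/-- the first moment of the weights -/
lemma first_mom (hX : ∀ j b, Measurable (X j b)) (hA : MeasurableSet A) (hCp : 0 ≤ C)
    (hC : ∀ ω ∈ A, ∀ j b, |X j b ω| ≤ C) (hv : ∀ j ∈ range J, v j ≤ vhi)
    (hcd : ∀ j b, c j b b = v j) (lam w u th mu δ V : ℝ) (hδ : 0 ≤ δ)
    (hV : V = ∑ j ∈ range J, v j) (hlam : 0 ≤ lam) (hth : 0 ≤ th) (hmu : 0 ≤ mu) (hmul : mu ≤ lam)
    (Lp : ∀ α : ℕ → ℝ, (∀ j, 0 ≤ α j ∧ α j ≤ lam + th) → ∀ b < r, ∀ b' < r,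
      ∫ ω in A, Real.exp (∑ j ∈ range J, α j * (X j b ω + X j b' ω)) ∂P ≤
        (1 + δ) * Real.exp (∑ j ∈ range J, α j ^ 2 * (v j + c j b b')))
    (Lm : ∀ b < r, (1 - δ) * Real.exp (lam ^ 2 / 2 * V) ≤
      ∫ ω in A, Real.exp (lam * Sb J X b ω) ∂P)
    {b : ℕ} (hb : b < r) :
    (1 - δ) - (1 + δ) * (J * Real.exp (th ^ 2 / 2 * vhi - th * w)) -
      (1 + δ) * Real.exp (mu ^ 2 / 2 * V - mu * (lam * V - u)) ≤ ∫ ω, Ph J X A v lam w u b ω ∂P := by
  obtain ⟨E0, hE0⟩ : ∃ E0 : Ω → ℝ, E0 = fun ω => Real.exp (lam * Sb J X b ω - lam ^ 2 / 2 * V) := ⟨_, rfl⟩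
  obtain ⟨E1, hE1⟩ : ∃ E1 : ℕ → Ω → ℝ, E1 = fun j ω => Real.exp (lam * Sb J X b ω + th * (X j b ω -
    lam * v j - w) - lam ^ 2 / 2 * V) := ⟨_, rfl⟩
  obtain ⟨E2, hE2⟩ : ∃ E2 : Ω → ℝ, E2 = fun ω => Real.exp (lam * Sb J X b ω + mu * (u - Sb J X b ω) -
    lam ^ 2 / 2 * V) := ⟨_, rfl⟩
  have hSm := Sb_meas (J := J) hX b
  have m0 : Measurable E0 := by
    rw [hE0]; exact ((measurable_const.mul hSm).sub_const _).exp
  have m1 : ∀ j, Measurable (E1 j) := by
    intro j
    rw [hE1]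
    exact (((measurable_const.mul hSm).add (measurable_const.mul (((hX j b).sub_const _).sub_const _))).sub_const _).exp
  have m2 : Measurable E2 := by
    rw [hE2]
    exact (((measurable_const.mul hSm).add (measurable_const.mul (measurable_const.sub hSm))).sub_const _).exp
  have i0 : IntegrableOn E0 A P := by
    refine bdd_int hA m0 (M := Real.exp (lam * (J * C) - lam ^ 2 / 2 * V)) fun ω hω => ?_
    rw [hE0]
    simp only
    rw [abs_of_pos (Real.exp_pos _)]
    apply Real.exp_le_exp.2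
    have h1 := (abs_le.1 (Sb_bd (J := J) hC b hω)).2
    have := mul_le_mul_of_nonneg_left h1 hlam
    linarith
  have i1 : ∀ j, IntegrableOn (E1 j) A P := by
    intro j
    refine bdd_int hA (m1 j) (M := Real.exp (lam * (J * C) + th * (C - lam * v j - w) - lam ^ 2 / 2 * V)) fun ω hω => ?_
    rw [hE1]
    simp only
    rw [abs_of_pos (Real.exp_pos _)]
    apply Real.exp_le_exp.2
    have h1 := (abs_le.1 (Sb_bd (J := J) hC b hω)).2
    have h2 := mul_le_mul_of_nonneg_left h1 hlam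
    have h3 := (abs_le.1 (hC ω hω j b)).2
    have h4 := mul_le_mul_of_nonneg_left h3 hth
    linarith
  have i2 : IntegrableOn E2 A P := by
    refine bdd_int hA m2 (M := Real.exp ((lam - mu) * (J * C) + mu * u - lam ^ 2 / 2 * V)) fun ω hω => ?_
    rw [hE2]
    simp only
    rw [abs_of_pos (Real.exp_pos _)]
    apply Real.exp_le_exp.2
    have h1 := (abs_le.1 (Sb_bd (J := J) hC b hω)).2
    have h2 := mul_le_mul_of_nonneg_left h1 (sub_nonneg.2 hmul)
    linarith
  have i3 : IntegrableOn (Ph J X A v lam w u b) A P := by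
    refine bdd_int hA (Ph_meas hX hA v lam w u b) (M := Real.exp (lam * (J * C) - lam ^ 2 / 2 * V)) fun ω _ => ?_
    rw [abs_of_nonneg (Ph_nonneg _ _ _ _ _ _ _ _ _), hV]
    exact Ph_le v hlam w u hC b ω
  -- the pointwise inequality
  have hpt : ∀ ω ∈ A, E0 ω ≤ Ph J X A v lam w u b ω + ∑ j ∈ range J, E1 j ω + E2 ω := by
    intro ω hω
    have p1 : ∀ j, 0 ≤ E1 j ω := fun j => by rw [hE1]; exact (Real.exp_pos _).le
    have p2 : 0 ≤ E2 ω := by rw [hE2]; exact (Real.exp_pos _).le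
    have p3 := Ph_nonneg J X A v lam w u b ω
    have p4 : 0 ≤ ∑ j ∈ range J, E1 j ω := sum_nonneg fun j _ => p1 j
    by_cases hG : ω ∈ Gb J X A v lam w u b
    · have e : Ph J X A v lam w u b ω = E0 ω := by
        unfold Ph
        rw [Set.indicator_of_mem hG, hE0, hV]
      rw [e]
      linarith
    · by_cases hj : ∀ j ∈ range J, X j b ω ≤ lam * v j + w
      · have hS : Sb J X b ω ≤ u := by
          by_contra hcon
          push Not at hcon
          exact hG ⟨hω, hj, hcon⟩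
        have : E0 ω ≤ E2 ω := by
          rw [hE0, hE2]
          apply Real.exp_le_exp.2
          have := mul_nonneg hmu (sub_nonneg.2 hS)
          linarith
        linarith
      · push Not at hj
        obtain ⟨j, hj1, hj2⟩ := hj
        have h1 : E0 ω ≤ E1 j ω := by
          rw [hE0, hE1]
          apply Real.exp_le_exp.2
          have := mul_nonneg hth (by linarith : 0 ≤ X j b ω - lam * v j - w)
          linarith
        have h2 : E1 j ω ≤ ∑ j ∈ range J, E1 j ω := single_le_sum (fun j _ => p1 j) hj1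
        linarith
  have hint : ∫ ω in A, E0 ω ∂P ≤ ∫ ω in A, Ph J X A v lam w u b ω ∂P +
      ∑ j ∈ range J, ∫ ω in A, E1 j ω ∂P + ∫ ω in A, E2 ω ∂P := by
    have hs : IntegrableOn (fun ω => ∑ j ∈ range J, E1 j ω) A P := integrable_finsetSum _ fun j _ => i1 j
    have hs2 : IntegrableOn (fun ω => Ph J X A v lam w u b ω + ∑ j ∈ range J, E1 j ω) A P := i3.add hs
    have h1 : ∫ ω in A, (Ph J X A v lam w u b ω + ∑ j ∈ range J, E1 j ω + E2 ω) ∂P =
        ∫ ω in A, Ph J X A v lam w u b ω ∂P + ∑ j ∈ range J, ∫ ω in A, E1 j ω ∂P + ∫ ω in A, E2 ω ∂P := by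
      rw [integral_add hs2 i2, integral_add i3 hs, integral_finsetSum _ fun j _ => i1 j]
    rw [← h1]
    exact setIntegral_mono_on i0 (hs2.add i2) hA hpt
  have hPh : ∫ ω in A, Ph J X A v lam w u b ω ∂P = ∫ ω, Ph J X A v lam w u b ω ∂P := by
    rw [setIntegral_eq_integral_of_forall_compl_eq_zero]
    intro ω hω
    unfold Ph
    rw [Set.indicator_of_notMem]
    intro h
    exact hω h.1
  -- the values
  have q0 : (1 - δ) ≤ ∫ ω in A, E0 ω ∂P := by
    have e1 : ∀ ω, E0 ω = Real.exp (-(lam ^ 2 / 2 * V)) * Real.exp (lam * Sb J X b ω) := by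
      intro ω
      rw [hE0, ← Real.exp_add]
      simp only
      congr 1
      ring
    simp only [e1]
    rw [integral_const_mul]
    have := mul_le_mul_of_nonneg_left (Lm b hb) (Real.exp_pos (-(lam ^ 2 / 2 * V))).le
    refine le_trans (le_of_eq ?_) this
    rw [mul_left_comm, ← Real.exp_add, neg_add_cancel, Real.exp_zero, mul_one]
  have q1 : ∀ j ∈ range J, ∫ ω in A, E1 j ω ∂P ≤ (1 + δ) * Real.exp (th ^ 2 / 2 * vhi - th * w) := by
    intro j hj
    obtain ⟨α, hα⟩ : ∃ α : ℕ → ℝ, α = fun i => (lam + if i = j then th else 0) / 2 := ⟨_, rfl⟩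
    have hα1 : ∀ i, 0 ≤ α i ∧ α i ≤ lam + th := by
      intro i
      rw [hα]
      simp only
      split_ifs <;> constructor <;> linarith
    have h1 := Lp α hα1 b hb b hb
    have e1 : ∀ ω, E1 j ω = Real.exp (-(th * (lam * v j + w)) - lam ^ 2 / 2 * V) *
        Real.exp (∑ i ∈ range J, α i * (X i b ω + X i b ω)) := by
      intro ω
      have e2 : ∑ i ∈ range J, α i * (X i b ω + X i b ω) = lam * Sb J X b ω + th * X j b ω := by
        have e3 : ∀ i ∈ range J, α i * (X i b ω + X i b ω) = lam * X i b ω + if i = j then th * X i b ω else 0 := by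
          intro i _
          rw [hα]
          simp only
          split_ifs <;> ring
        rw [sum_congr rfl e3, sum_add_distrib, sum_ite_eq' , if_pos hj]
        unfold Sb
        rw [mul_sum]
      rw [e2, hE1, ← Real.exp_add]
      simp only
      congr 1
      ring
    simp only [e1]
    rw [integral_const_mul]
    refine (mul_le_mul_of_nonneg_left h1 (Real.exp_pos _).le).trans ?_
    rw [mul_left_comm, ← Real.exp_add]
    apply mul_le_mul_of_nonneg_left _ (by linarith)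
    apply Real.exp_le_exp.2
    have e4 : ∑ i ∈ range J, α i ^ 2 * (v i + c i b b) = lam ^ 2 / 2 * V + (lam * th * v j + th ^ 2 / 2 * v j) := by
      have e3 : ∀ i ∈ range J, α i ^ 2 * (v i + c i b b) = lam ^ 2 / 2 * v i +
          if i = j then (lam * th * v i + th ^ 2 / 2 * v i) else 0 := by
        intro i _
        rw [hα, hcd]
        simp only
        split_ifs <;> ring
      rw [sum_congr rfl e3, sum_add_distrib, sum_ite_eq', if_pos hj, ← mul_sum, hV]
    rw [e4]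
    have := mul_le_mul_of_nonneg_left (hv j hj) (by positivity : 0 ≤ th ^ 2 / 2)
    linarith
  have q2 : ∫ ω in A, E2 ω ∂P ≤ (1 + δ) * Real.exp (mu ^ 2 / 2 * V - mu * (lam * V - u)) := by
    obtain ⟨α, hα⟩ : ∃ α : ℕ → ℝ, α = fun _ => (lam - mu) / 2 := ⟨_, rfl⟩
    have hα1 : ∀ i, 0 ≤ α i ∧ α i ≤ lam + th := by
      intro i
      rw [hα]
      simp only
      constructor <;> linarith
    have h1 := Lp α hα1 b hb b hb
    have e1 : ∀ ω, E2 ω = Real.exp (mu * u - lam ^ 2 / 2 * V) *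
        Real.exp (∑ i ∈ range J, α i * (X i b ω + X i b ω)) := by
      intro ω
      have e2 : ∑ i ∈ range J, α i * (X i b ω + X i b ω) = (lam - mu) * Sb J X b ω := by
        unfold Sb
        rw [mul_sum]
        apply sum_congr rfl
        intro i _
        rw [hα]
        ring
      rw [e2, hE2, ← Real.exp_add]
      simp only
      congr 1
      ring
    simp only [e1]
    rw [integral_const_mul]
    refine (mul_le_mul_of_nonneg_left h1 (Real.exp_pos _).le).trans ?_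
    rw [mul_left_comm, ← Real.exp_add]
    apply mul_le_mul_of_nonneg_left _ (by linarith)
    apply Real.exp_le_exp.2
    have e4 : ∑ i ∈ range J, α i ^ 2 * (v i + c i b b) = (lam - mu) ^ 2 / 2 * V := by
      rw [hV, mul_sum]
      apply sum_congr rfl
      intro i _
      rw [hα, hcd]
      ring
    rw [e4]
    apply le_of_eq
    ring
  have q3 : ∑ j ∈ range J, ∫ ω in A, E1 j ω ∂P ≤ (1 + δ) * (J * Real.exp (th ^ 2 / 2 * vhi - th * w)) := by
    refine (sum_le_sum q1).trans (le_of_eq ?_)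
    rw [sum_const, card_range, nsmul_eq_mul]
    ring
  rw [← hPh]
  linarith

/-- a finite geometric bound -/
lemma exp_card (N : Finset ℕ) (J : ℕ) (hN : N ⊆ range J) {th : ℝ} (hth : 0 ≤ th) :
    Real.exp (th * N.card) ≤ 1 + ∑ m ∈ range J, if m ∈ N then Real.exp (th * (m + 1)) else 0 := by
  have h0 : 0 ≤ ∑ m ∈ range J, if m ∈ N then Real.exp (th * (m + 1)) else 0 := by
    apply sum_nonneg
    intro m _
    split_ifs
    · exact (Real.exp_pos _).le
    · exact le_rfl
  rcases N.eq_empty_or_nonempty with h | h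
  · rw [h] at h0 ⊢
    simp
  · have h1 := N.max'_mem h
    have h2 : N.card ≤ N.max' h + 1 := by
      have : N ⊆ range (N.max' h + 1) := by
        intro x hx
        rw [mem_range]
        have := N.le_max' x hx
        omega
      have := card_le_card this
      rwa [card_range] at this
    have h3 : Real.exp (th * N.card) ≤ Real.exp (th * ((N.max' h : ℕ) + 1)) := by
      apply Real.exp_le_exp.2
      apply mul_le_mul_of_nonneg_left _ hth
      exact_mod_cast h2
    have h4 : Real.exp (th * ((N.max' h : ℕ) + 1)) ≤ ∑ m ∈ range J, if m ∈ N then Real.exp (th * (m + 1)) else 0 := by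
      have := single_le_sum (f := fun m : ℕ => if m ∈ N then Real.exp (th * ((m : ℝ) + 1)) else 0) (s := range J)
        (fun m _ => by
          split_ifs
          · exact (Real.exp_pos _).le
          · exact le_rfl) (hN h1)
      rw [if_pos h1] at this
      exact this
    linarith

/-- the second moment of the weights -/
lemma second_mom (hX : ∀ j b, Measurable (X j b)) (hA : MeasurableSet A)
    (hC : ∀ ω ∈ A, ∀ j b, |X j b ω| ≤ C) (hv : ∀ j ∈ range J, v j ≤ vhi)
    (hcv : ∀ j b b', c j b b' ≤ v j)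
    (R : ℕ → ℝ) (rho : ℝ) (hrho : 0 ≤ rho)
    (hfar : ∀ j ∈ range J, ∀ b < r, ∀ b' < r, R j ≤ |(b : ℝ) - b'| → c j b b' ≤ rho)
    (lam w u th δ V th1 : ℝ) (hδ : 0 ≤ δ) (hw : 0 ≤ w) (hv0 : 0 ≤ vhi)
    (hV : V = ∑ j ∈ range J, v j) (hlam : 0 ≤ lam) (hth : 0 ≤ th)
    (hth1 : th1 = lam * w + lam ^ 2 / 2 * vhi)
    (Lp : ∀ α : ℕ → ℝ, (∀ j, 0 ≤ α j ∧ α j ≤ lam + th) → ∀ b < r, ∀ b' < r,
      ∫ ω in A, Real.exp (∑ j ∈ range J, α j * (X j b ω + X j b' ω)) ∂P ≤
        (1 + δ) * Real.exp (∑ j ∈ range J, α j ^ 2 * (v j + c j b b')))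
    {b b' : ℕ} (hb : b < r) (hb' : b' < r) :
    ∫ ω, Ph J X A v lam w u b ω * Ph J X A v lam w u b' ω ∂P ≤
      (1 + δ) * Real.exp (J * (lam ^ 2 * rho)) * (1 + ∑ m ∈ range J,
        if |(b : ℝ) - b'| < R m then Real.exp (th1 * (m + 1)) else 0) := by
  classical
  obtain ⟨N, hN⟩ : ∃ N : Finset ℕ, N = (range J).filter fun m => |(b : ℝ) - b'| < R m := ⟨_, rfl⟩
  have hNJ : N ⊆ range J := by rw [hN]; exact filter_subset _ _
  have hth10 : 0 ≤ th1 := by rw [hth1]; positivity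
  obtain ⟨α, hα⟩ : ∃ α : ℕ → ℝ, α = fun i => if i ∈ N then lam / 2 else lam := ⟨_, rfl⟩
  have hα1 : ∀ i, 0 ≤ α i ∧ α i ≤ lam + th := by
    intro i
    rw [hα]
    simp only
    split_ifs <;> constructor <;> linarith
  have h1 := Lp α hα1 b hb b' hb'
  obtain ⟨K0, hK0⟩ : ∃ K0 : ℝ, K0 = (∑ j ∈ range J, if j ∈ N then lam * (lam * v j + w) else 0) - lam ^ 2 * V := ⟨_, rfl⟩
  have hmE : Measurable fun ω => Real.exp (∑ j ∈ range J, α j * (X j b ω + X j b' ω)) := by
    apply Measurable.exp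
    exact Finset.measurable_fun_sum _ fun j _ => measurable_const.mul ((hX j b).add (hX j b'))
  have hmI : IntegrableOn (fun ω => Real.exp (∑ j ∈ range J, α j * (X j b ω + X j b' ω))) A P := by
    refine bdd_int hA hmE (M := Real.exp (∑ j ∈ range J, α j * (C + C))) fun ω hω => ?_
    rw [abs_of_pos (Real.exp_pos _)]
    apply Real.exp_le_exp.2
    apply sum_le_sum
    intro j _
    apply mul_le_mul_of_nonneg_left _ (hα1 j).1
    have a1 := (abs_le.1 (hC ω hω j b)).2
    have a2 := (abs_le.1 (hC ω hω j b')).2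
    linarith
  have hpt : ∀ ω, Ph J X A v lam w u b ω * Ph J X A v lam w u b' ω ≤
      A.indicator (fun ω => Real.exp K0 * Real.exp (∑ j ∈ range J, α j * (X j b ω + X j b' ω))) ω := by
    intro ω
    have hRn : 0 ≤ A.indicator (fun ω => Real.exp K0 * Real.exp (∑ j ∈ range J, α j * (X j b ω + X j b' ω))) ω :=
      Set.indicator_nonneg (fun _ _ => mul_nonneg (Real.exp_pos _).le (Real.exp_pos _).le) _
    by_cases hG : ω ∈ Gb J X A v lam w u b
    · by_cases hG' : ω ∈ Gb J X A v lam w u b'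
      · rw [Set.indicator_of_mem hG.1]
        unfold Ph
        rw [Set.indicator_of_mem hG, Set.indicator_of_mem hG', ← Real.exp_add, ← Real.exp_add]
        apply Real.exp_le_exp.2
        rw [← hV, hK0]
        have e1 : lam * Sb J X b ω - lam ^ 2 / 2 * V + (lam * Sb J X b' ω - lam ^ 2 / 2 * V) =
            ∑ j ∈ range J, lam * (X j b ω + X j b' ω) - lam ^ 2 * V := by
          rw [← mul_sum, sum_add_distrib]
          unfold Sb
          ring
        rw [e1]
        have h3 : ∑ j ∈ range J, lam * (X j b ω + X j b' ω) ≤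
            ∑ j ∈ range J, ((if j ∈ N then lam * (lam * v j + w) else 0) + α j * (X j b ω + X j b' ω)) := by
          apply sum_le_sum
          intro j hj
          rw [hα]
          simp only
          by_cases hjN : j ∈ N
          · rw [if_pos hjN, if_pos hjN]
            have a1 := hG.2.1 j hj
            have a2 := hG'.2.1 j hj
            have a3 := mul_le_mul_of_nonneg_left (add_le_add a1 a2) (by linarith : 0 ≤ lam / 2)
            linarith
          · rw [if_neg hjN, if_neg hjN]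
            linarith
        rw [sum_add_distrib] at h3
        linarith
      · unfold Ph at *
        rw [Set.indicator_of_notMem hG', mul_zero]
        exact hRn
    · unfold Ph at *
      rw [Set.indicator_of_notMem hG, zero_mul]
      exact hRn
  have hI : Integrable (A.indicator (fun ω => Real.exp K0 * Real.exp (∑ j ∈ range J, α j * (X j b ω + X j b' ω)))) P := by
    rw [integrable_indicator_iff hA]
    exact hmI.const_mul _
  have h2 : ∫ ω, Ph J X A v lam w u b ω * Ph J X A v lam w u b' ω ∂P ≤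
      Real.exp K0 * ∫ ω in A, Real.exp (∑ j ∈ range J, α j * (X j b ω + X j b' ω)) ∂P := by
    rw [← integral_const_mul, ← integral_indicator hA]
    refine integral_mono_of_nonneg (ae_of_all _ fun ω => ?_) hI (ae_of_all _ hpt)
    exact mul_nonneg (Ph_nonneg _ _ _ _ _ _ _ _ _) (Ph_nonneg _ _ _ _ _ _ _ _ _)
  refine h2.trans ((mul_le_mul_of_nonneg_left h1 (Real.exp_pos _).le).trans ?_)
  have h3 : Real.exp K0 * ((1 + δ) * Real.exp (∑ j ∈ range J, α j ^ 2 * (v j + c j b b'))) ≤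
      (1 + δ) * (Real.exp (J * (lam ^ 2 * rho)) * Real.exp (th1 * N.card)) := by
    rw [mul_left_comm, ← Real.exp_add, ← Real.exp_add]
    apply mul_le_mul_of_nonneg_left _ (by linarith)
    apply Real.exp_le_exp.2
    have e1 : K0 + ∑ j ∈ range J, α j ^ 2 * (v j + c j b b') = ∑ j ∈ range J,
        ((if j ∈ N then lam * (lam * v j + w) else 0) - lam ^ 2 * v j + α j ^ 2 * (v j + c j b b')) := by
      rw [hK0, hV, sum_add_distrib, sum_sub_distrib, mul_sum]
    have e2 : (J : ℝ) * (lam ^ 2 * rho) + th1 * N.card = ∑ j ∈ range J, (lam ^ 2 * rho + if j ∈ N then th1 else 0) := by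
      rw [sum_add_distrib, sum_const, card_range, nsmul_eq_mul, ← sum_filter]
      have : (range J).filter (fun j => j ∈ N) = N := by
        ext x
        rw [Finset.mem_filter]
        constructor
        · exact fun h => h.2
        · exact fun h => ⟨hNJ h, h⟩
      rw [this, sum_const, nsmul_eq_mul]
      ring
    rw [e1, e2]
    apply sum_le_sum
    intro j hj
    rw [hα]
    simp only
    by_cases hjN : j ∈ N
    · rw [if_pos hjN, if_pos hjN, if_pos hjN, hth1]
      have a1 := hcv j b b'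
      have a2 := hv j hj
      have a3 : lam ^ 2 / 4 * (v j + c j b b') ≤ lam ^ 2 / 4 * (vhi + vhi) :=
        mul_le_mul_of_nonneg_left (by linarith) (by positivity)
      have a4 : 0 ≤ lam ^ 2 * rho := by positivity
      nlinarith
    · rw [if_neg hjN, if_neg hjN, if_neg hjN]
      have hRj : R j ≤ |(b : ℝ) - b'| := by
        by_contra hcon
        push Not at hcon
        apply hjN
        rw [hN, Finset.mem_filter]
        exact ⟨hj, hcon⟩
      have a1 := hfar j hj b hb b' hb' hRj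
      have a2 := mul_le_mul_of_nonneg_left a1 (by positivity : 0 ≤ lam ^ 2)
      nlinarith
  refine h3.trans ?_
  rw [← mul_assoc]
  apply mul_le_mul_of_nonneg_left _ (mul_nonneg (by linarith) (Real.exp_pos _).le)
  refine (exp_card N J hNJ hth10).trans (le_of_eq ?_)
  congr 1
  apply sum_congr rfl
  intro m hm
  rw [hN]
  simp only [Finset.mem_filter, hm, true_and]

/-- pairs at a small distance -/
lemma near_count (r : ℕ) {R : ℝ} (hR : 0 ≤ R) (b : ℕ) :
    (((range r).filter fun b' : ℕ => |(b : ℝ) - b'| < R).card : ℝ) ≤ 2 * R + 1 := by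
  have h1 : (range r).filter (fun b' : ℕ => |(b : ℝ) - b'| < R) ⊆ Icc (b - ⌊R⌋₊) (b + ⌊R⌋₊) := by
    intro b' hb'
    rw [Finset.mem_filter] at hb'
    have h2 := abs_lt.1 hb'.2
    rw [Finset.mem_Icc]
    constructor
    · have h3 : ((b - b' : ℕ) : ℝ) ≤ R := by
        rcases le_total b' b with h | h
        · rw [Nat.cast_sub h]; linarith
        · rw [Nat.sub_eq_zero_of_le h]; simpa using hR
      have := Nat.le_floor h3
      omega
    · have h3 : ((b' - b : ℕ) : ℝ) ≤ R := by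
        rcases le_total b b' with h | h
        · rw [Nat.cast_sub h]; linarith
        · rw [Nat.sub_eq_zero_of_le h]; simpa using hR
      have := Nat.le_floor h3
      omega
  have h2 := card_le_card h1
  rw [Nat.card_Icc] at h2
  have h3 : ((range r).filter fun b' : ℕ => |(b : ℝ) - b'| < R).card ≤ 2 * ⌊R⌋₊ + 1 := by omega
  have h4 := Nat.floor_le hR
  have h5 : (((range r).filter fun b' : ℕ => |(b : ℝ) - b'| < R).card : ℝ) ≤ 2 * (⌊R⌋₊ : ℝ) + 1 := by
    exact_mod_cast h3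
  linarith

/-- **the truncated second moment method** -/
theorem sec (hr : 1 ≤ r) (hX : ∀ j b, Measurable (X j b)) (hA : MeasurableSet A) (hCp : 0 ≤ C)
    (hC : ∀ ω ∈ A, ∀ j b, |X j b ω| ≤ C) (hv : ∀ j ∈ range J, v j ≤ vhi)
    (hcd : ∀ j b, c j b b = v j) (hcv : ∀ j b b', c j b b' ≤ v j)
    (R : ℕ → ℝ) (hR : ∀ j, 1 ≤ R j) (rho : ℝ) (hrho : 0 ≤ rho)
    (hfar : ∀ j ∈ range J, ∀ b < r, ∀ b' < r, R j ≤ |(b : ℝ) - b'| → c j b b' ≤ rho)
    (lam w u th mu δ V th1 : ℝ) (hδ : 0 ≤ δ) (hw : 0 ≤ w) (hv0 : 0 ≤ vhi)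
    (hV : V = ∑ j ∈ range J, v j) (hlam : 0 ≤ lam) (hth : 0 ≤ th) (hmu : 0 ≤ mu) (hmul : mu ≤ lam)
    (hth1 : th1 = lam * w + lam ^ 2 / 2 * vhi)
    (Lp : ∀ α : ℕ → ℝ, (∀ j, 0 ≤ α j ∧ α j ≤ lam + th) → ∀ b < r, ∀ b' < r,
      ∫ ω in A, Real.exp (∑ j ∈ range J, α j * (X j b ω + X j b' ω)) ∂P ≤
        (1 + δ) * Real.exp (∑ j ∈ range J, α j ^ 2 * (v j + c j b b')))
    (Lm : ∀ b < r, (1 - δ) * Real.exp (lam ^ 2 / 2 * V) ≤
      ∫ ω in A, Real.exp (lam * Sb J X b ω) ∂P)
    (m1 : ℝ) (hm1 : m1 = (1 - δ) - (1 + δ) * (J * Real.exp (th ^ 2 / 2 * vhi - th * w)) -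
      (1 + δ) * Real.exp (mu ^ 2 / 2 * V - mu * (lam * V - u))) (hm0 : 0 ≤ m1) :
    m1 ^ 2 ≤ (1 + δ) * Real.exp (J * (lam ^ 2 * rho)) * (1 + ∑ m ∈ range J,
        Real.exp (th1 * (m + 1)) * (3 * R m) / r) * P.real {ω | ∃ b < r, u < Sb J X b ω} := by
  classical
  have hr0 : (0 : ℝ) < r := by exact_mod_cast hr
  obtain ⟨Ψ, hΨ⟩ : ∃ Ψ : Ω → ℝ, Ψ = fun ω => ∑ b ∈ range r, Ph J X A v lam w u b ω := ⟨_, rfl⟩
  obtain ⟨E, hE⟩ : ∃ E : Set Ω, E = {ω | ∃ b < r, u < Sb J X b ω} := ⟨_, rfl⟩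
  rw [← hE]
  have hEm : MeasurableSet E := by
    have : E = ⋃ b ∈ range r, {ω | u < Sb J X b ω} := by
      rw [hE]
      ext ω
      simp
    rw [this]
    exact Finset.measurableSet_biUnion _ fun b _ => measurableSet_lt measurable_const (Sb_meas hX b)
  have hPi : ∀ b, Integrable (Ph J X A v lam w u b) P := by
    intro b
    refine Integrable.of_bound (Ph_meas hX hA v lam w u b).aestronglyMeasurable
      (Real.exp (lam * (J * C) - lam ^ 2 / 2 * ∑ j ∈ range J, v j)) (ae_of_all _ fun ω => ?_)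
    rw [Real.norm_eq_abs, abs_of_nonneg (Ph_nonneg _ _ _ _ _ _ _ _ _)]
    exact Ph_le v hlam w u hC b ω
  have hPPi : ∀ b b', Integrable (fun ω => Ph J X A v lam w u b ω * Ph J X A v lam w u b' ω) P := by
    intro b b'
    refine Integrable.of_bound ((Ph_meas hX hA v lam w u b).mul (Ph_meas hX hA v lam w u b')).aestronglyMeasurable
      (Real.exp (lam * (J * C) - lam ^ 2 / 2 * ∑ j ∈ range J, v j) *
        Real.exp (lam * (J * C) - lam ^ 2 / 2 * ∑ j ∈ range J, v j)) (ae_of_all _ fun ω => ?_)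
    rw [norm_mul, Real.norm_eq_abs, abs_of_nonneg (Ph_nonneg _ _ _ _ _ _ _ _ _), Real.norm_eq_abs,
      abs_of_nonneg (Ph_nonneg _ _ _ _ _ _ _ _ _)]
    exact mul_le_mul (Ph_le v hlam w u hC b ω) (Ph_le v hlam w u hC b' ω) (Ph_nonneg _ _ _ _ _ _ _ _ _) (Real.exp_pos _).le
  have hI1 : Integrable Ψ P := by rw [hΨ]; exact integrable_finsetSum _ fun b _ => hPi b
  have hsq : ∀ ω, Ψ ω ^ 2 = ∑ b ∈ range r, ∑ b' ∈ range r, Ph J X A v lam w u b ω * Ph J X A v lam w u b' ω := by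
    intro ω
    rw [hΨ, sq]
    simp only
    rw [sum_mul_sum]
  have hI2 : Integrable (fun ω => Ψ ω ^ 2) P := by
    simp only [hsq]
    exact integrable_finsetSum _ fun b _ => integrable_finsetSum _ fun b' _ => hPPi b b'
  have ha : r * m1 ≤ ∫ ω, Ψ ω ∂P := by
    rw [hΨ]
    simp only
    rw [integral_finsetSum _ fun b _ => hPi b]
    have h1 : ∀ b ∈ range r, m1 ≤ ∫ ω, Ph J X A v lam w u b ω ∂P := by
      intro b hb
      rw [hm1]
      exact first_mom hX hA hCp hC hv hcd lam w u th mu δ V hδ hV hlam hth hmu hmul Lp Lm (mem_range.1 hb)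
    refine le_trans (le_of_eq ?_) (sum_le_sum h1)
    rw [sum_const, card_range, nsmul_eq_mul]
  obtain ⟨Q, hQ⟩ : ∃ Q : ℝ, Q = (1 + δ) * Real.exp (J * (lam ^ 2 * rho)) := ⟨_, rfl⟩
  have hQ0 : 0 ≤ Q := by rw [hQ]; exact mul_nonneg (by linarith) (Real.exp_pos _).le
  have hB : ∫ ω, Ψ ω ^ 2 ∂P ≤ Q * (r ^ 2 * (1 + ∑ m ∈ range J, Real.exp (th1 * (m + 1)) * (3 * R m) / r)) := by
    simp only [hsq]
    rw [integral_finsetSum _ fun b _ => integrable_finsetSum _ fun b' _ => hPPi b b']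
    have h1 : ∀ b ∈ range r, ∫ ω, ∑ b' ∈ range r, Ph J X A v lam w u b ω * Ph J X A v lam w u b' ω ∂P ≤
        Q * (r * (1 + ∑ m ∈ range J, Real.exp (th1 * (m + 1)) * (3 * R m) / r)) := by
      intro b hb
      rw [integral_finsetSum _ fun b' _ => hPPi b b']
      have h2 : ∀ b' ∈ range r, ∫ ω, Ph J X A v lam w u b ω * Ph J X A v lam w u b' ω ∂P ≤
          Q * (1 + ∑ m ∈ range J, if |(b : ℝ) - b'| < R m then Real.exp (th1 * (m + 1)) else 0) := by
        intro b' hb'
        rw [hQ]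
        exact second_mom hX hA hC hv hcv R rho hrho hfar lam w u th δ V th1 hδ hw hv0 hV hlam hth hth1 Lp
          (mem_range.1 hb) (mem_range.1 hb')
      refine (sum_le_sum h2).trans ?_
      rw [← mul_sum]
      apply mul_le_mul_of_nonneg_left _ hQ0
      rw [sum_add_distrib, sum_const, card_range, nsmul_eq_mul, mul_add, sum_comm]
      apply add_le_add le_rfl
      rw [mul_sum]
      apply sum_le_sum
      intro m _
      rw [← sum_filter, sum_const, nsmul_eq_mul]
      have h3 := near_count r (by linarith [hR m] : 0 ≤ R m) b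
      have h4 : (r : ℝ) * (Real.exp (th1 * (m + 1)) * (3 * R m) / r) = (3 * R m) * Real.exp (th1 * (m + 1)) := by
        field_simp
      rw [h4]
      apply mul_le_mul_of_nonneg_right _ (Real.exp_pos _).le
      linarith [hR m]
    refine (sum_le_sum h1).trans (le_of_eq ?_)
    rw [sum_const, card_range, nsmul_eq_mul]
    ring
  -- the quadratic form
  have hΨE : ∀ ω, ω ∉ E → Ψ ω = 0 := by
    intro ω hω
    rw [hΨ]
    simp only
    apply sum_eq_zero
    intro b hb
    unfold Ph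
    rw [Set.indicator_of_notMem]
    intro hG
    apply hω
    rw [hE]
    exact ⟨b, mem_range.1 hb, hG.2.2⟩
  have hquad : ∀ x : ℝ, 0 ≤ P.real E * (x * x) + (-2 * ∫ ω, Ψ ω ∂P) * x + ∫ ω, Ψ ω ^ 2 ∂P := by
    intro x
    have h1 : 0 ≤ ∫ ω, (Ψ ω ^ 2 - 2 * x * Ψ ω + E.indicator (fun _ => x * x) ω) ∂P := by
      apply integral_nonneg
      intro ω
      by_cases hω : ω ∈ E
      · simp only [Pi.zero_apply]
        rw [Set.indicator_of_mem hω]
        nlinarith [sq_nonneg (Ψ ω - x)]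
      · simp only [Pi.zero_apply]
        rw [Set.indicator_of_notMem hω, hΨE ω hω]
        simp
    have h2 : Integrable (E.indicator (fun _ : Ω => x * x)) P := by
      rw [integrable_indicator_iff hEm]
      exact integrableOn_const (measure_ne_top _ _)
    have h3 : Integrable (fun ω => 2 * x * Ψ ω) P := hI1.const_mul _
    have h4 : Integrable (fun ω => Ψ ω ^ 2 - 2 * x * Ψ ω) P := hI2.sub h3
    rw [integral_add h4 h2, integral_sub hI2 h3, integral_const_mul,
      integral_indicator hEm, setIntegral_const] at h1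
    rw [smul_eq_mul] at h1
    linarith
  have hdis := discrim_le_zero hquad
  unfold discrim at hdis
  have h5 : (∫ ω, Ψ ω ∂P) ^ 2 ≤ P.real E * ∫ ω, Ψ ω ^ 2 ∂P := by nlinarith
  have h6 : (r * m1) ^ 2 ≤ (∫ ω, Ψ ω ∂P) ^ 2 := pow_le_pow_left₀ (by positivity) ha 2
  have h7 : P.real E * ∫ ω, Ψ ω ^ 2 ∂P ≤ P.real E * (Q * (r ^ 2 * (1 + ∑ m ∈ range J,
      Real.exp (th1 * (m + 1)) * (3 * R m) / r))) := mul_le_mul_of_nonneg_left hB measureReal_nonneg
  have h8 : (r : ℝ) ^ 2 * m1 ^ 2 ≤ r ^ 2 * (Q * (1 + ∑ m ∈ range J,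
      Real.exp (th1 * (m + 1)) * (3 * R m) / r) * P.real E) := by
    calc (r : ℝ) ^ 2 * m1 ^ 2 = (r * m1) ^ 2 := by ring
      _ ≤ P.real E * (Q * (r ^ 2 * (1 + ∑ m ∈ range J, Real.exp (th1 * (m + 1)) * (3 * R m) / r))) := by linarith
      _ = _ := by ring
  have h9 := le_of_mul_le_mul_left h8 (by positivity)
  rw [← hQ]
  exact h9

end

end Pool.Agent.U403.Max
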