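import Pool.Agent.U403.Max.Lap
import Pool.Agent.R320.JL.Ze
import Pool.Agent.R320.JL.Leb

/-! # Moments and tails of prime sums on `(T, 2T]` -/

set_option autoImplicit false

open Filter Topology MeasureTheory Set
open Pool.Agent.Y743.CL
open Pool.Agent.R320.JL

namespace Pool.Agent.U403.Max

noncomputable section

/-- the uniform law on `(T, 2T]` -/
def PT (T : ℝ) : Measure ℝ := (ENNReal.ofReal T)⁻¹ • volume.restrict (Ioc T (2 * T))

lemma PT_univ {T : ℝ} (hT : 0 < T) : IsProbabilityMeasure (PT T) := by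
  constructor
  unfold PT
  rw [Measure.smul_apply, Measure.restrict_apply MeasurableSet.univ, Set.univ_inter, Real.volume_Ioc,
    smul_eq_mul]
  have : 2 * T - T = T := by ring
  rw [this]
  exact ENNReal.inv_mul_cancel (by simpa using hT) ENNReal.ofReal_ne_top

lemma PT_int {T : ℝ} (hT : 0 < T) (f : ℝ → ℝ) : ∫ t, f t ∂(PT T) = (∫ t in T..(2 * T), f t) / T := by
  unfold PT
  rw [integral_smul_measure, intervalIntegral.integral_of_le (by linarith), ENNReal.toReal_inv,
    ENNReal.toReal_ofReal hT.le, smul_eq_mul]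
  rw [div_eq_inv_mul]

lemma PT_real {T : ℝ} (hT : 0 < T) {S : Set ℝ} (hS : MeasurableSet S) :
    (PT T).real S = volume.real (S ∩ Ioc T (2 * T)) / T := by
  unfold PT
  rw [measureReal_ennreal_smul_apply, Measure.real, Measure.restrict_apply hS, ENNReal.toReal_inv,
    ENNReal.toReal_ofReal hT.le]
  rw [div_eq_inv_mul]
  rfl

lemma PT_integrable {T : ℝ} (hT : 0 < T) {f : ℝ → ℝ} (hf : Continuous f) : Integrable f (PT T) := by
  unfold PT
  apply Integrable.smul_measure
  · exact (hf.continuousOn.integrableOn_compact isCompact_Icc).mono_set Ioc_subset_Icc_self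
  · simpa using hT

/-- the moments are close to the normal ones -/
lemma mom_near (N : ℕ) (K δ : ℝ) (hK : 0 ≤ K) (hδ : 0 < δ) : ∃ D : ℝ, 1 ≤ D ∧ ∀ (z : ℕ → ℂ) (X : ℕ) (T : ℝ),
    D ≤ T → 1 ≤ X → (∀ p, ‖z p‖ ^ 2 ≤ 1 / D) → ((X ^ N : ℕ) : ℝ) ≤ Real.sqrt T → VS (nz z) X ≤ K →
    ∀ m ≤ N, |∫ t, (PP z X t).re ^ m ∂(PT T) - Gm (VS (nz z) X / 2) m| ≤ δ := by
  obtain ⟨C1, hC1⟩ : ∃ C1 : ℝ, C1 = N.factorial * (1 + K) ^ N := ⟨_, rfl⟩
  have hC10 : 0 < C1 := by rw [hC1]; positivity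
  have h3 := Pool.Agent.Y41.SW.err_tendsto
  have h4 : ∀ᶠ T : ℝ in atTop, Real.sqrt T * (1 + Real.log T) / T < δ / (16 * C1) :=
    h3.eventually (gt_mem_nhds (by positivity))
  obtain ⟨T0, hT0⟩ := h4.exists_forall_of_atTop
  refine ⟨max 1 (max T0 (2 * C1 * N ^ 2 / δ)), le_max_left _ _, fun z X T hT hX hz hXT hV m hm => ?_⟩
  obtain ⟨D, hD⟩ : ∃ D : ℝ, D = max 1 (max T0 (2 * C1 * N ^ 2 / δ)) := ⟨_, rfl⟩
  rw [← hD] at hT hz
  have hD1 : 1 ≤ D := by rw [hD]; exact le_max_left _ _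
  have hDT : T0 ≤ D := by rw [hD]; exact (le_max_left _ _).trans (le_max_right _ _)
  have hDC : 2 * C1 * N ^ 2 / δ ≤ D := by rw [hD]; exact (le_max_right _ _).trans (le_max_right _ _)
  have hT1 : 1 ≤ T := hD1.trans hT
  have hTp : 0 < T := by linarith
  have hV0 := VS_nonneg (nz z) X
  have hK1 : (1 : ℝ) ≤ 1 + K := by linarith
  have hNf : (m.factorial : ℝ) * (1 + K) ^ m ≤ C1 := by
    rw [hC1]
    apply mul_le_mul _ (pow_le_pow_right₀ hK1 hm) (by positivity) (by positivity)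
    exact_mod_cast Nat.factorial_le hm
  have h1 := momR z X hX T T (2 * T) 1 K hT1 (by linarith) one_pos hK (by rw [one_pow, mul_one]; exact hV) m (by
    refine le_trans ?_ hXT
    exact_mod_cast Nat.pow_le_pow_right hX hm)
  have e0 : (∫ t in T..(2 * T), ((((PP z X t).re / 1) ^ m : ℝ) : ℂ)) =
      ((∫ t in T..(2 * T), (PP z X t).re ^ m : ℝ) : ℂ) := by
    rw [← intervalIntegral.integral_ofReal]
    simp only [div_one]
  rw [e0, ← Complex.ofReal_mul, ← Complex.ofReal_sub, Complex.norm_real, Real.norm_eq_abs] at h1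
  have e1 : 2 * T - T = T := by ring
  rw [e1] at h1
  have h2 : |(∫ t in T..(2 * T), (PP z X t).re ^ m) / T - gm z X 1 m| ≤ δ / 2 := by
    have e2 : (∫ t in T..(2 * T), (PP z X t).re ^ m) / T - gm z X 1 m =
        ((∫ t in T..(2 * T), (PP z X t).re ^ m) - T * gm z X 1 m) / T := by field_simp
    rw [e2, abs_div, abs_of_pos hTp, div_le_iff₀ hTp]
    refine h1.trans ?_
    have h5 := hT0 T (hDT.trans hT)
    rw [div_lt_div_iff₀ hTp (by positivity)] at h5
    have h6 : 0 ≤ Real.sqrt T * (1 + Real.log T) := mul_nonneg (Real.sqrt_nonneg _)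
      (by have := Real.log_nonneg hT1; linarith)
    calc 8 * (Real.sqrt T * (1 + Real.log T)) * (m.factorial * (1 + K) ^ m) ≤
        8 * (Real.sqrt T * (1 + Real.log T)) * C1 := mul_le_mul_of_nonneg_left hNf (by positivity)
      _ ≤ δ / 2 * T := by linarith
  have h7 : |gm z X 1 m - Gm (VS (nz z) X / 2) m| ≤ δ / 2 := by
    rcases Nat.even_or_odd' m with ⟨a, ha | ha⟩
    · rw [ha, Gm_even]
      have g1 := gm_even z X 1 one_pos a
      have hf : ((2 * a).factorial : ℝ) ≠ 0 := by positivity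
      have g2 : gm z X 1 (2 * a) = (2 * a).factorial * (SS (nz z) X a / (a.factorial ^ 2 * (4 * 1 ^ 2) ^ a)) := by
        rw [← g1]; field_simp
      obtain ⟨n1, n2⟩ := SS_near z X 1 K (1 / D) one_pos hK (by positivity) hz
        (by rw [one_pow, mul_one]; exact hV) a
      simp only [one_pow, mul_one, div_one] at n1 n2
      rw [g2]
      have g3 : ((2 * a).factorial : ℝ) * (SS (nz z) X a / (a.factorial ^ 2 * (4 * 1 ^ 2) ^ a)) -
          ((2 * a).factorial : ℝ) / a.factorial * (VS (nz z) X / 2 / 2) ^ a =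
          -(((2 * a).factorial : ℝ) / (a.factorial * 4 ^ a) * (VS (nz z) X ^ a - SS (nz z) X a / a.factorial)) := by
        have k1 : (VS (nz z) X / 2 / 2) ^ a = VS (nz z) X ^ a / 4 ^ a := by
          rw [← div_pow]; congr 1; ring
        rw [k1, one_pow, mul_one]
        field_simp
        ring
      rw [g3, abs_neg, abs_mul, abs_of_nonneg (a := VS (nz z) X ^ a - SS (nz z) X a / a.factorial) (by linarith),
        abs_of_nonneg (a := ((2 * a).factorial : ℝ) / (a.factorial * 4 ^ a)) (by positivity)]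
      have g4 : ((2 * a).factorial : ℝ) / (a.factorial * 4 ^ a) ≤ N.factorial := by
        rw [div_le_iff₀ (by positivity)]
        have k1 : ((2 * a).factorial : ℝ) ≤ N.factorial := by
          exact_mod_cast Nat.factorial_le (by omega)
        have k2 : (1 : ℝ) ≤ (a.factorial : ℝ) * 4 ^ a := by
          have k3 : (1 : ℝ) ≤ a.factorial := by exact_mod_cast Nat.succ_le_of_lt (Nat.factorial_pos a)
          have k4 : (1 : ℝ) ≤ 4 ^ a := one_le_pow₀ (by norm_num)
          nlinarith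
        have k3 : (0 : ℝ) ≤ N.factorial := by positivity
        nlinarith
      have g5 : VS (nz z) X ^ a - SS (nz z) X a / a.factorial ≤ N ^ 2 * (1 / D) * (1 + K) ^ N := by
        refine n2.trans ?_
        have k1 : (a : ℝ) ≤ N := by exact_mod_cast (by omega : a ≤ N)
        have k2 : (a : ℝ) ^ 2 ≤ N ^ 2 := pow_le_pow_left₀ (Nat.cast_nonneg _) k1 2
        have k3 : (1 + K) ^ a ≤ (1 + K) ^ N := pow_le_pow_right₀ hK1 (by omega)
        gcongr
      calc _ ≤ (N.factorial : ℝ) * (N ^ 2 * (1 / D) * (1 + K) ^ N) :=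
            mul_le_mul g4 g5 (by linarith) (by positivity)
        _ = C1 * N ^ 2 / D := by rw [hC1]; ring
        _ ≤ δ / 2 := by
            rw [div_le_iff₀ (by linarith)]
            rw [div_le_iff₀ hδ] at hDC
            linarith
    · rw [ha, gm_odd, Gm_odd]
      simp
      positivity
  rw [PT_int hTp]
  have := abs_add_le ((∫ t in T..(2 * T), (PP z X t).re ^ m) / T - gm z X 1 m)
    (gm z X 1 m - Gm (VS (nz z) X / 2) m)
  rw [sub_add_sub_cancel] at this
  linarith

lemma sqrt_log_le {T : ℝ} (hT : 1 ≤ T) : Real.sqrt T * (1 + Real.log T) ≤ 2 * T := by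
  have h0 : 0 < T := by linarith
  have h1 : Real.log T = 2 * Real.log (Real.sqrt T) := by
    rw [Real.log_sqrt h0.le]; ring
  have h2 : 0 < Real.sqrt T := Real.sqrt_pos.2 h0
  have h3 := Real.log_le_sub_one_of_pos h2
  have h4 : Real.sqrt T * Real.sqrt T = T := Real.mul_self_sqrt h0.le
  rw [h1]
  nlinarith

/-- the high moments -/
lemma mom_up (z : ℕ → ℂ) (X : ℕ) (hX : 1 ≤ X) (T A V : ℝ) (hT : 1 ≤ T) (k : ℕ)
    (hXT : ((X ^ (k + k) : ℕ) : ℝ) ≤ Real.sqrt T) (hV : VS (nz z) X ≤ V) :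
    ∫ t in A..(A + T), ‖PP z X t‖ ^ (2 * k) ≤ 17 * T * (k.factorial * V ^ k) := by
  have hV0 := VS_nonneg (nz z) X
  have h1 := mom_bd z X hX T A (A + T) hT (by linarith) k k hXT
  rw [if_pos rfl] at h1
  have e1 : ∀ t : ℝ, PP z X t ^ k * (starRingEnd ℂ) (PP z X t) ^ k = ((‖PP z X t‖ ^ (2 * k) : ℝ) : ℂ) := by
    intro t
    rw [← mul_pow, Complex.mul_conj, Complex.normSq_eq_norm_sq, pow_mul]
    push_cast
    ring
  simp only [e1] at h1
  rw [intervalIntegral.integral_ofReal, ← Complex.ofReal_mul, ← Complex.ofReal_sub, Complex.norm_real,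
    Real.norm_eq_abs] at h1
  have h2 := (abs_le.1 h1).2
  have e2 : A + T - A = T := by ring
  rw [e2, Real.mul_self_sqrt (by positivity)] at h2
  have h3 := Pool.Agent.Y743.CL.SS_le (nz z) X k
  have h4 : (k.factorial : ℝ) * VS (nz z) X ^ k ≤ k.factorial * V ^ k :=
    mul_le_mul_of_nonneg_left (pow_le_pow_left₀ hV0 hV k) (by positivity)
  have h5 := sqrt_log_le hT
  have h6 : 0 ≤ (k.factorial : ℝ) * VS (nz z) X ^ k := by positivity
  have h7 : 8 * (Real.sqrt T * (1 + Real.log T)) * (k.factorial * VS (nz z) X ^ k) ≤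
      16 * T * (k.factorial * VS (nz z) X ^ k) := mul_le_mul_of_nonneg_right (by linarith) h6
  have h8 : T * SS (nz z) X k ≤ T * (k.factorial * VS (nz z) X ^ k) :=
    mul_le_mul_of_nonneg_left h3 (by linarith)
  have h9 : 17 * T * ((k.factorial : ℝ) * VS (nz z) X ^ k) ≤ 17 * T * (k.factorial * V ^ k) :=
    mul_le_mul_of_nonneg_left h4 (by linarith)
  linarith

/-- **the tail** -/
lemma tail_vol (z : ℕ → ℂ) (X : ℕ) (hX : 1 ≤ X) (T A V v : ℝ) (hT : 1 ≤ T) (k : ℕ)
    (hXT : ((X ^ (k + k) : ℕ) : ℝ) ≤ Real.sqrt T) (hV : VS (nz z) X ≤ V) (hv : 0 < v) :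
    volume.real ({t | v ≤ ‖PP z X t‖} ∩ Ioc A (A + T)) ≤ 17 * T * (k.factorial * V ^ k) / v ^ (2 * k) := by
  rw [le_div_iff₀ (by positivity)]
  refine le_trans ?_ (mom_up z X hX T A V hT k hXT hV)
  have hc := PP_cont z X
  have hm : MeasurableSet ({t | v ≤ ‖PP z X t‖} ∩ Ioc A (A + T)) :=
    (measurableSet_le measurable_const hc.norm.measurable).inter measurableSet_Ioc
  have hi : IntegrableOn (fun t => ‖PP z X t‖ ^ (2 * k)) (Ioc A (A + T)) :=
    ((hc.norm.pow _).continuousOn.integrableOn_compact isCompact_Icc).mono_set Ioc_subset_Icc_self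
  rw [intervalIntegral.integral_of_le (by linarith)]
  have h1 : ∫ t in {t | v ≤ ‖PP z X t‖} ∩ Ioc A (A + T), v ^ (2 * k) ≤
      ∫ t in Ioc A (A + T), ‖PP z X t‖ ^ (2 * k) := by
    refine le_trans ?_ (setIntegral_mono_set hi (ae_of_all _ fun t => by positivity)
      (Eventually.of_forall fun t (ht : t ∈ {t | v ≤ ‖PP z X t‖} ∩ Ioc A (A + T)) => ht.2))
    refine setIntegral_mono_on ?_ (hi.mono_set inter_subset_right) hm ?_
    · refine integrableOn_const (ne_top_of_le_ne_top (b := volume (Ioc A (A + T))) ?_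
        (measure_mono inter_subset_right))
      rw [Real.volume_Ioc]; exact ENNReal.ofReal_ne_top
    · intro t ht
      exact pow_le_pow_left₀ hv.le ht.1 _
  rw [setIntegral_const, smul_eq_mul] at h1
  exact h1

/-- the field of a set of primes -/
def fld (l : ℝ) (I : Finset ℕ) (s : ℝ) : ℝ := -∑ p ∈ I, be l p * Real.sin (s * Real.log p)

/-- the coefficients of a set of primes -/
def zI (l : ℝ) (I : Finset ℕ) (p : ℕ) : ℂ := if p ∈ I then (be l p : ℂ) else 0

lemma fld_cont (l : ℝ) (I : Finset ℕ) : Continuous (fld l I) := by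
  unfold fld
  fun_prop

lemma cpow_re_im {p : ℕ} (hp : p ≠ 0) (s : ℝ) : (p : ℂ) ^ (-(s : ℂ) * Complex.I) =
    (Real.cos (s * Real.log p) : ℂ) - Complex.I * (Real.sin (s * Real.log p) : ℂ) := by
  rw [cpow_ex hp]
  have : -(Complex.I * ((s * Real.log p : ℝ) : ℂ)) = ((-(s * Real.log p) : ℝ) : ℂ) * Complex.I := by
    push_cast; ring
  rw [this, Complex.exp_mul_I, ← Complex.ofReal_cos, ← Complex.ofReal_sin, Real.cos_neg, Real.sin_neg]
  push_cast
  ring

lemma fld_eq (l : ℝ) {I : Finset ℕ} {X : ℕ} (hI : I ⊆ Pr X) (s : ℝ) :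
    fld l I s = (PP (zI l I) X s).im := by
  unfold fld PP zI
  rw [Complex.im_sum, ← Finset.sum_neg_distrib, ← Finset.sum_subset hI]
  · refine Finset.sum_congr rfl fun p hp => ?_
    have hp' := mem_Pr.1 (hI hp)
    rw [if_pos hp, cpow_re_im hp'.1.ne_zero, Complex.im_ofReal_mul, Complex.sub_im, Complex.ofReal_im,
      Complex.mul_im, Complex.I_re, Complex.I_im, Complex.ofReal_re, Complex.ofReal_im]
    ring
  · intro p _ hp
    rw [if_neg hp]
    simp

lemma zI_VS (l : ℝ) {I : Finset ℕ} {X : ℕ} (hI : I ⊆ Pr X) :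
    VS (nz (zI l I)) X = ∑ p ∈ I, be l p ^ 2 := by
  unfold VS nz zI
  rw [← Finset.sum_subset hI]
  · refine Finset.sum_congr rfl fun p hp => ?_
    rw [if_pos hp, Complex.norm_real, Real.norm_eq_abs, sq_abs]
  · intro p _ hp
    rw [if_neg hp]
    simp

/-- the tail of a field at a shifted height -/
lemma fld_tail (l : ℝ) {I : Finset ℕ} {X : ℕ} (hI : I ⊆ Pr X) (hX : 1 ≤ X) (T h V v : ℝ) (hT : 1 ≤ T) (k : ℕ)
    (hXT : ((X ^ (k + k) : ℕ) : ℝ) ≤ Real.sqrt T) (hV : ∑ p ∈ I, be l p ^ 2 ≤ V) (hv : 0 < v) :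
    (PT T).real {t | v ≤ |fld l I (t + h)|} ≤ 17 * (k.factorial * V ^ k) / v ^ (2 * k) := by
  have hT0 : 0 < T := by linarith
  have hm : MeasurableSet {t | v ≤ |fld l I (t + h)|} :=
    measurableSet_le measurable_const ((fld_cont l I).measurable.comp (measurable_id.add_const h)).abs
  rw [PT_real hT0 hm, div_le_iff₀ hT0]
  have h1 := tail_vol (zI l I) X hX T (T + h) V v hT k hXT (by rw [zI_VS l hI]; exact hV) hv
  have h2 : volume.real ({t | v ≤ |fld l I (t + h)|} ∩ Ioc T (2 * T)) ≤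
      volume.real ({t | v ≤ ‖PP (zI l I) X t‖} ∩ Ioc (T + h) (T + h + T)) := by
    have e1 : volume.real ({t | v ≤ ‖PP (zI l I) X t‖} ∩ Ioc (T + h) (T + h + T)) =
        volume.real ((fun t => t + h) ⁻¹' ({t | v ≤ ‖PP (zI l I) X t‖} ∩ Ioc (T + h) (T + h + T))) := by
      unfold Measure.real
      rw [measure_preimage_add_right]
    rw [e1]
    apply measureReal_mono
    · intro t ht
      refine ⟨?_, ?_⟩
      · have h3 := ht.1
        simp only [Set.mem_ofPred_eq] at h3 ⊢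
        rw [fld_eq l hI] at h3
        exact h3.trans (Complex.abs_im_le_norm _)
      · have h3 := ht.2
        simp only [mem_Ioc] at h3 ⊢
        constructor <;> linarith [h3.1, h3.2]
    · rw [measure_preimage_add_right]
      refine ne_top_of_le_ne_top (b := volume (Ioc (T + h) (T + h + T))) ?_ (measure_mono inter_subset_right)
      rw [Real.volume_Ioc]; exact ENNReal.ofReal_ne_top
  refine h2.trans (h1.trans (le_of_eq ?_))
  ring

end

end Pool.Agent.U403.Max
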