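import Pool.Agent.U403.Max.Comb

/-! # From heights to zeros: one zero -/

set_option autoImplicit false

namespace Pool.Agent.U403.Max

open Filter Topology MeasureTheory Set
open Pool.Agent.R320.JL (YY YY_meas SS_gL)
open Pool.Agent.Y743.NC (dev dev_nonneg dev_int ff)
open Pool.Agent.Y743.LR (yv)
open Pool.Agent.R320.CL (SS)
open SG (NZ ord)

noncomputable section

/-- the good zeros -/
def GoodZ (R : ℕ) (ε : ℝ) (n : ℕ) : Prop :=
  (∀ b : ℕ, 1 ≤ b → b ≤ R → |SS b n - b| ≤ (1 / Real.pi + ε) * Real.log R) ∧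
  (∃ b : ℕ, 1 ≤ b ∧ b ≤ R ∧ (1 / Real.pi - ε) * Real.log R ≤ SS b n - b) ∧
  (∃ b : ℕ, 1 ≤ b ∧ b ≤ R ∧ (1 / Real.pi - ε) * Real.log R ≤ b - SS b n)

/-- a good height before a zero -/
lemma one_good {T ε t q : ℝ} {r M R n : ℕ} (hT : 100 ≤ T) (hε : 0 < ε) (hε1 : ε ≤ 1 / 10)
    (hR1 : 2 * r ≤ R) (hR2 : R ≤ 2 * r + 1) (hq : q = Real.log r) (hn : 1 ≤ n)
    (h1 : T ≤ ord n) (h2 : ord n ≤ 2 * T)
    (n1 : (M : ℝ) + 2 ≤ ε * q) (n2 : (4 : ℝ) * q + M + 10 ≤ r) (n3 : 64 * (r : ℝ) ≤ Real.log T)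
    (n4 : q ≤ Real.log R) (n5 : (1 / Real.pi - 6 * ε) * Real.log R ≤ (1 / Real.pi - 5 * ε) * q)
    (ht1 : ord n - M * (2 * Real.pi / Real.log T) ≤ t) (ht2 : t < ord n) (hW : Good T r M ε t) :
    GoodZ R (6 * ε) n := by
  have hpi := Real.pi_pos
  have hpi3 := Real.pi_gt_three
  obtain ⟨L, hL⟩ : ∃ L : ℝ, L = Real.log T := ⟨_, rfl⟩
  have hL0 : 0 < L := by rw [hL]; exact Real.log_pos (by linarith)
  have hM0 : (0 : ℝ) ≤ M := Nat.cast_nonneg _
  have hεq : 0 < ε * q := by linarith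
  have hq0 : 0 < q := by
    by_contra h
    push Not at h
    nlinarith
  have hpi1 : 1 / Real.pi ≤ 1 / 3 := one_div_le_one_div_of_le (by norm_num) hpi3.le
  have hpi2 : 0 < 1 / Real.pi := by positivity
  have hpiq : 1 / Real.pi * q ≤ 1 / 3 * q := mul_le_mul_of_nonneg_right hpi1 hq0.le
  have hpiq0 : 0 < 1 / Real.pi * q := by positivity
  have hpi4 : 5 / 16 ≤ 1 / Real.pi := by
    rw [div_le_div_iff₀ (by norm_num) hpi]
    have := Real.pi_lt_d2
    linarith
  have hpiq4 : 5 / 16 * q ≤ 1 / Real.pi * q := mul_le_mul_of_nonneg_right hpi4 hq0.le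
  have hεq1 : ε * q ≤ 1 / 10 * q := mul_le_mul_of_nonneg_right hε1 hq0.le
  have hR1' : 2 * (r : ℝ) ≤ R := by exact_mod_cast hR1
  have hR2' : (R : ℝ) ≤ 2 * r + 1 := by exact_mod_cast hR2
  unfold Good at hW
  rw [← hq] at hW
  obtain ⟨g1, g2, g3, g4⟩ := hW
  -- the neighbours of the height
  have a1 : (NZ t : ℝ) + 1 ≤ n := by
    have : NZ t < n := by
      by_contra hcon
      push Not at hcon
      have := (SG.ord_le_iff hn _).mpr hcon
      linarith
    exact_mod_cast this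
  have hto : ord n ≤ t + 2 * Real.pi * M / L := by
    have e : 2 * Real.pi * M / L = M * (2 * Real.pi / Real.log T) := by rw [hL]; ring
    rw [e]
    linarith
  have a2 : (n : ℝ) ≤ NZ t + M + ε * q := by
    have h3 : n ≤ NZ (t + 2 * Real.pi * M / L) := (SG.ord_le_iff hn _).mp hto
    have h4 : (n : ℝ) ≤ NZ (t + 2 * Real.pi * M / L) := by exact_mod_cast h3
    have h5 := (abs_le.1 g4).2
    unfold YY at h5
    rw [← hL] at h5
    linarith
  -- scaled ordinates
  have hyv : ∀ k : ℕ, ord k = yv T k * (2 * Real.pi / L) := by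
    intro k
    unfold yv
    rw [← hL]
    field_simp
  have hw : 0 < 2 * Real.pi / L := by positivity
  have hfrac : ∀ x : ℝ, 2 * Real.pi * x / L = x * (2 * Real.pi / L) := fun x => by ring
  -- upper deviations
  have hU : ∀ m : ℕ, 1 ≤ m → m ≤ R → ff T m n ≤ (1 / Real.pi + 2 * ε) * q + M + 1 := by
    intro m hm hmR
    by_contra hcon
    push Not at hcon
    obtain ⟨y, hy⟩ : ∃ y : ℝ, y = (1 / Real.pi + 2 * ε) * q + M + 1 := ⟨_, rfl⟩
    rw [← hy] at hcon
    have hy0 : 0 < y := by rw [hy]; positivity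
    have hmR' : (m : ℝ) ≤ R := by exact_mod_cast hmR
    have hm1 : (1 : ℝ) ≤ m := by exact_mod_cast hm
    have hyr : y ≤ r - 5 := by rw [hy]; linarith
    obtain ⟨b, hb⟩ : ∃ b : ℕ, b = ⌊(m : ℝ) + y⌋₊ := ⟨_, rfl⟩
    have hb1 : (b : ℝ) ≤ m + y := by rw [hb]; exact Nat.floor_le (by positivity)
    have hb2 : (m : ℝ) + y < b + 1 := by rw [hb]; exact Nat.lt_floor_add_one _
    have hb3 : 1 ≤ b := by
      have : (0 : ℝ) < b := by linarith
      exact_mod_cast this
    have hb4 : b < 4 * r := by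
      have : (b : ℝ) < 4 * r := by linarith
      exact_mod_cast this
    have h5 : NZ (t + 2 * Real.pi * b / L) < n + m := by
      by_contra hc
      push Not at hc
      have h6 := (SG.ord_le_iff (by omega : 1 ≤ n + m) _).mpr hc
      have h7 : t + 2 * Real.pi * b / L < ord (n + m) := by
        unfold ff at hcon
        rw [hyv (n + m), hfrac]
        have h8 : yv T n * (2 * Real.pi / L) + (m + y) * (2 * Real.pi / L) < yv T (n + m) * (2 * Real.pi / L) := by
          rw [← add_mul]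
          exact mul_lt_mul_of_pos_right (by linarith) hw
        rw [← hyv n] at h8
        have h9 := mul_le_mul_of_nonneg_right hb1 hw.le
        linarith
      linarith
    have h6 : (NZ (t + 2 * Real.pi * b / L) : ℝ) + 1 ≤ n + m := by exact_mod_cast h5
    have h7 := (abs_le.1 (g1 b hb3 hb4)).1
    unfold YY at h7
    rw [← hL] at h7
    have : (1 / Real.pi + ε) * q + ε * q + M + 1 = y := by rw [hy]; ring
    linarith
  -- lower deviations
  have hD : ∀ m : ℕ, 1 ≤ m → m ≤ R → -ff T m n ≤ (1 / Real.pi + ε) * q + M + 1 := by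
    intro m hm hmR
    by_contra hcon
    push Not at hcon
    obtain ⟨y, hy⟩ : ∃ y : ℝ, y = (1 / Real.pi + ε) * q + M + 1 := ⟨_, rfl⟩
    rw [← hy] at hcon
    have hy0 : 0 < y := by rw [hy]; positivity
    have hmR' : (m : ℝ) ≤ R := by exact_mod_cast hmR
    have hm1 : (1 : ℝ) ≤ m := by exact_mod_cast hm
    have hlt : ord (n + m) < ord n + (m - y) * (2 * Real.pi / L) := by
      unfold ff at hcon
      rw [hyv (n + m), hyv n, ← add_mul]
      exact mul_lt_mul_of_pos_right (by linarith) hw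
    have hmono : ord n ≤ ord (n + m) := SG.ord_mono hn (by omega)
    have hmy : 0 < (m : ℝ) - y := by
      by_contra h
      push Not at h
      have := mul_nonpos_of_nonpos_of_nonneg h hw.le
      linarith
    obtain ⟨b, hb⟩ : ∃ b : ℕ, b = ⌈(m : ℝ) - y⌉₊ + M := ⟨_, rfl⟩
    have hc1 : (m : ℝ) - y + M ≤ b := by rw [hb]; push_cast; linarith [Nat.le_ceil ((m : ℝ) - y)]
    have hc2 : (b : ℝ) < m - y + 1 + M := by rw [hb]; push_cast; linarith [Nat.ceil_lt_add_one hmy.le]
    have hb3 : 1 ≤ b := by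
      have : (0 : ℝ) < b := by linarith
      exact_mod_cast this
    have hb4 : b < 4 * r := by
      have : (b : ℝ) < 4 * r := by linarith
      exact_mod_cast this
    have h5 : n + m ≤ NZ (t + 2 * Real.pi * b / L) := by
      refine (SG.ord_le_iff (by omega : 1 ≤ n + m) _).mp ?_
      rw [hfrac] at hto ⊢
      have h9 := mul_le_mul_of_nonneg_right hc1 hw.le
      have e : ((m : ℝ) - y + M) * (2 * Real.pi / L) = (m - y) * (2 * Real.pi / L) + M * (2 * Real.pi / L) := by ring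
      linarith
    have h6 : (n : ℝ) + m ≤ NZ (t + 2 * Real.pi * b / L) := by exact_mod_cast h5
    have h7 := (abs_le.1 (g1 b hb3 hb4)).2
    unfold YY at h7
    rw [← hL] at h7
    linarith
  -- large deviations above
  have hE1 : ∃ m : ℕ, 1 ≤ m ∧ m ≤ R ∧ (1 / Real.pi - ε) * q - M ≤ ff T m n := by
    obtain ⟨b, hb1, hbr, hb⟩ := g3
    unfold YY at hb
    rw [← hL] at hb
    obtain ⟨k, hk⟩ : ∃ k : ℕ, k = NZ (t + 2 * Real.pi * b / L) := ⟨_, rfl⟩
    rw [← hk] at hb
    have hb0 : (0 : ℝ) ≤ b := Nat.cast_nonneg _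
    have hmon : NZ t ≤ k := by
      rw [hk]
      apply SG.NZ_mono
      have : 0 ≤ 2 * Real.pi * b / L := by positivity
      linarith
    have hmon' : (NZ t : ℝ) ≤ k := by exact_mod_cast hmon
    have hbM : (M : ℝ) ≤ b := by linarith
    have hkn : n ≤ k := by
      rw [hk]
      refine (SG.ord_le_iff hn _).mp (hto.trans ?_)
      have h9 := mul_le_mul_of_nonneg_right hbM hw.le
      rw [hfrac, hfrac]
      linarith
    obtain ⟨m, hm⟩ : ∃ m : ℕ, k + 1 = n + m := ⟨k + 1 - n, by omega⟩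
    have hm' : (k : ℝ) + 1 = n + m := by exact_mod_cast hm
    have hbr' : (b : ℝ) < r := by exact_mod_cast hbr
    refine ⟨m, by omega, ?_, ?_⟩
    · have : (m : ℝ) ≤ R := by linarith
      exact_mod_cast this
    · have h5 : t + 2 * Real.pi * b / L < ord (n + m) := by
        by_contra hc
        push Not at hc
        have := (SG.ord_le_iff (by omega : 1 ≤ n + m) _).mp hc
        omega
      rw [hfrac] at h5 hto
      rw [hyv (n + m)] at h5
      rw [hyv n] at hto
      have h6 : (yv T n + b) * (2 * Real.pi / L) < (yv T (n + m) + M) * (2 * Real.pi / L) := by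
        rw [add_mul, add_mul]
        linarith
      have h7 := lt_of_mul_lt_mul_right h6 hw.le
      unfold ff
      linarith
  -- large deviations below
  have hE2 : ∃ m : ℕ, 1 ≤ m ∧ m ≤ R ∧ (1 / Real.pi - 2 * ε) * q - M ≤ -ff T m n := by
    obtain ⟨b, hb1, hbr, hb⟩ := g2
    have hup := (abs_le.1 (g1 b hb1 (by omega))).2
    unfold YY at hb hup
    rw [← hL] at hb hup
    obtain ⟨k, hk⟩ : ∃ k : ℕ, k = NZ (t + 2 * Real.pi * b / L) := ⟨_, rfl⟩
    rw [← hk] at hb hup
    have hb0 : (1 : ℝ) ≤ b := by exact_mod_cast hb1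
    have hkn : n ≤ k := by
      have : (n : ℝ) ≤ k := by linarith
      exact_mod_cast this
    obtain ⟨m, hm⟩ : ∃ m : ℕ, k = n + m := ⟨k - n, by omega⟩
    have hm' : (k : ℝ) = n + m := by exact_mod_cast hm
    have hbr' : (b : ℝ) < r := by exact_mod_cast hbr
    refine ⟨m, ?_, ?_, ?_⟩
    · have : (0 : ℝ) < m := by linarith
      exact_mod_cast this
    · have : (m : ℝ) ≤ R := by linarith
      exact_mod_cast this
    · have h5 : ord (n + m) ≤ t + 2 * Real.pi * b / L := by
        refine (SG.ord_le_iff (by omega : 1 ≤ n + m) _).mpr ?_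
        rw [← hk, hm]
      rw [hfrac, hyv (n + m)] at h5
      rw [hyv n] at ht2
      have h6 : yv T (n + m) * (2 * Real.pi / L) < (yv T n + b) * (2 * Real.pi / L) := by
        rw [add_mul]
        linarith
      have h7 := lt_of_mul_lt_mul_right h6 hw.le
      unfold ff
      linarith
  -- the unfolded gaps
  have hS : ∀ m : ℕ, 1 ≤ m → m ≤ R → |SS m n - m - ff T m n| ≤ 1 := by
    intro m hm hmR
    have hmR' : (m : ℝ) ≤ R := by exact_mod_cast hmR
    have h5 := hU m hm hmR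
    have hg : (ord (n + m) - ord n) / (2 * Real.pi) = (m + ff T m n) / L := by
      unfold ff yv
      rw [← hL]
      field_simp
      ring
    have hg2 : (ord (n + m) - ord n) / (2 * Real.pi) ≤ 1 / 16 := by
      rw [hg, div_le_iff₀ hL0, hL]
      linarith
    have h6 := SS_gL hT hn h1 h2 hg2
    linarith
  refine ⟨?_, ?_, ?_⟩
  · intro b hb hbR
    have h5 := abs_le.1 (hS b hb hbR)
    have h6 := hU b hb hbR
    have h7 := hD b hb hbR
    have h8 : (1 / Real.pi + 6 * ε) * q ≤ (1 / Real.pi + 6 * ε) * Real.log R :=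
      mul_le_mul_of_nonneg_left n4 (by positivity)
    rw [abs_le]
    constructor <;> linarith [h5.1, h5.2]
  · obtain ⟨m, hm, hmR, h5⟩ := hE1
    have h6 := abs_le.1 (hS m hm hmR)
    exact ⟨m, hm, hmR, by linarith [h6.1, h6.2]⟩
  · obtain ⟨m, hm, hmR, h5⟩ := hE2
    have h6 := abs_le.1 (hS m hm hmR)
    exact ⟨m, hm, hmR, by linarith [h6.1, h6.2]⟩

end

end Pool.Agent.U403.Max
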